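import Pool.Agent.H560R3.SO.Stm

/-!
Assembly (MP_c20855_lc, Q1).
-/

set_option autoImplicit false

namespace Pool.Agent.H560R3.SO

open Ordinal

theorem classification (h1 : S_FINB) (h2 : S_SUF) (h3 : S_NEC) (α : Ordinal.{0}) :
    (∃ b : ℕ → Bool, HasType (shiftSet b) α) ↔
      (∃ n : ℕ, 1 ≤ n ∧ α = (n : Ordinal.{0})) ∨
      ∃ (μ : Ordinal.{0}) (p : ℕ) (ρ : Ordinal.{0}), 1 ≤ μ ∧ μ.card ≤ Cardinal.aleph0 ∧ 1 ≤ p ∧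
        ρ < ω ^ (μ + 1) ∧ (p = 1 → ρ = 0) ∧ α = ω ^ (μ + 1) * (p : Ordinal.{0}) + ρ := by
  constructor
  · rintro ⟨b, hb⟩
    exact h3 b α hb
  · rintro (⟨n, hn, rfl⟩ | ⟨μ, p, ρ, h4, h5, h6, h7, h8, rfl⟩)
    · exact h1 n hn
    · exact h2 μ p ρ h4 h5 h6 h7 h8

end Pool.Agent.H560R3.SO
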