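import Pool.Agent.H560R3.SO.Stm

set_option autoImplicit false

namespace Pool.Agent.H560R3.SO

open Ordinal

namespace BC

theorem exi (γ : List Ordinal.{0}) (x : Ordinal.{0}) :
    ∃ q : ℕ, ¬ ∃ h : q < γ.length, x < ω ^ γ[q] :=
  ⟨γ.length, fun ⟨h, _⟩ => absurd h (lt_irrefl _)⟩

open Classical in
/-- the number of good exponents -/
noncomputable def cnt (γ : List Ordinal.{0}) (x : Ordinal.{0}) : ℕ := Nat.find (exi γ x)

theorem cnt_le (γ : List Ordinal.{0}) (x : Ordinal.{0}) : cnt γ x ≤ γ.length := by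
  classical
  unfold cnt
  exact Nat.find_min' _ (fun ⟨h, _⟩ => absurd h (lt_irrefl _))

theorem of_lt_cnt (γ : List Ordinal.{0}) (x : Ordinal.{0}) (q : ℕ) (h : q < cnt γ x) :
    ∃ h : q < γ.length, x < ω ^ γ[q] := by
  classical
  unfold cnt at h
  have := Nat.find_min _ h
  exact not_not.1 this

theorem lt_cnt (γ : List Ordinal.{0}) (hγ : γ.Pairwise (fun x y => y ≤ x)) (x : Ordinal.{0})
    (q : ℕ) (hq : q < γ.length) (h : x < ω ^ γ[q]) : q < cnt γ x := by
  classical
  unfold cnt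
  rw [Nat.lt_find_iff]
  intro m hm
  rw [not_not]
  have hm' : m < γ.length := lt_of_le_of_lt hm hq
  refine ⟨hm', lt_of_lt_of_le h ?_⟩
  apply Ordinal.opow_le_opow_right Ordinal.omega0_pos
  rcases Nat.lt_or_ge m q with h1 | h1
  · exact List.pairwise_iff_getElem.1 hγ m q hm' hq h1
  · have : m = q := le_antisymm hm h1
    subst this
    exact le_refl _

end BC

theorem t_BC : S_BC := by
  classical
  intro μ D1 G γ hG hinj hγ hμ
  refine ⟨fun i => if h : ∃ ξ < ω ^ μ, G ξ = i then BC.cnt γ h.choose else 0,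
    fun i => if h : ∃ ξ < ω ^ μ, G ξ = i then h.choose else 0, ⟨?_, ?_, ?_⟩, ?_⟩
  · intro i hi
    by_cases h : ∃ ξ < ω ^ μ, G ξ = i
    · simp only [dif_pos h]
      have h1 := h.choose_spec
      refine ⟨?_, h1.1, h1.2⟩
      have := hG _ h1.1
      rw [h1.2] at this
      exact this
    · simp only [dif_neg h] at hi
      exact absurd rfl hi
  · intro i q hq
    by_cases h : ∃ ξ < ω ^ μ, G ξ = i
    · simp only [dif_pos h] at hq ⊢
      exact BC.of_lt_cnt γ _ q hq
    · simp only [dif_neg h] at hq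
      exact absurd hq (Nat.not_lt_zero _)
  · intro q hq ξ hξ
    have hlt : ξ < ω ^ μ := lt_of_lt_of_le hξ
      (Ordinal.opow_le_opow_right Ordinal.omega0_pos (hμ _ (List.getElem_mem hq)))
    have h : ∃ η < ω ^ μ, G η = G ξ := ⟨ξ, hlt, rfl⟩
    have h1 := h.choose_spec
    have h2 : h.choose = ξ := hinj _ h1.1 _ hlt h1.2
    simp only [dif_pos h, h2]
    exact ⟨BC.lt_cnt γ hγ ξ q hq hξ, trivial⟩
  · intro i
    by_cases h : ∃ ξ < ω ^ μ, G ξ = i
    · simp only [dif_pos h]
      exact BC.cnt_le γ _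
    · simp only [dif_neg h]
      exact Nat.zero_le _

end Pool.Agent.H560R3.SO
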