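import Pool.Agent.H560R3.SO.Stm

/-! All ranks are below the total. -/

set_option autoImplicit false

namespace Pool.Agent.H560R3.SO

open Ordinal

namespace BD

theorem add_lt_W {μ f : Ordinal.{0}} (m : ℕ) (hf : f < ω ^ μ) :
    ω ^ μ * (m : Ordinal.{0}) + f < ω ^ (μ + 1) := by
  have h1 : ω ^ μ * (m : Ordinal.{0}) + f < ω ^ μ * (m : Ordinal.{0}) + ω ^ μ :=
    (add_lt_add_iff_left _).mpr hf
  have h2 : ω ^ μ * (m : Ordinal.{0}) + ω ^ μ = ω ^ μ * ((m + 1 : ℕ) : Ordinal.{0}) := by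
    push_cast
    rw [mul_add, mul_one]
  have h3 : ω ^ μ * ((m + 1 : ℕ) : Ordinal.{0}) < ω ^ (μ + 1) := by
    rw [opow_add, opow_one]
    exact (mul_lt_mul_iff_right₀ (opow_pos μ omega0_pos)).mpr (natCast_lt_omega0 _)
  rw [h2] at h1
  exact h1.trans h3

theorem mul_nat_le {W : Ordinal.{0}} {m n : ℕ} (h : m ≤ n) :
    W * (m : Ordinal.{0}) ≤ W * (n : Ordinal.{0}) := by
  apply mul_le_mul_right
  exact_mod_cast h

theorem mul_add_lt {W r : Ordinal.{0}} {m n : ℕ} (hr : r < W) (h : m < n) :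
    W * (m : Ordinal.{0}) + r < W * (n : Ordinal.{0}) := by
  have h1 : W * (m : Ordinal.{0}) + r < W * (m : Ordinal.{0}) + W :=
    (add_lt_add_iff_left _).mpr hr
  have h2 : W * (m : Ordinal.{0}) + W = W * ((m + 1 : ℕ) : Ordinal.{0}) := by
    push_cast
    rw [mul_add, mul_one]
  rw [h2] at h1
  exact h1.trans_le (mul_nat_le h)

theorem psum_append (l1 l2 : List Ordinal.{0}) : psum (l1 ++ l2) = psum l1 + psum l2 := by
  simp [psum]

theorem psum_single (g : Ordinal.{0}) : psum [g] = ω ^ g := by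
  simp [psum]

theorem psum_take_le (γ : List Ordinal.{0}) {m n : ℕ} (h : m ≤ n) :
    psum (γ.take m) ≤ psum (γ.take n) := by
  have hp : γ.take m <+: γ.take n := List.take_prefix_take_left h
  obtain ⟨t, ht⟩ := hp
  rw [← ht, psum_append]
  exact le_self_add

theorem psum_take_le' (γ : List Ordinal.{0}) (m : ℕ) :
    psum (γ.take m) ≤ psum γ := by
  have hp : γ.take m <+: γ := List.take_prefix m γ
  obtain ⟨t, ht⟩ := hp
  conv_rhs => rw [← ht, psum_append]
  exact le_self_add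

theorem psum_take_succ (γ : List Ordinal.{0}) (m : ℕ) (h : m < γ.length) :
    psum (γ.take (m + 1)) = psum (γ.take m) + ω ^ γ[m] := by
  rw [List.take_succ_eq_append_getElem h, psum_append, psum_single]

/-- the rank with `z = 0` -/
theorem psum_lt {μ : Ordinal.{0}} {p : ℕ} {k c : ℕ → ℕ} {b : ℕ → Bool} {pos : ℕ → ℕ}
    {f : ℕ → Ordinal.{0}} {γ : List Ordinal.{0}} {X : ℕ → Ordinal.{0}}
    (hc : Ctx μ p k c b pos f γ X) {q i : ℕ} (h1 : 1 ≤ q) (h2 : q ≤ c i) :
    psum (γ.take (q - 1)) + X i < psum (γ.take q) := by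
  obtain ⟨h, hX⟩ := hc.hX i (q - 1) (by omega)
  have e : psum (γ.take q) = psum (γ.take (q - 1)) + ω ^ γ[q - 1] := by
    rw [← psum_take_succ γ (q - 1) h, show q - 1 + 1 = q by omega]
  rw [e]
  exact (add_lt_add_iff_left _).mpr hX

end BD

theorem t_BD : S_BD := by
  intro μ p k c b pos f γ X hc n z j i
  have hp : 1 ≤ p := hc.hb.hp
  constructor
  · rintro ⟨hj1, hj2, hz, hzp, -, -⟩
    refine lt_of_lt_of_le ?_ (le_self_add (a := ω ^ (μ + 1) * (p : Ordinal.{0})) (b := psum γ))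
    unfold Flow
    split_ifs with h
    · have h1 : f i < ω ^ (μ + 1) := by
        have := BD.add_lt_W (μ := μ) (f := f i) 0 (hc.hf i)
        simpa using this
      have h2 := BD.mul_nat_le (W := ω ^ (μ + 1)) hp
      simp only [Nat.cast_one, mul_one] at h2
      exact h1.trans_le h2
    · exact BD.mul_add_lt (BD.add_lt_W _ (hc.hf (i + 1))) (by omega)
  · rintro ⟨hq1, hq2, hz, -, -⟩
    unfold Fhigh
    split_ifs with h
    · apply (add_lt_add_iff_left _).mpr
      exact (BD.psum_lt hc hq1 hq2).trans_le (BD.psum_take_le' γ j)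
    · refine lt_of_lt_of_le ?_ (le_self_add (a := ω ^ (μ + 1) * (p : Ordinal.{0})) (b := psum γ))
      exact BD.mul_add_lt (BD.add_lt_W _ (hc.hf (i + 1))) (by omega)

end Pool.Agent.H560R3.SO
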