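import Pool.Agent.H560R3.SO.Stm

set_option autoImplicit false

namespace Pool.Agent.H560R3.SO.BG

open Ordinal

theorem uw_length (p : ℕ) (hp : 1 ≤ p) : (uw p).length = p := by
  simp only [uw, List.length_cons, List.length_replicate]; omega

theorem up_succ (p k : ℕ) : up p (k + 1) = uw p ++ up p k := by
  simp [up, List.replicate_succ]

theorem up_length (p : ℕ) (hp : 1 ≤ p) (k : ℕ) : (up p k).length = p * k := by
  induction k with
  | zero => simp [up]
  | succ k ih => rw [up_succ, List.length_append, ih, uw_length p hp]; ring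

theorem uw_get (p : ℕ) (hp : 1 ≤ p) (o : ℕ) (h : o < (uw p).length) :
    (uw p)[o] = decide (o % p = 0) := by
  have h' := h
  rw [uw_length p hp] at h'
  rw [Nat.mod_eq_of_lt h']
  rcases o with _ | o
  · simp [uw]
  · simp [uw]

theorem up_get (p : ℕ) (hp : 1 ≤ p) (k : ℕ) : ∀ (o : ℕ) (h : o < (up p k).length),
    (up p k)[o] = decide (o % p = 0) := by
  induction k with
  | zero => intro o h; simp [up] at h
  | succ k ih =>
    intro o h
    simp only [up_succ]
    rw [List.getElem_append]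
    split_ifs with h1
    · exact uw_get p hp o h1
    · rw [ih]
      rw [uw_length p hp] at h1 ⊢
      push Not at h1
      have : o = (o - p) + p := by omega
      conv_rhs => rw [this, Nat.add_mod_right]

variable {p : ℕ} {k c : ℕ → ℕ} {b : ℕ → Bool} {pos : ℕ → ℕ}

theorem dig1 (hb : Bin p k c b pos) (i o : ℕ) (h : o < p * k i) :
    b (pos i + o) = decide (o % p = 0) := by
  have hl := up_length p hb.hp (k i)
  have h2 := hb.ho i o (by simp only [blk, List.length_append, hl]; omega)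
  rw [h2]
  simp only [blk]
  rw [List.getElem_append_left (by rw [hl]; exact h)]
  exact up_get p hb.hp (k i) o _

theorem dig2 (hb : Bin p k c b pos) (i : ℕ) : b (pos i + p * k i) = false := by
  have hl := up_length p hb.hp (k i)
  have h2 := hb.ho i (p * k i) (by
    simp only [blk, List.length_append, hl, List.length_cons]; omega)
  rw [h2]
  simp only [blk]
  rw [List.getElem_append_right (by rw [hl])]
  simp [hl]

theorem dig3 (hb : Bin p k c b pos) (i o : ℕ) (h : o < c i) :
    b (pos i + (p * k i + 1 + o)) = true := by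
  have hl := up_length p hb.hp (k i)
  have h2 := hb.ho i (p * k i + 1 + o) (by
    simp only [blk, List.length_append, hl, List.length_cons, List.length_replicate]; omega)
  rw [h2]
  simp only [blk]
  rw [List.getElem_append_right (by rw [hl]; omega)]
  have : p * k i + 1 + o - (up p (k i)).length = o + 1 := by rw [hl]; omega
  simp [this]

theorem start0 (hb : Bin p k c b pos) (i : ℕ) : b (pos i) = true := by
  have h0 : 0 < p * k i := Nat.mul_pos hb.hp (hb.hk i)
  have := dig1 hb i 0 h0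
  simpa using this

theorem start1 (hb : Bin p k c b pos) (hp2 : 2 ≤ p) (i : ℕ) : b (pos i + 1) = false := by
  have h0 : 1 < p * k i := by
    have h1 := hb.hk i
    nlinarith
  have := dig1 hb i 1 h0
  rw [this, Nat.mod_eq_of_lt (by omega)]
  simp

theorem shift {n n' : ℕ} (L : ℕ) (h : ∀ l < L, b (n + l) = b (n' + l))
    (h2 : LTs b (n + L) (n' + L)) : LTs b n n' := by
  obtain ⟨m, hm, hm'⟩ := h2
  refine ⟨L + m, ?_, ?_⟩
  · intro l hl
    by_cases hL : l < L
    · exact h l hL
    · have := hm (l - L) (by omega)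
      have e1 : n + L + (l - L) = n + l := by omega
      have e2 : n' + L + (l - L) = n' + l := by omega
      rwa [e1, e2] at this
  · rw [← Nat.add_assoc, ← Nat.add_assoc]; exact hm'

/-- digits of the positions of the first kind -/
theorem kindA (hb : Bin p k c b pos) {i j a m n : ℕ} (hm : m < p) (hk : k i = j + 2 + a)
    (hc : c i = 0) (hn : n = pos i + (p * a + (m + 1))) :
    (∀ l < (p - 1 - m) + p * (j + 1), b (n + l) = decide ((m + 1 + l) % p = 0)) ∧
    b (n + ((p - 1 - m) + p * (j + 1))) = false ∧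
    n + ((p - 1 - m) + p * (j + 1) + 1) = pos (i + 1) := by
  have hpk : p * k i = p * a + p + p * (j + 1) := by rw [hk]; ring
  refine ⟨?_, ?_, ?_⟩
  · intro l hl
    have e : n + l = pos i + (p * a + (m + 1 + l)) := by rw [hn]; ring
    rw [e, dig1 hb i _ (by rw [hpk]; omega)]
    rw [Nat.mul_add_mod]
  · have e : n + ((p - 1 - m) + p * (j + 1)) = pos i + p * k i := by
      rw [hn, hpk]; omega
    rw [e]; exact dig2 hb i
  · rw [hb.hs i, hc, hn, hpk]; omega

/-- digits of the positions of the second kind -/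
theorem kindB (hb : Bin p k c b pos) {i q : ℕ} (hq : q < c i) :
    ∃ n, n + (q + 1) = pos (i + 1) ∧ ∀ l ≤ q, b (n + l) = true := by
  refine ⟨pos i + (p * k i + 1 + (c i - (q + 1))), ?_, ?_⟩
  · rw [hb.hs i]; omega
  · intro l hl
    have e : pos i + (p * k i + 1 + (c i - (q + 1))) + l =
        pos i + (p * k i + 1 + ((c i - (q + 1)) + l)) := by ring
    rw [e]
    exact dig3 hb i _ (by omega)

/-! ### Ordinals -/

theorem dec_lt {A : Ordinal.{0}} {a a' r r' : Ordinal.{0}} (hr' : r' < A)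
    (h : A * a + r < A * a' + r') : a < a' ∨ (a = a' ∧ r < r') := by
  rcases lt_trichotomy a a' with h1 | h1 | h1
  · exact Or.inl h1
  · subst h1
    exact Or.inr ⟨rfl, (add_lt_add_iff_left _).1 h⟩
  · exfalso
    have h2 : A * a' + r' < A * a' + A := (add_lt_add_iff_left _).2 hr'
    have h3 : A * a' + A = A * (a' + 1) := by rw [mul_add, mul_one]
    have h4 : A * (a' + 1) ≤ A * a := by
      apply mul_le_mul_right
      rw [← Order.succ_eq_add_one]
      exact Order.succ_le_of_lt h1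
    have h5 : A * a ≤ A * a + r := le_self_add
    rw [h3] at h2
    exact absurd (h.trans (h2.trans_le (h4.trans h5))) (lt_irrefl _)

theorem psum_cons (g : Ordinal.{0}) (γ : List Ordinal.{0}) :
    psum (g :: γ) = ω ^ g + psum γ := by
  simp [psum]

theorem psum_dec (γ : List Ordinal.{0}) : ∀ ζ : Ordinal.{0}, ζ < psum γ →
    ∃ (q : ℕ) (h : q < γ.length) (ξ : Ordinal.{0}), ξ < ω ^ γ[q] ∧ ζ = psum (γ.take q) + ξ := by
  induction γ with
  | nil => intro ζ h; simp [psum] at h
  | cons g γ ih =>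
    intro ζ h
    rw [psum_cons] at h
    by_cases h1 : ζ < ω ^ g
    · exact ⟨0, by simp, ζ, by simpa using h1, by simp [psum]⟩
    · push Not at h1
      obtain ⟨ζ', rfl⟩ := exists_add_of_le h1
      rw [add_lt_add_iff_left] at h
      obtain ⟨q, hq, ξ, h2, h3⟩ := ih ζ' h
      refine ⟨q + 1, by simpa using hq, ξ, by simpa using h2, ?_⟩
      rw [List.take_succ_cons, psum_cons, h3, add_assoc]

theorem psum_take_le (γ : List Ordinal.{0}) : ∀ (q q' : ℕ) (h : q < γ.length), q < q' →
    psum (γ.take q) + ω ^ γ[q] ≤ psum (γ.take q') := by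
  induction γ with
  | nil => intro q q' h; simp at h
  | cons g γ ih =>
    intro q q' h hqq
    obtain ⟨q', rfl⟩ : ∃ r, q' = r + 1 := ⟨q' - 1, by omega⟩
    rcases q with _ | q
    · simp only [List.take_zero, List.getElem_cons_zero, List.take_succ_cons, psum_cons]
      simp only [psum, List.map_nil, List.sum_nil, zero_add]
      exact le_self_add
    · simp only [List.getElem_cons_succ, List.take_succ_cons, psum_cons, add_assoc]
      have := ih q q' (by simpa using h) (by omega)
      exact (add_le_add_iff_left _).2 this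

theorem psum_lt {γ : List Ordinal.{0}} {q q' : ℕ} (h' : q' < γ.length)
    {ξ ξ' : Ordinal.{0}} (hξ' : ξ' < ω ^ γ[q'])
    (hlt : psum (γ.take q) + ξ < psum (γ.take q') + ξ') : q < q' ∨ (q = q' ∧ ξ < ξ') := by
  rcases lt_trichotomy q q' with h1 | h1 | h1
  · exact Or.inl h1
  · subst h1
    exact Or.inr ⟨rfl, (add_lt_add_iff_left _).1 hlt⟩
  · exfalso
    have h2 := psum_take_le γ q' q h' h1
    have h3 : psum (γ.take q') + ξ' < psum (γ.take q') + ω ^ γ[q'] :=
      (add_lt_add_iff_left _).2 hξ'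
    exact absurd (hlt.trans (h3.trans_le (h2.trans le_self_add))) (lt_irrefl _)

theorem main_dec (μ ζ : Ordinal.{0}) (p : ℕ) (h : ζ < ω ^ (μ + 1) * (p : Ordinal.{0})) :
    ∃ (m j : ℕ) (ξ : Ordinal.{0}), m < p ∧ ξ < ω ^ μ ∧
      ζ = ω ^ (μ + 1) * (m : Ordinal.{0}) + (ω ^ μ * (j : Ordinal.{0}) + ξ) := by
  have hpos : (ω ^ (μ + 1) : Ordinal.{0}) ≠ 0 := (opow_pos _ omega0_pos).ne'
  have hpos' : (ω ^ μ : Ordinal.{0}) ≠ 0 := (opow_pos _ omega0_pos).ne'
  have h1 : ζ / ω ^ (μ + 1) < (p : Ordinal.{0}) := (lt_mul_iff_div_lt hpos).1 h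
  have h2 : ζ / ω ^ (μ + 1) < ω := h1.trans (natCast_lt_omega0 p)
  obtain ⟨m, hm⟩ := lt_omega0.1 h2
  have h3 : ζ % ω ^ (μ + 1) < ω ^ μ * ω := by
    have h3' := mod_lt ζ hpos
    have e : (ω ^ (μ + 1) : Ordinal.{0}) = ω ^ μ * ω := by rw [opow_add, opow_one]
    rw [← e]; exact h3'
  have h4 : (ζ % ω ^ (μ + 1)) / ω ^ μ < ω := (lt_mul_iff_div_lt hpos').1 h3
  obtain ⟨j, hj⟩ := lt_omega0.1 h4
  refine ⟨m, j, (ζ % ω ^ (μ + 1)) % ω ^ μ, ?_, mod_lt _ hpos', ?_⟩
  · rw [hm] at h1; exact_mod_cast h1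
  · rw [← hj, div_add_mod, ← hm, div_add_mod]

/-- the relation between an ordinal and a position -/
def Rel (μ : Ordinal.{0}) (p : ℕ) (k : ℕ → ℕ) (b : ℕ → Bool) (pos : ℕ → ℕ)
    (γ : List Ordinal.{0}) (G0 : ℕ → Ordinal.{0} → ℕ) (G1 : Ordinal.{0} → ℕ)
    (ζ : Ordinal.{0}) (n : ℕ) : Prop :=
  (∃ (m j a : ℕ) (ξ : Ordinal.{0}), m < p ∧ ξ < ω ^ μ ∧
    ζ = ω ^ (μ + 1) * (m : Ordinal.{0}) + (ω ^ μ * (j : Ordinal.{0}) + ξ) ∧
    k (G0 (j + 1) ξ) = j + 2 + a ∧ n = pos (G0 (j + 1) ξ) + (p * a + (m + 1))) ∨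
  (∃ (q : ℕ) (h : q < γ.length) (ξ : Ordinal.{0}), ξ < ω ^ γ[q] ∧
    ζ = ω ^ (μ + 1) * (p : Ordinal.{0}) + (psum (γ.take q) + ξ) ∧
    n + (q + 1) = pos (G1 ξ + 1) ∧ ∀ l ≤ q, b (n + l) = true)

theorem inner_lt (μ : Ordinal.{0}) (j : ℕ) {ξ : Ordinal.{0}} (h : ξ < ω ^ μ) :
    ω ^ μ * (j : Ordinal.{0}) + ξ < ω ^ (μ + 1) := by
  have e : (ω ^ (μ + 1) : Ordinal.{0}) = ω ^ μ * ω := by rw [opow_add, opow_one]
  have h1 : ω ^ μ * (j : Ordinal.{0}) + ξ < ω ^ μ * (j : Ordinal.{0}) + ω ^ μ :=
    (add_lt_add_iff_left _).2 h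
  have h2 : ω ^ μ * (j : Ordinal.{0}) + ω ^ μ = ω ^ μ * ((j + 1 : ℕ) : Ordinal.{0}) := by
    push_cast
    rw [mul_add, mul_one]
  rw [e]
  rw [h2] at h1
  refine h1.trans ?_
  exact (mul_lt_mul_iff_right₀ (opow_pos _ omega0_pos)).2 (natCast_lt_omega0 _)

theorem rel_lt {μ : Ordinal.{0}} {f : ℕ → Ordinal.{0}} {γ : List Ordinal.{0}}
    {X : ℕ → Ordinal.{0}} {D0 : Set ℕ} {G0 : ℕ → Ordinal.{0} → ℕ} {G1 : Ordinal.{0} → ℕ}
    (H : Ctx μ p k c b pos f γ X) (hD : ∀ i ∈ D0, c i = 0)
    (hG0 : ∀ j : ℕ, (∀ ξ < ω ^ μ, G0 j ξ ∈ D0 ∧ j < k (G0 j ξ)) ∧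
      ∀ ξ η, ξ < η → η < ω ^ μ → f (G0 j ξ + 1) < f (G0 j η + 1))
    (hG1 : ∀ ξ η, ξ < η → η < ω ^ μ → f (G1 ξ + 1) < f (G1 η + 1))
    {ζ ζ' : Ordinal.{0}} {n n' : ℕ} (hlt : ζ < ζ') (h : Rel μ p k b pos γ G0 G1 ζ n)
    (h' : Rel μ p k b pos γ G0 G1 ζ' n') : LTs b n n' := by
  have hb := H.hb
  have hp1 := hb.hp
  have hT : ∀ i i', f i < f i' → LTs b (pos i) (pos i') := by
    intro i i' hf
    have hne : i ≠ i' := by rintro rfl; exact lt_irrefl _ hf
    rcases H.ht i i' hne with h1 | h1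
    · exact h1.1
    · exact absurd (hf.trans h1.2) (lt_irrefl _)
  rcases h with ⟨m, j, a, ξ, hm, hξ, hζ, hk, hn⟩ | ⟨q, hq, ξ, hξ, hζ, hn, hd⟩
  · obtain ⟨d1, d2, d3⟩ := kindA hb hm hk (hD _ ((hG0 (j + 1)).1 ξ hξ).1) hn
    rcases h' with ⟨m', j', a', ξ', hm', hξ', hζ', hk', hn'⟩ | ⟨q', hq', ξ', hξ', hζ', hn', hd'⟩
    · obtain ⟨d1', d2', d3'⟩ := kindA hb hm' hk' (hD _ ((hG0 (j' + 1)).1 ξ' hξ').1) hn'
      have hpj : p ≤ p * (j + 1) := Nat.le_mul_of_pos_right p (Nat.succ_pos j)
      have hpj' : p ≤ p * (j' + 1) := Nat.le_mul_of_pos_right p (Nat.succ_pos j')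
      rw [hζ, hζ'] at hlt
      rcases dec_lt (inner_lt μ j' hξ') hlt with h1 | ⟨h1, h2⟩
      · have hmm : m < m' := by exact_mod_cast h1
        refine ⟨p - 1 - m', ?_, ?_⟩
        · intro l hl
          rw [d1 l (by omega), d1' l (by omega), Nat.mod_eq_of_lt (by omega),
            Nat.mod_eq_of_lt (by omega)]
          simp
        · rw [d1 _ (by omega), d1' _ (by omega)]
          have e : m' + 1 + (p - 1 - m') = p := by omega
          rw [e, Nat.mod_self, Nat.mod_eq_of_lt (by omega)]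
          simp
      · have hmm : m = m' := by exact_mod_cast h1
        subst hmm
        rcases dec_lt hξ' h2 with h3 | ⟨h3, h4⟩
        · have hjj : j < j' := by exact_mod_cast h3
          have hpj2 : p * (j + 1) + p ≤ p * (j' + 1) := by
            have : p * (j + 1) + p = p * (j + 1 + 1) := by ring
            rw [this]; exact Nat.mul_le_mul_left p (by omega)
          refine ⟨(p - 1 - m) + p * (j + 1), ?_, ?_⟩
          · intro l hl
            rw [d1 l hl, d1' l (by omega)]
          · rw [d2, d1' _ (by omega)]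
            have e : m + 1 + (p - 1 - m + p * (j + 1)) = p * (j + 1 + 1) := by
              have : p * (j + 1 + 1) = p * (j + 1) + p := by ring
              omega
            rw [e, Nat.mul_mod_right]
            simp
        · have hjj : j = j' := by exact_mod_cast h3
          subst hjj
          refine shift ((p - 1 - m) + p * (j + 1) + 1) ?_ ?_
          · intro l hl
            by_cases hl2 : l < (p - 1 - m) + p * (j + 1)
            · rw [d1 l hl2, d1' l hl2]
            · have : l = (p - 1 - m) + p * (j + 1) := by omega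
              rw [this, d2, d2']
          · rw [d3, d3']
            exact hT _ _ ((hG0 (j + 1)).2 ξ ξ' h4 hξ')
    · have hp2 : 2 ≤ p := by
        by_contra hcon
        have : p = 1 := by omega
        rw [H.h1 this] at hq'
        simp at hq'
      have hpj : p ≤ p * (j + 1) := Nat.le_mul_of_pos_right p (Nat.succ_pos j)
      by_cases hmp : m + 1 < p
      · refine ⟨0, by intro l hl; omega, ?_⟩
        have e1 : b (n + 0) = false := by
          rw [d1 0 (by omega), Nat.mod_eq_of_lt (by omega)]; simp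
        have e2 : b (n' + 0) = true := hd' 0 (by omega)
        rw [e1, e2]; decide
      · have hmp2 : m + 1 = p := by omega
        refine ⟨1, ?_, ?_⟩
        · intro l hl
          have hl0 : l = 0 := by omega
          subst hl0
          rw [d1 0 (by omega), hd' 0 (by omega), hmp2]
          simp
        · have e1 : b (n + 1) = false := by
            rw [d1 1 (by omega), hmp2, Nat.add_mod_left, Nat.mod_eq_of_lt (by omega)]; simp
          have e2 : b (n' + 1) = true := by
            by_cases h1 : 1 ≤ q'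
            · exact hd' 1 h1
            · have : q' = 0 := by omega
              subst this
              rw [hn']; exact start0 hb _
          rw [e1, e2]; decide
  · rcases h' with ⟨m', j', a', ξ', hm', hξ', hζ', hk', hn'⟩ | ⟨q', hq', ξ', hξ', hζ', hn', hd'⟩
    · exfalso
      have h1 : ζ' < ω ^ (μ + 1) * (p : Ordinal.{0}) := by
        have h2 : ω ^ (μ + 1) * (m' : Ordinal.{0}) + (ω ^ μ * (j' : Ordinal.{0}) + ξ') <
            ω ^ (μ + 1) * (m' : Ordinal.{0}) + ω ^ (μ + 1) :=
          (add_lt_add_iff_left _).2 (inner_lt μ j' hξ')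
        have h3 : ω ^ (μ + 1) * (m' : Ordinal.{0}) + ω ^ (μ + 1) =
            ω ^ (μ + 1) * ((m' + 1 : ℕ) : Ordinal.{0}) := by
          push_cast
          rw [mul_add, mul_one]
        rw [hζ']
        rw [h3] at h2
        refine h2.trans_le ?_
        apply mul_le_mul_right
        exact_mod_cast hm'
      have h2 : ω ^ (μ + 1) * (p : Ordinal.{0}) ≤ ζ := by rw [hζ]; exact le_self_add
      exact absurd (hlt.trans (h1.trans_le h2)) (lt_irrefl _)
    · rw [hζ, hζ', add_lt_add_iff_left] at hlt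
      have hp2 : 2 ≤ p := by
        by_contra hcon
        have : p = 1 := by omega
        rw [H.h1 this] at hq'
        simp at hq'
      rcases psum_lt hq' hξ' hlt with h1 | ⟨h1, h2⟩
      · refine ⟨q + 2, ?_, ?_⟩
        · intro l hl
          have e2 : b (n' + l) = true := hd' l (by omega)
          rw [e2]
          by_cases hl2 : l ≤ q
          · exact hd l hl2
          · have : l = q + 1 := by omega
            rw [this, hn]; exact start0 hb _
        · have e1 : b (n + (q + 2)) = false := by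
            have : n + (q + 2) = pos (G1 ξ + 1) + 1 := by omega
            rw [this]; exact start1 hb hp2 _
          have e2 : b (n' + (q + 2)) = true := by
            by_cases h3 : q + 2 ≤ q'
            · exact hd' _ h3
            · have h4 : q + 2 = q' + 1 := by omega
              rw [h4, hn']; exact start0 hb _
          rw [e1, e2]; decide
      · subst h1
        refine shift (q + 1) ?_ ?_
        · intro l hl
          rw [hd l (by omega), hd' l (by omega)]
        · rw [hn, hn']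
          refine hT _ _ (hG1 ξ ξ' h2 (hξ'.trans_le ?_))
          exact opow_le_opow_right omega0_pos (H.hg _ (List.getElem_mem hq'))

end Pool.Agent.H560R3.SO.BG

namespace Pool.Agent.H560R3.SO

open Ordinal

theorem t_BG : S_BG := by
  intro μ p k c b pos f γ X D0 D1 G1 H hD hG0' hG1 hC
  choose G0 hG0 using hG0'
  have hex : ∀ ζ : Ordinal.{0}, ζ < ω ^ (μ + 1) * (p : Ordinal.{0}) + psum γ →
      ∃ n, BG.Rel μ p k b pos γ G0 G1 ζ n := by
    intro ζ hζ
    by_cases h1 : ζ < ω ^ (μ + 1) * (p : Ordinal.{0})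
    · obtain ⟨m, j, ξ, hm, hξ, h2⟩ := BG.main_dec μ ζ p h1
      have h3 := ((hG0 (j + 1)).1 ξ hξ).2
      refine ⟨pos (G0 (j + 1) ξ) + (p * (k (G0 (j + 1) ξ) - (j + 2)) + (m + 1)),
        Or.inl ⟨m, j, k (G0 (j + 1) ξ) - (j + 2), ξ, hm, hξ, h2, by omega, rfl⟩⟩
    · push Not at h1
      obtain ⟨ζ', rfl⟩ := exists_add_of_le h1
      rw [add_lt_add_iff_left] at hζ
      obtain ⟨q, hq, ξ, h2, h3⟩ := BG.psum_dec γ ζ' hζ
      obtain ⟨n, hn, hd⟩ := BG.kindB H.hb (hC.h3 q hq ξ h2).1
      exact ⟨n, Or.inr ⟨q, hq, ξ, h2, by rw [h3], hn, hd⟩⟩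
  classical
  refine ⟨fun ζ => if h : ζ < ω ^ (μ + 1) * (p : Ordinal.{0}) + psum γ then
    Classical.choose (hex ζ h) else 0, ?_⟩
  intro ξ η h1 h2
  have h3 := h1.trans h2
  simp only [dif_pos h2, dif_pos h3]
  exact BG.rel_lt H hD hG0 hG1 h1 (Classical.choose_spec (hex ξ h3))
    (Classical.choose_spec (hex η h2))

end Pool.Agent.H560R3.SO
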