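import Pool.Agent.H560R3.SO.Stm

set_option autoImplicit false

namespace Pool.Agent.H560R3.SO

open Ordinal

theorem t_BIN (hBIN0 : S_BIN0) (hBC : S_BC) (hTL : S_TL) (hNF : S_NF) (hLL : S_LL) (hLH : S_LH)
    (hHH : S_HH) (hBD : S_BD) (hBG : S_BG) : S_BIN := by
  intro μ k D0 D1 f hμ hcore p γ hp hγ hγμ h1
  obtain ⟨G1, hG1a, hG1b⟩ := hcore.hG1
  have hinj : ∀ ξ < ω ^ μ, ∀ η < ω ^ μ, G1 ξ = G1 η → ξ = η := by
    intro ξ hξ η hη he
    rcases lt_trichotomy ξ η with h | h | h
    · have := hG1b ξ η h hη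
      rw [he] at this
      exact absurd this (lt_irrefl _)
    · exact h
    · have := hG1b η ξ h hξ
      rw [he] at this
      exact absurd this (lt_irrefl _)
  obtain ⟨c, X, hC, hcl⟩ := hBC μ D1 G1 γ hG1a hinj hγ hγμ
  obtain ⟨b, pos, hb⟩ := hBIN0 p k c hp hcore.hk
  have hTL' := hTL p k c b pos D1 hb hcore.hu (fun i hi => (hC.h1 i hi).1)
  have hctx : Ctx μ p k c b pos f γ X :=
    { hμ := hμ
      hb := hb
      hf := hcore.hf
      ht := by
        intro i i' hne
        rcases hcore.hc i i' hne with ⟨h2, h3⟩ | ⟨h2, h3⟩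
        · exact Or.inl ⟨hTL' i i' h2, h3⟩
        · exact Or.inr ⟨hTL' i' i h2, h3⟩
      hC := hcl
      h1 := h1
      hg := hγμ
      hX := hC.h2
      hXm := by
        intro i i' hi hi' hlt
        obtain ⟨-, ha, hGa⟩ := hC.h1 i hi
        obtain ⟨-, ha', hGa'⟩ := hC.h1 i' hi'
        rcases lt_trichotomy (X i) (X i') with h | h | h
        · exact h
        · exfalso
          have e : i = i' := hGa.symm.trans ((congrArg G1 h).trans hGa')
          rw [e] at hlt
          exact absurd hlt (lt_irrefl _)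
        · exfalso
          have h4 := hG1b (X i') (X i) h ha
          rw [hGa, hGa'] at h4
          exact absurd h4 (lt_asymm hlt) }
  have hD0 : ∀ i ∈ D0, c i = 0 := by
    intro i hi
    by_contra hcon
    exact Set.disjoint_left.1 hcore.hd hi (hC.h1 i hcon).1
  have hpos : ∀ N, N ≤ pos N := by
    intro N
    induction N with
    | zero => exact Nat.zero_le _
    | succ N ih =>
      have := hb.hs N
      omega
  refine ⟨b, ?_, ?_⟩
  · intro N
    refine ⟨pos N + (up p (k N)).length, le_trans (hpos N) (Nat.le_add_right _ _), ?_⟩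
    have hlen : (up p (k N)).length < (blk p (k N) (c N)).length := by
      unfold blk
      rw [List.length_append, List.length_cons]
      omega
    rw [hb.ho N (up p (k N)).length hlen]
    unfold blk
    rw [List.getElem_append_right le_rfl]
    simp
  · have hF : ∀ n, ∃ o : Ordinal.{0},
        (∃ z j i, Low p k c b pos n z j i ∧ o = Flow μ f p γ.length c z j i) ∨
        (∃ z q i, High p c b pos n z q i ∧ o = Fhigh μ f p γ X z q i) := by
      intro n
      rcases hNF p k c b pos hb n with ⟨z, j, i, h⟩ | ⟨z, q, i, h⟩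
      · exact ⟨_, Or.inl ⟨z, j, i, h, rfl⟩⟩
      · exact ⟨_, Or.inr ⟨z, q, i, h, rfl⟩⟩
    choose F hF using hF
    refine ⟨F, ?_, ?_, ?_⟩
    · intro n
      rcases hF n with ⟨z, j, i, h, ho⟩ | ⟨z, q, i, h, ho⟩
      · rw [ho]
        exact (hBD μ p k c b pos f γ X hctx n z j i).1 h
      · rw [ho]
        exact (hBD μ p k c b pos f γ X hctx n z q i).2 h
    · intro n n' hne
      rcases hF n with ⟨z, j, i, h, ho⟩ | ⟨z, q, i, h, ho⟩ <;>
        rcases hF n' with ⟨z', j', i', h', ho'⟩ | ⟨z', q', i', h', ho'⟩ <;> rw [ho, ho']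
      · exact hLL μ p k c b pos f γ X hctx n z j i n' z' j' i' h h' hne
      · exact hLH μ p k c b pos f γ X hctx n z j i n' z' q' i' h h'
      · exact (hLH μ p k c b pos f γ X hctx n' z' j' i' n z q i h' h).symm
      · exact hHH μ p k c b pos f γ X hctx n z q i n' z' q' i' h h' hne
    · exact hBG μ p k c b pos f γ X D0 D1 G1 hctx hD0 hcore.hG0 hG1b hC

end Pool.Agent.H560R3.SO
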