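import Pool.Agent.H560R3.SO.Stm

set_option autoImplicit false

namespace Pool.Agent.H560R3.SO

open Ordinal

namespace BIN0

theorem length_up (p k : ℕ) (hp : 1 ≤ p) : (up p k).length = p * k := by
  have h1 : (uw p).length = p := by
    simp only [uw, List.length_cons, List.length_replicate]
    omega
  induction k with
  | zero => simp [up]
  | succ k ih =>
    simp only [up, List.replicate_succ, List.flatten_cons, List.length_append] at ih ⊢
    rw [ih, h1]
    ring

theorem length_blk (p k c : ℕ) (hp : 1 ≤ p) : (blk p k c).length = p * k + 1 + c := by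
  simp only [blk, List.length_append, List.length_cons, List.length_replicate,
    length_up p k hp]
  ring

end BIN0

theorem t_BIN0 (hC : S_CAT) : S_BIN0 := by
  intro p k c hp hk
  obtain ⟨g, pos, h0, h1, h2⟩ := hC Bool (fun i => blk p (k i) (c i)) (by
    intro j
    simp [blk])
  refine ⟨g, pos, hp, hk, h0, ?_, h2⟩
  intro i
  rw [h1 i, BIN0.length_blk p (k i) (c i) hp]

end Pool.Agent.H560R3.SO
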