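import Pool.Agent.H560R3.SO.Stm

set_option autoImplicit false

namespace Pool.Agent.H560R3.SO

theorem t_CAT : S_CAT := by
  intro X y hy
  obtain ⟨pos, hp⟩ : ∃ pos : ℕ → ℕ, ∀ j, pos j = ∑ l ∈ Finset.range j, (y l).length :=
    ⟨_, fun _ => rfl⟩
  have hpos1 : ∀ j, pos (j + 1) = pos j + (y j).length := fun j => by
    rw [hp, hp, Finset.sum_range_succ]
  have hlen : ∀ j, 1 ≤ (y j).length := fun j => List.length_pos_iff.2 (hy j)
  have hmono : StrictMono pos := strictMono_nat_of_lt_succ (fun j => by
    rw [hpos1]; have := hlen j; omega)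
  have hpos0 : pos 0 = 0 := by rw [hp]; simp
  have key : ∀ n, ∃ j, pos j ≤ n ∧ n < pos (j + 1) := by
    intro n
    induction n with
    | zero => exact ⟨0, by omega, by have := hpos1 0; have := hlen 0; omega⟩
    | succ n ih =>
      obtain ⟨j, h1, h2⟩ := ih
      by_cases h : n + 1 < pos (j + 1)
      · exact ⟨j, by omega, h⟩
      · exact ⟨j + 1, by omega, by have := hpos1 (j + 1); have := hlen (j + 1); omega⟩
  choose J hJ1 hJ2 using key
  have huniq : ∀ n j, pos j ≤ n → n < pos (j + 1) → J n = j := by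
    intro n j h1 h2
    have a1 := hJ1 n
    have a2 := hJ2 n
    rcases lt_trichotomy (J n) j with h | h | h
    · have := hmono.monotone (show J n + 1 ≤ j by omega); omega
    · exact h
    · have := hmono.monotone (show j + 1 ≤ J n by omega); omega
  refine ⟨fun n => (y (J n)).getD (n - pos (J n)) ((y 0).head (hy 0)), pos, hpos0, hpos1, ?_⟩
  intro j o ho
  have h1 : J (pos j + o) = j := huniq _ _ (by omega) (by rw [hpos1]; omega)
  simp only [h1]
  rw [show pos j + o - pos j = o by omega, List.getD_eq_getElem _ _ ho]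

end Pool.Agent.H560R3.SO
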