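import Pool.Agent.H560R3.SO.Stm

set_option autoImplicit false

namespace Pool.Agent.H560R3.SO

open Ordinal

theorem t_CNF : S_CNF := by
  intro ρ
  induction ρ using WellFoundedLT.induction with
  | ind ρ ih =>
    intro μ hμ
    rcases eq_or_ne ρ 0 with h0 | h0
    · refine ⟨[], List.Pairwise.nil, fun g hg => absurd hg (List.not_mem_nil), ?_⟩
      rw [h0]; simp [psum]
    · have h1 : (ω : Ordinal.{0}) ^ log ω ρ ≤ ρ := opow_log_le_self ω h0
      have h2 : ρ < ω ^ (log ω ρ + 1) := by
        have := lt_opow_succ_log_self one_lt_omega0 ρ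
        rwa [← Order.succ_eq_add_one]
      have h3 : ω ^ log ω ρ + (ρ - ω ^ log ω ρ) = ρ := Ordinal.add_sub_cancel_of_le h1
      have h4 : ρ - ω ^ log ω ρ < ρ := by
        refine lt_of_le_of_ne (Ordinal.sub_le_self _ _) (fun he => ?_)
        rw [he] at h3
        rw [Ordinal.add_eq_right_iff_mul_omega0_le] at h3
        rw [opow_add, opow_one] at h2
        exact absurd h2 (not_lt.2 h3)
      obtain ⟨γ, g1, g2, g3⟩ := ih _ h4 (log ω ρ) (h4.trans h2)
      refine ⟨log ω ρ :: γ, List.pairwise_cons.2 ⟨fun x hx => g2 x hx, g1⟩, ?_, ?_⟩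
      · intro g hg
        have hlog : log ω ρ ≤ μ := by
          have := (opow_lt_opow_iff_right one_lt_omega0).1 (h1.trans_lt hμ)
          exact Order.lt_add_one_iff.1 this
        rcases List.mem_cons.1 hg with h | h
        · rw [h]; exact hlog
        · exact (g2 g h).trans hlog
      · unfold psum at g3 ⊢
        rw [List.map_cons, List.sum_cons, g3, h3]

end Pool.Agent.H560R3.SO
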