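import Pool.Agent.H560R3.SO.Stm

/-!
Assembly of the core object (MP_c20855_lc, Q1).
-/

set_option autoImplicit false

namespace Pool.Agent.H560R3.SO

open Ordinal

namespace CORE

theorem asymm (g : ℕ → ℕ) (n n' : ℕ) (h : LTs g n n') (h' : LTs g n' n) : False := by
  obtain ⟨m, h1, h2⟩ := h
  obtain ⟨m', h1', h2'⟩ := h'
  rcases lt_trichotomy m m' with h | h | h
  · have := h1' m h
    omega
  · subst h
    omega
  · have := h1 m' h
    omega

theorem exPos (s : ℕ → List ℕ) (pos : ℕ → ℕ) (h0 : pos 0 = 0)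
    (h1 : ∀ J, pos (J + 1) = pos J + ((s J).length + 1)) (i : ℕ) :
    ∃ J o, o ≤ (s J).length ∧ i = pos J + o := by
  induction i with
  | zero => exact ⟨0, 0, Nat.zero_le _, by rw [h0]⟩
  | succ i ih =>
    obtain ⟨J, o, h2, h3⟩ := ih
    by_cases h : o + 1 ≤ (s J).length
    · exact ⟨J, o + 1, h, by omega⟩
    · exact ⟨J + 1, 0, Nat.zero_le _, by rw [h1]; omega⟩

theorem enc_last (l : List ℕ) (J : ℕ) (h : l.length < (enc l J).length) :
    (enc l J)[l.length] = 2 * J + 1 := by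
  simp [enc]

theorem enc_mid (l : List ℕ) (J o : ℕ) (ho : o < l.length) (h : o < (enc l J).length) :
    (enc l J)[o] = 2 * l[o] + 2 := by
  have h2 : o < (l.map (fun v => 2 * v + 2)).length := by simpa using ho
  show (l.map (fun v => 2 * v + 2) ++ [2 * J + 1])[o] = _
  rw [List.getElem_append_left h2, List.getElem_map]

end CORE

theorem t_CORE (hLAB : S_LAB) (hENU : S_ENU) (hCAT : S_CAT) (hRK : S_RK) (hEMB : S_EMB) :
    S_CORE := by
  intro μ hμ hcard
  obtain ⟨e, he, hl⟩ := hLAB μ hcard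
  obtain ⟨s, hp, hs⟩ := hENU μ e
  have hlen : ∀ J, (enc (s J) J).length = (s J).length + 1 := fun J => by simp [enc]
  obtain ⟨k, pos, h0, h1, ho⟩ := hCAT ℕ (fun J => enc (s J) J) (fun J => by simp [enc])
  have h1' : ∀ J, pos (J + 1) = pos J + ((s J).length + 1) := fun J => by
    rw [h1 J, hlen]
  have H : Sq μ e s k pos := ⟨he, hl, hp, hs, h0, h1', ho⟩
  obtain ⟨f, hf, hc⟩ := hRK μ e s k pos hμ H
  have hkl : ∀ J, k (pos J + (s J).length) = 2 * J + 1 := by
    intro J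
    have hb : (s J).length < (enc (s J) J).length := by rw [hlen]; omega
    rw [ho J _ hb, CORE.enc_last]
  have hkm : ∀ J o, (h : o < (s J).length) → k (pos J + o) = 2 * (s J)[o] + 2 := by
    intro J o h
    have hb : o < (enc (s J) J).length := by rw [hlen]; omega
    rw [ho J _ hb, CORE.enc_mid _ _ _ h]
  have hlt : ∀ i i', LTs k i i' → f i < f i' := by
    intro i i' h
    rcases eq_or_ne i i' with rfl | hne
    · exact absurd h (fun h => CORE.asymm _ _ _ h h)
    · rcases hc i i' hne with h2 | h2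
      · exact h2.2
      · exact absurd h2.1 (fun h2 => CORE.asymm _ _ _ h h2)
  have hpred : ∀ J, 1 ≤ J → pos (J - 1) + (s (J - 1)).length + 1 = pos J := by
    intro J hJ
    have := h1' (J - 1)
    rw [Nat.sub_add_cancel hJ] at this
    omega
  refine ⟨k, {i | ∃ J, J % 2 = 0 ∧ i = pos J + (s J).length},
    {i | ∃ J, J % 2 = 1 ∧ i = pos J + (s J).length}, f, ?_, ?_, ?_, hf, hc, ?_, ?_⟩
  · intro i
    obtain ⟨J, o, h2, rfl⟩ := CORE.exPos s pos h0 h1' i
    rcases eq_or_lt_of_le h2 with h | h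
    · rw [h, hkl]; omega
    · rw [hkm J o h]; omega
  · rw [Set.disjoint_left]
    rintro i ⟨J, hJ, rfl⟩ ⟨J', hJ', h⟩
    have a1 := hkl J
    have a2 := hkl J'
    rw [h, a2] at a1
    omega
  · rintro i ⟨J, hJ, rfl⟩ i' h
    rw [hkl] at h
    obtain ⟨J', o, h2, rfl⟩ := CORE.exPos s pos h0 h1' i'
    rcases eq_or_lt_of_le h2 with h3 | h3
    · subst h3
      rw [hkl] at h
      have : J' = J := by omega
      rw [this]
    · rw [hkm J' o h3] at h
      omega
  · intro j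
    obtain ⟨g, hg1, hg2⟩ := hEMB μ e s k pos hμ H 1 (j + 2) (by norm_num)
    refine ⟨fun ξ => pos (g ξ - 1) + (s (g ξ - 1)).length, ?_, ?_⟩
    · intro ξ hξ
      obtain ⟨a1, a2⟩ := hg1 ξ hξ
      refine ⟨⟨g ξ - 1, by omega, rfl⟩, ?_⟩
      show j < k (pos (g ξ - 1) + (s (g ξ - 1)).length)
      rw [hkl]
      omega
    · intro ξ η h2 h3
      obtain ⟨a1, a2⟩ := hg1 ξ (h2.trans h3)
      obtain ⟨b1, b2⟩ := hg1 η h3
      show f (pos (g ξ - 1) + (s (g ξ - 1)).length + 1) <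
        f (pos (g η - 1) + (s (g η - 1)).length + 1)
      rw [hpred _ (by omega), hpred _ (by omega)]
      exact hlt _ _ (hg2 ξ η h2 h3)
  · obtain ⟨g, hg1, hg2⟩ := hEMB μ e s k pos hμ H 0 2 (by norm_num)
    refine ⟨fun ξ => pos (g ξ - 1) + (s (g ξ - 1)).length, ?_, ?_⟩
    · intro ξ hξ
      obtain ⟨a1, a2⟩ := hg1 ξ hξ
      exact ⟨g ξ - 1, by omega, rfl⟩
    · intro ξ η h2 h3
      obtain ⟨a1, a2⟩ := hg1 ξ (h2.trans h3)
      obtain ⟨b1, b2⟩ := hg1 η h3
      show f (pos (g ξ - 1) + (s (g ξ - 1)).length + 1) <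
        f (pos (g η - 1) + (s (g η - 1)).length + 1)
      rw [hpred _ (by omega), hpred _ (by omega)]
      exact hlt _ _ (hg2 ξ η h2 h3)

end Pool.Agent.H560R3.SO
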