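import Mathlib

/-!
Order types of well-ordered shift orbits of binary sequences (MP_c20855_lc, Q1): definitions.
-/

set_option autoImplicit false

namespace Pool.Agent.H560R3.SO

open Ordinal

/-- The real number with binary digits given by the `i`-th shift of `b`
(`b 0, b 1, ...` are the digits `b_1, b_2, ...`). -/
noncomputable def sv (b : ℕ → Bool) (i : ℕ) : ℝ :=
  ∑' n : ℕ, (if b (i + n) = true then (1 : ℝ) else 0) / 2 ^ (n + 1)

/-- the set `A(b)` -/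
def shiftSet (b : ℕ → Bool) : Set ℝ := Set.range (sv b)

/-- the set `s` of reals is well-ordered with order type `α` -/
def HasType (s : Set ℝ) (α : Ordinal.{0}) : Prop :=
  ∃ _ : IsWellOrder s (fun x y => x < y), type (fun x y : s => x < y) = α

/-- the suffix of `g` at position `n` is lexicographically smaller than the one at `n'` -/
def LTs {X : Type} [LT X] (g : ℕ → X) (n n' : ℕ) : Prop :=
  ∃ m, (∀ l < m, g (n + l) = g (n' + l)) ∧ g (n + m) < g (n' + m)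

/-- the word `w` occurs in `g` at position `n` -/
def Occ {X : Type} (g : ℕ → X) (n : ℕ) (w : List X) : Prop :=
  ∀ (o : ℕ) (h : o < w.length), g (n + o) = w[o]

/-- the word `1 0^(p-1)` -/
def uw (p : ℕ) : List Bool := true :: List.replicate (p - 1) false

/-- the word `(1 0^(p-1))^k` -/
def up (p k : ℕ) : List Bool := (List.replicate k (uw p)).flatten

/-- the block `(1 0^(p-1))^k 0 1^c` -/
def blk (p k c : ℕ) : List Bool := up p k ++ (false :: List.replicate c true)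

/-- `b` is the concatenation of the blocks `blk p (k i) (c i)`, block `i` starting at `pos i` -/
structure Bin (p : ℕ) (k c : ℕ → ℕ) (b : ℕ → Bool) (pos : ℕ → ℕ) : Prop where
  hp : 1 ≤ p
  hk : ∀ i, 1 ≤ k i
  h0 : pos 0 = 0
  hs : ∀ i, pos (i + 1) = pos i + (p * k i + 1 + c i)
  ho : ∀ i, Occ b (pos i) (blk p (k i) (c i))

/-- the core combinatorial object of exponent `μ` -/
structure IsCore (μ : Ordinal.{0}) (k : ℕ → ℕ) (D0 D1 : Set ℕ) (f : ℕ → Ordinal.{0}) : Prop where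
  hk : ∀ i, 1 ≤ k i
  hd : Disjoint D0 D1
  hu : ∀ i ∈ D1, ∀ i', k i' = k i → i' = i
  hf : ∀ i, f i < ω ^ μ
  hc : ∀ i i', i ≠ i' → (LTs k i i' ∧ f i < f i') ∨ (LTs k i' i ∧ f i' < f i)
  hG0 : ∀ j : ℕ, ∃ G : Ordinal.{0} → ℕ, (∀ ξ < ω ^ μ, G ξ ∈ D0 ∧ j < k (G ξ)) ∧
    ∀ ξ η, ξ < η → η < ω ^ μ → f (G ξ + 1) < f (G η + 1)
  hG1 : ∃ G : Ordinal.{0} → ℕ, (∀ ξ < ω ^ μ, G ξ ∈ D1) ∧
    ∀ ξ η, ξ < η → η < ω ^ μ → f (G ξ + 1) < f (G η + 1)

/-- `ω ^ γ_1 + ... + ω ^ γ_C` -/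
noncomputable def psum (γ : List Ordinal.{0}) : Ordinal.{0} := (γ.map (fun g => ω ^ g)).sum

/-- the choice of the numbers `c i` (`G` is the embedding into `D1`) -/
structure IsC (μ : Ordinal.{0}) (D1 : Set ℕ) (G : Ordinal.{0} → ℕ) (γ : List Ordinal.{0})
    (c : ℕ → ℕ) (X : ℕ → Ordinal.{0}) : Prop where
  h1 : ∀ i, c i ≠ 0 → i ∈ D1 ∧ X i < ω ^ μ ∧ G (X i) = i
  h2 : ∀ i q, q < c i → ∃ h : q < γ.length, X i < ω ^ γ[q]
  h3 : ∀ (q : ℕ) (h : q < γ.length) (ξ : Ordinal.{0}), ξ < ω ^ γ[q] → q < c (G ξ) ∧ X (G ξ) = ξ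

/-- normal form, low kind: at `n` there is `0^z u^j 0 1^(c i)` and then block `i + 1` starts -/
def Low (p : ℕ) (k c : ℕ → ℕ) (b : ℕ → Bool) (pos : ℕ → ℕ) (n z j i : ℕ) : Prop :=
  1 ≤ j ∧ j ≤ k i ∧ z ≤ p ∧ (z = p → j = k i) ∧
    Occ b n (List.replicate z false ++ up p j ++ (false :: List.replicate (c i) true)) ∧
    n + z + p * j + 1 + c i = pos (i + 1)

/-- normal form, high kind: at `n` there is `0^z 1^q` and then block `i + 1` starts -/
def High (p : ℕ) (c : ℕ → ℕ) (b : ℕ → Bool) (pos : ℕ → ℕ) (n z q i : ℕ) : Prop :=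
  1 ≤ q ∧ q ≤ c i ∧ z ≤ p ∧ Occ b n (List.replicate z false ++ List.replicate q true) ∧
    n + z + q = pos (i + 1)

/-- the rank of a position with a low normal form -/
noncomputable def Flow (μ : Ordinal.{0}) (f : ℕ → Ordinal.{0}) (p C : ℕ) (c : ℕ → ℕ)
    (z j i : ℕ) : Ordinal.{0} :=
  if z = p then f i
  else ω ^ (μ + 1) * ((p - 1 - z : ℕ) : Ordinal.{0}) +
    (ω ^ μ * ((j * (C + 1) + c i : ℕ) : Ordinal.{0}) + f (i + 1))

/-- the rank of a position with a high normal form -/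
noncomputable def Fhigh (μ : Ordinal.{0}) (f : ℕ → Ordinal.{0}) (p : ℕ) (γ : List Ordinal.{0})
    (X : ℕ → Ordinal.{0}) (z q i : ℕ) : Ordinal.{0} :=
  if z = 0 then ω ^ (μ + 1) * (p : Ordinal.{0}) + (psum (γ.take (q - 1)) + X i)
  else ω ^ (μ + 1) * ((p - z : ℕ) : Ordinal.{0}) + (ω ^ μ * (q : Ordinal.{0}) + f (i + 1))

/-- the doubling map continuous from the left -/
noncomputable def dbl (x : ℝ) : ℝ := if x ≤ 1 / 2 then 2 * x else 2 * x - 1

/-- an injective orbit of the doubling map in `(0, 1)` avoiding `1 / 2` -/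
structure Orb (a : ℕ → ℝ) : Prop where
  h0 : ∀ i, 0 < a i
  h1 : ∀ i, a i < 1
  h2 : ∀ i, a i ≠ 1 / 2
  hs : ∀ i, a (i + 1) = dbl (a i)
  hi : Function.Injective a

end Pool.Agent.H560R3.SO
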