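import Pool.Agent.H560R3.SO.Stm

/-!
Lower embedding of `ω ^ μ` into full paths (MP_c20855_lc, Q1).
-/

set_option autoImplicit false

namespace Pool.Agent.H560R3.SO

open Ordinal

namespace EMB

theorem lts_of_occ (k : ℕ → ℕ) (n n' : ℕ) (w r r' : List ℕ) (x x' : ℕ)
    (h1 : Occ k n (w ++ x :: r)) (h2 : Occ k n' (w ++ x' :: r')) (hx : x < x') :
    LTs k n n' := by
  refine ⟨w.length, ?_, ?_⟩
  · intro l hl
    have a1 := h1 l (by simp; omega)
    have a2 := h2 l (by simp; omega)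
    rw [a1, a2, List.getElem_append_left hl, List.getElem_append_left hl]
  · have a1 := h1 w.length (by simp)
    have a2 := h2 w.length (by simp)
    rw [a1, a2, List.getElem_append_right (le_refl _), List.getElem_append_right (le_refl _)]
    simpa using hx

theorem enc_cons (l r : List ℕ) (c J : ℕ) :
    enc (l ++ c :: r) J = l.map (fun v => 2 * v + 2) ++ (2 * c + 2) ::
      (r.map (fun v => 2 * v + 2) ++ [2 * J + 1]) := by
  simp [enc]

theorem enc_nil (l : List ℕ) (J : ℕ) :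
    enc l J = l.map (fun v => 2 * v + 2) ++ (2 * J + 1) :: [] := rfl

/-- labels cofinal in `E` -/
theorem labels (e : ℕ → Ordinal.{0}) (E : Ordinal.{0}) (hE : 1 < E)
    (hl : ∀ γ, 1 ≤ γ → γ < E → ∀ N, ∃ v ≥ N, e v = γ) :
    ∃ c : ℕ → ℕ, StrictMono c ∧ (∀ n, e (c n) < E) ∧
      ∀ γ, 1 ≤ γ → γ < E → ∃ n0, ∀ n ≥ n0, γ ≤ e (c n) := by
  classical
  obtain ⟨M, hM0, hM1⟩ : ∃ M : ℕ → Ordinal.{0}, M 0 = 1 ∧
      ∀ n, M (n + 1) = if e n < E then max (M n) (e n) else M n :=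
    ⟨fun n => Nat.rec 1 (fun n x => if e n < E then max x (e n) else x) n, rfl, fun n => rfl⟩
  have hmono : Monotone M := by
    apply monotone_nat_of_le_succ
    intro n
    rw [hM1]
    split_ifs
    · exact le_max_left _ _
    · exact le_rfl
  have h1 : ∀ n, 1 ≤ M n := fun n => by
    have := hmono (Nat.zero_le n)
    rwa [hM0] at this
  have h2 : ∀ n, M n < E := by
    intro n
    induction n with
    | zero => rw [hM0]; exact hE
    | succ n ih =>
      rw [hM1]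
      split_ifs with h
      · exact max_lt ih h
      · exact ih
  choose v hv1 hv2 using fun n N => hl (M n) (h1 n) (h2 n) N
  obtain ⟨c, hc0, hc1⟩ : ∃ c : ℕ → ℕ, c 0 = v 0 0 ∧ ∀ n, c (n + 1) = v (n + 1) (c n + 1) :=
    ⟨fun n => Nat.rec (v 0 0) (fun n x => v (n + 1) (x + 1)) n, rfl, fun n => rfl⟩
  have hc : ∀ n, e (c n) = M n := by
    intro n
    cases n with
    | zero => rw [hc0, hv2]
    | succ n => rw [hc1, hv2]
  refine ⟨c, ?_, ?_, ?_⟩
  · apply strictMono_nat_of_lt_succ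
    intro n
    rw [hc1]
    have := hv1 (n + 1) (c n + 1)
    omega
  · intro n
    rw [hc]
    exact h2 n
  · intro γ g1 g2
    obtain ⟨m, -, hm⟩ := hl γ g1 g2 0
    refine ⟨m + 1, fun n hn => ?_⟩
    rw [hc]
    refine le_trans ?_ (hmono hn)
    rw [hM1, hm, if_pos g2]
    exact le_max_right _ _

theorem cofinal (e : ℕ → Ordinal.{0}) (E : Ordinal.{0}) (hE : 1 < E) (c : ℕ → ℕ)
    (hc : ∀ γ, 1 ≤ γ → γ < E → ∃ n0, ∀ n ≥ n0, γ ≤ e (c n)) (θ : ℕ → Ordinal.{0})
    (h1 : ∀ n, θ (n + 1) = θ n + ω ^ (e (c n))) (ζ : Ordinal.{0}) (hζ : ζ < ω ^ E) :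
    ∃ n, ζ < θ (n + 1) := by
  have key : ∃ γ : Ordinal.{0}, 1 ≤ γ ∧ γ < E ∧ ∃ N : ℕ, ζ < ω ^ γ * (N : Ordinal.{0}) := by
    rcases eq_or_ne ζ 0 with rfl | h0
    · exact ⟨1, le_rfl, hE, 1, by simpa using Ordinal.omega0_pos⟩
    · have a1 : ω ^ (Ordinal.log ω ζ) ≤ ζ := Ordinal.opow_log_le_self ω h0
      have a2 : ζ < ω ^ (Order.succ (Ordinal.log ω ζ)) :=
        Ordinal.lt_opow_succ_log_self Ordinal.one_lt_omega0 ζ
      have a3 : Ordinal.log ω ζ < E :=
        (Ordinal.opow_lt_opow_iff_right Ordinal.one_lt_omega0).1 (lt_of_le_of_lt a1 hζ)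
      rw [Ordinal.opow_succ] at a2
      obtain ⟨N, hN1, hN2⟩ := (Ordinal.lt_mul_iff_of_isSuccLimit Ordinal.isSuccLimit_omega0).1 a2
      obtain ⟨N, rfl⟩ := Ordinal.lt_omega0.1 hN1
      refine ⟨max (Ordinal.log ω ζ) 1, le_max_right _ _, max_lt a3 hE, N, ?_⟩
      refine lt_of_lt_of_le hN2 ?_
      exact mul_le_mul_left (Ordinal.opow_le_opow_right Ordinal.omega0_pos (le_max_left _ _)) _
  obtain ⟨γ, g1, g2, N, hN⟩ := key
  obtain ⟨n0, hn0⟩ := hc γ g1 g2
  have h3 : ∀ N : ℕ, ω ^ γ * (N : Ordinal.{0}) ≤ θ (n0 + N) := by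
    intro N
    induction N with
    | zero => simp
    | succ N ih =>
      rw [← add_assoc, h1, Nat.cast_add, Nat.cast_one, mul_add, mul_one]
      exact add_le_add ih (Ordinal.opow_le_opow_right Ordinal.omega0_pos (hn0 _ (by omega)))
  refine ⟨n0 + N, lt_of_lt_of_le hN (le_trans (h3 N) ?_)⟩
  rw [h1]
  exact le_self_add

theorem main (μ : Ordinal.{0}) (e : ℕ → Ordinal.{0}) (s : ℕ → List ℕ) (k pos : ℕ → ℕ)
    (H : Sq μ e s k pos) (d J0 : ℕ) (hd : d < 2) (E : Ordinal.{0}) :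
    1 ≤ E → E ≤ μ → ∀ π : List ℕ, Pth μ e π → (∀ v ∈ π, E ≤ e v) →
    ∃ g : Ordinal.{0} → ℕ,
      (∀ ξ < ω ^ E, J0 ≤ g ξ ∧ g ξ % 2 = d ∧ ∃ σ, s (g ξ) = π ++ σ) ∧
      ∀ ξ η, ξ < η → η < ω ^ E → LTs k (pos (g ξ)) (pos (g η)) := by
  classical
  induction E using WellFoundedLT.induction with
  | ind E ih =>
  intro hE1 hE2 π hπ hπE
  rcases eq_or_lt_of_le hE1 with hE | hE
  · subst hE
    choose v hv1 hv2 hv3 using fun N => H.hs π hπ N d hd
    obtain ⟨J, hj0, hj1⟩ : ∃ J : ℕ → ℕ, J 0 = v J0 ∧ ∀ n, J (n + 1) = v (J n + 1) :=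
      ⟨fun n => Nat.rec (v J0) (fun n x => v (x + 1)) n, rfl, fun n => rfl⟩
    have hJm : StrictMono J := by
      apply strictMono_nat_of_lt_succ
      intro n
      rw [hj1]
      have := hv1 (J n + 1)
      omega
    have hJ0 : ∀ n, J0 ≤ J n := fun n => by
      have a1 := hJm.monotone (Nat.zero_le n)
      have a2 := hv1 J0
      rw [hj0] at a1
      omega
    have hJs : ∀ n, s (J n) = π := by
      intro n
      cases n with
      | zero => rw [hj0, hv3]
      | succ n => rw [hj1, hv3]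
    have hJd : ∀ n, J n % 2 = d := by
      intro n
      cases n with
      | zero => rw [hj0, hv2]
      | succ n => rw [hj1, hv2]
    refine ⟨fun ξ => J (Cardinal.toNat ξ.card), ?_, ?_⟩
    · intro ξ hξ
      exact ⟨hJ0 _, hJd _, [], by rw [hJs]; simp⟩
    · intro ξ η h1 h2
      rw [opow_one] at h2
      obtain ⟨m, rfl⟩ := Ordinal.lt_omega0.1 h2
      obtain ⟨n, rfl⟩ := Ordinal.lt_omega0.1 (h1.trans h2)
      have hnm : n < m := by exact_mod_cast h1
      simp only [Ordinal.card_nat, Cardinal.toNat_natCast]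
      have o1 := H.ho (J n)
      have o2 := H.ho (J m)
      rw [hJs] at o1 o2
      refine lts_of_occ k _ _ _ _ _ _ _ o1 o2 ?_
      have := hJm hnm
      omega
  · obtain ⟨c, hc1, hc2, hc3⟩ := labels e E hE (fun γ g1 g2 N => H.hl γ g1 (g2.trans_le hE2) N)
    have hpth : ∀ n, Pth μ e (π ++ [c n]) := by
      intro n
      refine ⟨?_, ?_⟩
      · intro v hv
        rw [List.mem_append] at hv
        rcases hv with hv | hv
        · exact hπ.1 v hv
        · rw [List.mem_singleton] at hv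
          subst hv
          exact (hc2 n).trans_le hE2
      · rw [List.pairwise_append]
        refine ⟨hπ.2, List.pairwise_singleton _ _, ?_⟩
        intro v hv w hw
        rw [List.mem_singleton] at hw
        subst hw
        exact (hc2 n).trans_le (hπE v hv)
    have hst : ∀ n, ∃ g : Ordinal.{0} → ℕ,
        (∀ ξ < ω ^ (e (c n)), J0 ≤ g ξ ∧ g ξ % 2 = d ∧ ∃ σ, s (g ξ) = (π ++ [c n]) ++ σ) ∧
        ∀ ξ η, ξ < η → η < ω ^ (e (c n)) → LTs k (pos (g ξ)) (pos (g η)) := by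
      intro n
      refine ih (e (c n)) (hc2 n) (H.he _) ((hc2 n).le.trans hE2) _ (hpth n) ?_
      intro v hv
      rw [List.mem_append] at hv
      rcases hv with hv | hv
      · exact (hc2 n).le.trans (hπE v hv)
      · rw [List.mem_singleton] at hv
        subst hv
        exact le_rfl
    choose g hg1 hg2 using hst
    obtain ⟨θ, ht0, ht1⟩ : ∃ θ : ℕ → Ordinal.{0}, θ 0 = 0 ∧
        ∀ n, θ (n + 1) = θ n + ω ^ (e (c n)) :=
      ⟨fun n => Nat.rec 0 (fun n x => x + ω ^ (e (c n))) n, rfl, fun n => rfl⟩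
    have hcof : ∀ ζ, ζ < ω ^ E → ∃ n, ζ < θ (n + 1) :=
      fun ζ hζ => cofinal e E hE c hc3 θ ht1 ζ hζ
    -- the decomposition
    have hdec : ∀ ζ, ∃ (n : ℕ) (ξ : Ordinal.{0}), ζ < ω ^ E →
        (ζ = θ n + ξ ∧ ξ < ω ^ (e (c n)) ∧ ζ < θ (n + 1) ∧ ∀ m < n, θ (m + 1) ≤ ζ) := by
      intro ζ
      by_cases hζ : ζ < ω ^ E
      · obtain ⟨n, hn1, hn2⟩ : ∃ n, ζ < θ (n + 1) ∧ ∀ m < n, θ (m + 1) ≤ ζ :=
          ⟨Nat.find (hcof ζ hζ), Nat.find_spec (hcof ζ hζ),
            fun m hm => not_lt.1 (Nat.find_min (hcof ζ hζ) hm)⟩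
        have hle : θ n ≤ ζ := by
          rcases Nat.eq_zero_or_pos n with h | h
          · rw [h, ht0]; exact zero_le
          · obtain ⟨m, hm⟩ := Nat.exists_eq_succ_of_ne_zero h.ne'
            rw [hm]
            exact hn2 m (by omega)
        obtain ⟨x, hx⟩ : ∃ x, ζ = θ n + x := ⟨ζ - θ n, (Ordinal.add_sub_cancel_of_le hle).symm⟩
        refine ⟨n, x, fun _ => ⟨hx, ?_, hn1, hn2⟩⟩
        rw [ht1, hx] at hn1
        exact (add_lt_add_iff_left _).1 hn1
      · exact ⟨0, 0, fun h => absurd h hζ⟩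
    choose nn xx hnx using hdec
    refine ⟨fun ζ => g (nn ζ) (xx ζ), ?_, ?_⟩
    · intro ζ hζ
      obtain ⟨h1, h2, h3, h4⟩ := hnx ζ hζ
      obtain ⟨a1, a2, σ, a3⟩ := hg1 (nn ζ) (xx ζ) h2
      exact ⟨a1, a2, c (nn ζ) :: σ, by rw [a3]; simp⟩
    · intro ζ η hlt hη
      obtain ⟨h1, h2, h3, h4⟩ := hnx ζ (hlt.trans hη)
      obtain ⟨b1, b2, b3, b4⟩ := hnx η hη
      have hle : nn ζ ≤ nn η := by
        by_contra hcon
        have := h4 (nn η) (by omega)
        exact absurd (lt_of_lt_of_le b3 this) (not_lt.2 hlt.le)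
      rcases eq_or_lt_of_le hle with he | he
      · have h5 : xx ζ < xx η := by
          have : θ (nn ζ) + xx ζ < θ (nn ζ) + xx η := by
            rw [← h1]
            rw [he, ← b1]
            exact hlt
          exact (add_lt_add_iff_left _).1 this
        have := hg2 (nn ζ) (xx ζ) (xx η) h5 (by rw [he]; exact b2)
        show LTs k (pos (g (nn ζ) (xx ζ))) (pos (g (nn η) (xx η)))
        rw [← he]
        exact this
      · obtain ⟨-, -, σ, a3⟩ := hg1 (nn ζ) (xx ζ) h2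
        obtain ⟨-, -, σ', a3'⟩ := hg1 (nn η) (xx η) b2
        have o1 := H.ho (g (nn ζ) (xx ζ))
        have o2 := H.ho (g (nn η) (xx η))
        rw [a3, List.append_assoc, List.singleton_append, enc_cons] at o1
        rw [a3', List.append_assoc, List.singleton_append, enc_cons] at o2
        refine lts_of_occ k _ _ _ _ _ _ _ o1 o2 ?_
        have := hc1 he
        omega

end EMB

theorem t_EMB : S_EMB := by
  intro μ e s k pos hμ H d J0 hd
  obtain ⟨g, hg1, hg2⟩ := EMB.main μ e s k pos H d J0 hd μ hμ le_rfl [] 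
    ⟨by simp, List.Pairwise.nil⟩ (by simp)
  exact ⟨g, fun ξ hξ => ⟨(hg1 ξ hξ).1, (hg1 ξ hξ).2.1⟩, hg2⟩

end Pool.Agent.H560R3.SO
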