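import Pool.Agent.H560R3.SO.Stm

set_option autoImplicit false

namespace Pool.Agent.H560R3.SO

open Ordinal

theorem t_ENU : S_ENU := by
  classical
  intro μ e
  let r : ℕ → List ℕ := fun J =>
    ((Encodable.decode (Nat.unpair (J / 2)).1 : Option (List ℕ))).getD []
  refine ⟨fun J => if Pth μ e (r J) then r J else [], ?_, ?_⟩
  · intro J
    by_cases h : Pth μ e (r J)
    · simp only [if_pos h]
      exact h
    · simp only [if_neg h]
      exact ⟨by simp, by simp⟩
  · intro π hπ J0 d hd
    refine ⟨2 * Nat.pair (Encodable.encode π) J0 + d, ?_, ?_, ?_⟩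
    · have := Nat.right_le_pair (Encodable.encode π) J0
      omega
    · omega
    · have h1 : (2 * Nat.pair (Encodable.encode π) J0 + d) / 2
          = Nat.pair (Encodable.encode π) J0 := by omega
      have h2 : r (2 * Nat.pair (Encodable.encode π) J0 + d) = π := by
        simp only [r, h1, Nat.unpair_pair, Encodable.encodek, Option.getD_some]
      simp only [h2, if_pos hπ]

end Pool.Agent.H560R3.SO
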