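import Pool.Agent.H560R3.SO.Stm

/-!
Finite types (MP_c20855_lc, Q1).
-/

set_option autoImplicit false

namespace Pool.Agent.H560R3.SO

open Ordinal

namespace FINB

theorem summable_sv (b : ℕ → Bool) (i : ℕ) :
    Summable (fun n : ℕ => (if b (i + n) = true then (1 : ℝ) else 0) / 2 ^ (n + 1)) := by
  refine Summable.of_nonneg_of_le (fun n => ?_) (fun n => ?_) (summable_geometric_two)
  · split_ifs <;> positivity
  · have h1 : (if b (i + n) = true then (1 : ℝ) else 0) ≤ 1 := by split_ifs <;> norm_num
    have h2 : (if b (i + n) = true then (1 : ℝ) else 0) / 2 ^ (n + 1) ≤ 1 / 2 ^ (n + 1) := by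
      gcongr
    refine h2.trans ?_
    rw [one_div_pow]
    apply one_div_le_one_div_of_le (by positivity)
    rw [pow_succ]
    have : (0 : ℝ) < 2 ^ n := by positivity
    linarith

theorem sv_rec (b : ℕ → Bool) (i : ℕ) :
    sv b i = (if b i = true then (1 : ℝ) else 0) / 2 + sv b (i + 1) / 2 := by
  unfold sv
  rw [(summable_sv b i).tsum_eq_zero_add, ← tsum_div_const]
  congr 1
  · simp
  · refine tsum_congr fun n => ?_
    rw [show i + (n + 1) = i + 1 + n by ring, div_div, ← pow_succ]

theorem sv_one (b : ℕ → Bool) (i : ℕ) (h : ∀ m, i ≤ m → b m = true) : sv b i = 1 := by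
  unfold sv
  have h1 : ∀ n : ℕ, (if b (i + n) = true then (1 : ℝ) else 0) / 2 ^ (n + 1) =
      1 / 2 / 2 ^ n := by
    intro n
    rw [h (i + n) (by omega), if_pos rfl, div_div, pow_succ']
  rw [tsum_congr h1, tsum_geometric_two']

theorem hasType_finite (s : Set ℝ) (t : Finset ℝ) (h : s = (t : Set ℝ)) :
    HasType s ((t.card : ℕ) : Ordinal.{0}) := by
  subst h
  have hw : IsWellOrder (↥(t : Set ℝ)) (fun x y => x < y) := by
    have h1 : Finite (↥(t : Set ℝ)) := t.finite_toSet
    have h2 : WellFoundedLT (↥(t : Set ℝ)) := Finite.to_wellFoundedLT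
    infer_instance
  refine ⟨hw, ?_⟩
  rw [Ordinal.type_fintype]
  simp

end FINB

theorem t_FINB : S_FINB := by
  intro n hn
  refine ⟨fun m => decide (n - 1 ≤ m), ?_⟩
  set b : ℕ → Bool := fun m => decide (n - 1 ≤ m) with hb
  have h1 : ∀ i, n - 1 ≤ i → sv b i = 1 := fun i hi =>
    FINB.sv_one b i fun m hm => by simp only [hb, decide_eq_true_eq]; omega
  have h2 : ∀ j, j ≤ n - 1 → sv b (n - 1 - j) = (1 / 2) ^ j := by
    intro j
    induction j with
    | zero => intro _; rw [Nat.sub_zero, h1 _ le_rfl, pow_zero]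
    | succ j ih =>
      intro hj
      rw [FINB.sv_rec, show n - 1 - (j + 1) + 1 = n - 1 - j by omega, ih (by omega)]
      have h3 : b (n - 1 - (j + 1)) = false := by
        simp only [hb, decide_eq_false_iff_not]
        omega
      rw [h3, if_neg (by simp), pow_succ]
      ring
  have h3 : shiftSet b = (((Finset.range n).image (fun j => ((1 : ℝ) / 2) ^ j) : Finset ℝ) :
      Set ℝ) := by
    ext x
    simp only [shiftSet, Set.mem_range, Finset.coe_image, Set.mem_image, Finset.mem_coe,
      Finset.mem_range]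
    constructor
    · rintro ⟨i, rfl⟩
      by_cases hi : n - 1 ≤ i
      · exact ⟨0, by omega, by rw [h1 i hi, pow_zero]⟩
      · refine ⟨n - 1 - i, by omega, ?_⟩
        rw [← h2 (n - 1 - i) (by omega), show n - 1 - (n - 1 - i) = i by omega]
    · rintro ⟨j, hj, rfl⟩
      exact ⟨n - 1 - j, h2 j (by omega)⟩
  have h4 : ((Finset.range n).image (fun j => ((1 : ℝ) / 2) ^ j)).card = n := by
    rw [Finset.card_image_of_injective, Finset.card_range]
    exact pow_right_injective₀ (by norm_num) (by norm_num)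
  have h5 := FINB.hasType_finite _ _ h3
  rw [h4] at h5
  exact h5

end Pool.Agent.H560R3.SO
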