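import Pool.Agent.H560R3.SO.BD

/-! Comparison of two high normal forms. -/

set_option autoImplicit false

namespace Pool.Agent.H560R3.SO

open Ordinal

namespace HH

theorem lts_shift {g : ℕ → Bool} {n n' t : ℕ} (h : ∀ l < t, g (n + l) = g (n' + l))
    (h2 : LTs g (n + t) (n' + t)) : LTs g n n' := by
  obtain ⟨m, hm, hlt⟩ := h2
  refine ⟨t + m, ?_, ?_⟩
  · intro l hl
    by_cases hlt' : l < t
    · exact h l hlt'
    · have := hm (l - t) (by omega)
      rw [show n + t + (l - t) = n + l by omega, show n' + t + (l - t) = n' + l by omega] at this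
      exact this
  · rw [show n + (t + m) = n + t + m by omega, show n' + (t + m) = n' + t + m by omega]
    exact hlt

theorem high_zero {p : ℕ} {c : ℕ → ℕ} {b : ℕ → Bool} {pos : ℕ → ℕ} {n z q i : ℕ}
    (h : High p c b pos n z q i) {o : ℕ} (ho : o < z) : b (n + o) = false := by
  obtain ⟨-, -, -, hocc, -⟩ := h
  have hl : o < (List.replicate z false ++ List.replicate q true).length := by
    simp; omega
  rw [hocc o hl, List.getElem_append_left (by simpa using ho)]
  simp

theorem high_one {p : ℕ} {c : ℕ → ℕ} {b : ℕ → Bool} {pos : ℕ → ℕ} {n z q i : ℕ}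
    (h : High p c b pos n z q i) {o : ℕ} (ho : z ≤ o) (ho2 : o < z + q) : b (n + o) = true := by
  obtain ⟨-, -, -, hocc, -⟩ := h
  have hl : o < (List.replicate z false ++ List.replicate q true).length := by
    simp; omega
  rw [hocc o hl, List.getElem_append_right (by simpa using ho)]
  simp

theorem blk_zero {p : ℕ} {k c : ℕ → ℕ} {b : ℕ → Bool} {pos : ℕ → ℕ}
    (hb : Bin p k c b pos) (i : ℕ) : b (pos i) = true := by
  have hk := hb.hk i
  obtain ⟨K, hK⟩ : ∃ K, k i = K + 1 := ⟨k i - 1, by omega⟩
  have ho := hb.ho i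
  have hl : 0 < (blk p (k i) (c i)).length := by
    simp [blk]
  have := ho 0 hl
  rw [Nat.add_zero] at this
  rw [this]
  have e : blk p (k i) (c i) = true :: (List.replicate (p - 1) false ++
      ((List.replicate K (uw p)).flatten ++ (false :: List.replicate (c i) true))) := by
    rw [hK]
    simp [blk, up, List.replicate_succ, uw]
  simp only [e]
  rfl

theorem blk_one {p : ℕ} {k c : ℕ → ℕ} {b : ℕ → Bool} {pos : ℕ → ℕ}
    (hb : Bin p k c b pos) (hp : 2 ≤ p) (i : ℕ) : b (pos i + 1) = false := by
  have hk := hb.hk i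
  obtain ⟨K, hK⟩ : ∃ K, k i = K + 1 := ⟨k i - 1, by omega⟩
  obtain ⟨P, hP⟩ : ∃ P, p - 1 = P + 1 := ⟨p - 2, by omega⟩
  have ho := hb.ho i
  have e : blk p (k i) (c i) = true :: false :: (List.replicate P false ++
      ((List.replicate K (uw p)).flatten ++ (false :: List.replicate (c i) true))) := by
    rw [hK]
    simp [blk, up, List.replicate_succ, uw, hP]
  have hl : 1 < (blk p (k i) (c i)).length := by
    rw [e]; simp
  rw [ho 1 hl]
  simp only [e]
  rfl

/-- the two conclusions for ordered pairs -/
theorem case_z {μ : Ordinal.{0}} {p : ℕ} {k c : ℕ → ℕ} {b : ℕ → Bool} {pos : ℕ → ℕ}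
    {f : ℕ → Ordinal.{0}} {γ : List Ordinal.{0}} {X : ℕ → Ordinal.{0}}
    (hc : Ctx μ p k c b pos f γ X) {n z q i n' z' q' i' : ℕ}
    (h : High p c b pos n z q i) (h' : High p c b pos n' z' q' i') (hz : z' < z) :
    LTs b n n' ∧ Fhigh μ f p γ X z q i < Fhigh μ f p γ X z' q' i' := by
  constructor
  · refine ⟨z', ?_, ?_⟩
    · intro l hl
      rw [high_zero h (by omega), high_zero h' hl]
    · rw [high_zero h hz, high_one h' le_rfl (by have := h'.1; omega)]
      decide
  · have hzp : z ≤ p := h.2.2.1
    have hz0 : z ≠ 0 := by omega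
    have h1 : Fhigh μ f p γ X z q i < ω ^ (μ + 1) * ((p - z' : ℕ) : Ordinal.{0}) := by
      unfold Fhigh
      rw [if_neg hz0]
      exact BD.mul_add_lt (BD.add_lt_W _ (hc.hf (i + 1))) (by omega)
    refine h1.trans_le ?_
    unfold Fhigh
    split_ifs with h0
    · subst h0
      exact le_self_add
    · exact le_self_add

theorem case_q {μ : Ordinal.{0}} {p : ℕ} {k c : ℕ → ℕ} {b : ℕ → Bool} {pos : ℕ → ℕ}
    {f : ℕ → Ordinal.{0}} {γ : List Ordinal.{0}} {X : ℕ → Ordinal.{0}}
    (hc : Ctx μ p k c b pos f γ X) {n z q i n' q' i' : ℕ}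
    (h : High p c b pos n z q i) (h' : High p c b pos n' z q' i') (hq : q < q') :
    LTs b n n' ∧ Fhigh μ f p γ X z q i < Fhigh μ f p γ X z q' i' := by
  have hp : 2 ≤ p := by
    by_contra hcon
    have hp1 : p = 1 := by have := hc.hb.hp; omega
    have h1 := hc.h1 hp1
    have h2 := hc.hC i
    rw [h1] at h2
    have h3 := h.1
    have h4 := h.2.1
    simp at h2
    omega
  constructor
  · refine ⟨z + q + 1, ?_, ?_⟩
    · intro l hl
      by_cases hlz : l < z
      · rw [high_zero h hlz, high_zero h' hlz]
      · by_cases hlq : l < z + q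
        · rw [high_one h (by omega) hlq, high_one h' (by omega) (by omega)]
        · have hl' : l = z + q := by omega
          subst hl'
          rw [high_one h' (by omega) (by omega), show n + (z + q) = pos (i + 1) by
            have := h.2.2.2.2; omega]
          exact blk_zero hc.hb (i + 1)
    · have e1 : b (n + (z + q + 1)) = false := by
        rw [show n + (z + q + 1) = pos (i + 1) + 1 by have := h.2.2.2.2; omega]
        exact blk_one hc.hb hp (i + 1)
      have e2 : b (n' + (z + q + 1)) = true := by
        by_cases hq1 : q + 1 < q'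
        · exact high_one h' (by omega) (by omega)
        · rw [show n' + (z + q + 1) = pos (i' + 1) by have := h'.2.2.2.2; omega]
          exact blk_zero hc.hb (i' + 1)
      rw [e1, e2]
      decide
  · unfold Fhigh
    split_ifs with h0
    · apply (add_lt_add_iff_left _).mpr
      exact (BD.psum_lt hc h.1 h.2.1).trans_le
        ((BD.psum_take_le γ (by omega)).trans le_self_add)
    · apply (add_lt_add_iff_left _).mpr
      exact (BD.mul_add_lt (hc.hf (i + 1)) hq).trans_le le_self_add

theorem case_i {μ : Ordinal.{0}} {p : ℕ} {k c : ℕ → ℕ} {b : ℕ → Bool} {pos : ℕ → ℕ}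
    {f : ℕ → Ordinal.{0}} {γ : List Ordinal.{0}} {X : ℕ → Ordinal.{0}}
    (hc : Ctx μ p k c b pos f γ X) {n z q i n' i' : ℕ}
    (h : High p c b pos n z q i) (h' : High p c b pos n' z q i')
    (hi : LTs b (pos (i + 1)) (pos (i' + 1)) ∧ f (i + 1) < f (i' + 1)) :
    LTs b n n' ∧ Fhigh μ f p γ X z q i < Fhigh μ f p γ X z q i' := by
  constructor
  · apply lts_shift (t := z + q)
    · intro l hl
      by_cases hlz : l < z
      · rw [high_zero h hlz, high_zero h' hlz]
      · rw [high_one h (by omega) hl, high_one h' (by omega) hl]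
    · rw [show n + (z + q) = pos (i + 1) by have := h.2.2.2.2; omega,
        show n' + (z + q) = pos (i' + 1) by have := h'.2.2.2.2; omega]
      exact hi.1
  · unfold Fhigh
    split_ifs with h0
    · apply (add_lt_add_iff_left _).mpr
      apply (add_lt_add_iff_left _).mpr
      apply hc.hXm i i' _ _ hi.2
      · have := h.1; have := h.2.1; omega
      · have := h'.1; have := h'.2.1; omega
    · apply (add_lt_add_iff_left _).mpr
      apply (add_lt_add_iff_left _).mpr
      exact hi.2

end HH

theorem t_HH : S_HH := by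
  intro μ p k c b pos f γ X hc n z q i n' z' q' i' h h' hn
  rcases lt_trichotomy z z' with hz | hz | hz
  · exact Or.inr (HH.case_z hc h' h hz)
  · subst hz
    rcases lt_trichotomy q q' with hq | hq | hq
    · exact Or.inl (HH.case_q hc h h' hq)
    · subst hq
      have hi : i ≠ i' := by
        rintro rfl
        apply hn
        have h1 := h.2.2.2.2
        have h2 := h'.2.2.2.2
        omega
      rcases hc.ht (i + 1) (i' + 1) (by omega) with ht | ht
      · exact Or.inl (HH.case_i hc h h' ht)
      · exact Or.inr (HH.case_i hc h' h ht)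
    · exact Or.inr (HH.case_q hc h' h hq)
  · exact Or.inl (HH.case_z hc h h' hz)

end Pool.Agent.H560R3.SO
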