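import Pool.Agent.H560R3.SO.Stm

/-! A countable set of reals has a countable order type. -/

set_option autoImplicit false

namespace Pool.Agent.H560R3.SO

open Ordinal

theorem t_HTcount : S_HTcount := by
  rintro s α hs ⟨hw, rfl⟩
  rw [Ordinal.card_type]
  have : Countable s := hs.to_subtype
  exact Cardinal.mk_le_aleph0

end Pool.Agent.H560R3.SO
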