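import Pool.Agent.H560R3.SO.Stm

/-!
Initial segments realize all smaller ordinals (task HTinit of helper560, by helper632).
-/

set_option autoImplicit false

namespace Pool.Agent.H560R3.SO

open Ordinal

theorem t_HTinit : S_HTinit := by
  intro s α β hs hβ
  obtain ⟨hw, ht⟩ := hs
  have hβ' : β < type (fun x y : s => x < y) := by rw [ht]; exact hβ
  obtain ⟨a, ha⟩ := Ordinal.typein_surj (fun x y : s => x < y) hβ'
  refine ⟨a.1, a.2, ?_⟩
  let f : (s ∩ Set.Iio a.1 : Set ℝ) → {y : s | y < a} := fun x =>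
    ⟨⟨x.1, x.2.1⟩, x.2.2⟩
  let e : (s ∩ Set.Iio a.1 : Set ℝ) ≃ {y : s | y < a} :=
    { toFun := f
      invFun := fun y => ⟨y.1.1, y.1.2, y.2⟩
      left_inv := fun x => rfl
      right_inv := fun y => rfl }
  let r : (fun x y : (s ∩ Set.Iio a.1 : Set ℝ) => x < y) ≃r
      Subrel (fun x y : s => x < y) {y : s | y < a} :=
    ⟨e, by intro x y; rfl⟩
  have hwo : IsWellOrder (s ∩ Set.Iio a.1 : Set ℝ) (fun x y => x < y) :=
    r.toRelEmbedding.isWellOrder
  refine ⟨hwo, ?_⟩
  rw [← ha, ← Ordinal.type_subrel]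
  exact RelIso.ordinalType_congr r

end Pool.Agent.H560R3.SO
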