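import Pool.Agent.H560R3.SO.Stm

open Ordinal

namespace Pool.Agent.H560R3.SO

theorem t_HTmap : S_HTmap := by
  intro s t α β g hs ht hg hm
  obtain ⟨ws, rfl⟩ := hs
  obtain ⟨wt, rfl⟩ := ht
  haveI := ws
  haveI := wt
  refine Ordinal.type_le_iff'.mpr ⟨?_⟩
  refine ⟨⟨fun x => ⟨g x.1, hm x.2⟩, ?_⟩, ?_⟩
  · intro x y hxy
    have h : g x.1 = g y.1 := congrArg Subtype.val hxy
    exact Subtype.ext (hg.injOn x.2 y.2 h)
  · intro x y
    show g x.1 < g y.1 ↔ x < y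
    rw [hg.lt_iff_lt x.2 y.2]
    rfl

end Pool.Agent.H560R3.SO
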