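import Pool.Agent.H560R3.SO.Stm

open Ordinal

namespace Pool.Agent.H560R3.SO

namespace HTsplit

theorem wo_sub (s t : Set ℝ) (h : t ⊆ s) (ws : IsWellOrder s (fun x y => x < y)) :
    IsWellOrder t (fun x y => x < y) := by
  haveI := ws
  let e : (fun x y : t => x < y) ↪r (fun x y : s => x < y) :=
    ⟨⟨fun x => ⟨x.1, h x.2⟩, fun x y hxy => Subtype.ext (congrArg (fun z : s => z.1) hxy)⟩,
      fun {x y} => Iff.rfl⟩
  exact e.isWellOrder

end HTsplit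

theorem t_HTsplit : S_HTsplit := by
  intro s c α hs
  obtain ⟨ws, rfl⟩ := hs
  haveI := ws
  have w1 := HTsplit.wo_sub s (s ∩ Set.Iio c) Set.inter_subset_left ws
  have w2 := HTsplit.wo_sub s (s ∩ Set.Ici c) Set.inter_subset_left ws
  haveI := w1
  haveI := w2
  refine ⟨_, _, ⟨w1, rfl⟩, ⟨w2, rfl⟩, ?_⟩
  rw [← Ordinal.type_sum_lex]
  symm
  classical
  refine RelIso.ordinal_type_eq ⟨⟨Sum.elim (fun x => ⟨x.1, x.2.1⟩) (fun x => ⟨x.1, x.2.1⟩),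
    fun x => if h : x.1 < c then Sum.inl ⟨x.1, x.2, h⟩ else Sum.inr ⟨x.1, x.2, not_lt.mp h⟩,
    ?_, ?_⟩, ?_⟩
  · rintro (⟨x, hx, hx'⟩ | ⟨x, hx, hx'⟩)
    · have h' : x < c := hx'
      simp [h']
    · have h' : ¬ x < c := not_lt.mpr hx'
      simp [h']
  · rintro ⟨x, hx⟩
    by_cases h : x < c
    · simp [h]
    · simp [h]
  · rintro (⟨x, hx, hx'⟩ | ⟨x, hx, hx'⟩) (⟨y, hy, hy'⟩ | ⟨y, hy, hy'⟩)
    · simp
    · have h1 : x < c := hx'
      have h2 : c ≤ y := hy'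
      simp [lt_of_lt_of_le h1 h2]
    · have h1 : c ≤ x := hx'
      have h2 : y < c := hy'
      simp [le_of_lt (lt_of_lt_of_le h2 h1)]
    · simp

end Pool.Agent.H560R3.SO
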