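import Pool.Agent.H560R3.SO.Stm

set_option autoImplicit false

namespace Pool.Agent.H560R3.SO

open Ordinal

theorem t_HTsub : S_HTsub := by
  intro s t α hts hs
  obtain ⟨hw, hα⟩ := hs
  have inc : ((fun x y : t => x < y) ↪r (fun x y : s => x < y)) :=
    ⟨⟨Set.inclusion hts, Set.inclusion_injective hts⟩, Iff.rfl⟩
  have hw' : IsWellOrder t (fun x y => x < y) := inc.isWellOrder
  refine ⟨type (fun x y : t => x < y), ?_, hw', rfl⟩
  subst hα
  exact Ordinal.type_le_iff'.2 ⟨inc⟩

end Pool.Agent.H560R3.SO
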