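import Pool.Agent.H560R3.SO.Stm

/-! HTsum: an `ω`-sum of pieces of constant type `τ` has type `τ * ω`. -/

set_option autoImplicit false

namespace Pool.Agent.H560R3.SO

open Ordinal

namespace HTsum

/-- every point of `s` lies in one of the intervals -/
lemma exists_idx (c : ℕ → ℝ) (p x : ℝ) (h2 : ∀ x < p, ∃ n, x < c n) (hx0 : c 0 ≤ x) (hx : x < p) :
    ∃ n, c n ≤ x ∧ x < c (n + 1) := by
  classical
  obtain ⟨n, hn⟩ := h2 x hx
  have hex : ∃ n, x < c n := ⟨n, hn⟩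
  have h3 := Nat.find_spec hex
  have h4 : Nat.find hex ≠ 0 := by
    intro h0
    rw [h0] at h3
    exact absurd h3 (not_lt.2 hx0)
  obtain ⟨m, hm⟩ := Nat.exists_eq_succ_of_ne_zero h4
  refine ⟨m, ?_, ?_⟩
  · exact not_lt.1 (Nat.find_min hex (by omega))
  · rw [hm] at h3
    exact h3

end HTsum

theorem t_HTsum : S_HTsum := by
  intro s c p τ hc h1 h2 hs hP
  classical
  choose hW hT using hP
  have hE : ∀ n : ℕ, Nonempty ((fun x y : ↥(s ∩ Set.Ico (c 0) (c (0 + 1))) => x < y) ≃r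
      (fun x y : ↥(s ∩ Set.Ico (c n) (c (n + 1))) => x < y)) := by
    intro n
    haveI := hW n
    haveI := hW 0
    exact Ordinal.type_eq.1 ((hT 0).trans (hT n).symm)
  have e := fun n => Classical.choice (hE n)
  haveI := hW 0
  let f : ℕ × ↥(s ∩ Set.Ico (c 0) (c (0 + 1))) → s := fun q => ⟨(e q.1 q.2).1, (e q.1 q.2).2.1⟩
  have hmono : ∀ a b, Prod.Lex (fun x y : ℕ => x < y)
      (fun x y : ↥(s ∩ Set.Ico (c 0) (c (0 + 1))) => x < y) a b → f a < f b := by
    intro a b hab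
    rcases Prod.lex_def.1 hab with h | ⟨h, h'⟩
    · have k1 : (f a).1 < c (a.1 + 1) := (e a.1 a.2).2.2.2
      have k2 : c b.1 ≤ (f b).1 := (e b.1 b.2).2.2.1
      have k3 : c (a.1 + 1) ≤ c b.1 := hc.monotone h
      exact Subtype.coe_lt_coe.1 (lt_of_lt_of_le k1 (k3.trans k2))
    · obtain ⟨a1, a2⟩ := a
      obtain ⟨b1, b2⟩ := b
      simp only at h h'
      subst h
      exact (e a1).map_rel_iff.2 h'
  let F : Prod.Lex (fun x y : ℕ => x < y)
      (fun x y : ↥(s ∩ Set.Ico (c 0) (c (0 + 1))) => x < y) ↪r (fun x y : s => x < y) :=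
    RelEmbedding.ofMonotone f hmono
  have hsurj : Function.Surjective F := by
    intro x
    have hx := hs x.2
    obtain ⟨n, hn1, hn2⟩ := HTsum.exists_idx c p x.1 h2 hx.1 hx.2
    obtain ⟨y, hy⟩ := (e n).surjective ⟨x.1, x.2, hn1, hn2⟩
    refine ⟨(n, y), ?_⟩
    apply Subtype.ext
    change (e n y).1 = x.1
    rw [hy]
  let I := RelIso.ofSurjective F hsurj
  haveI hwo : IsWellOrder s (fun x y => x < y) := I.symm.toRelEmbedding.isWellOrder
  refine ⟨hwo, ?_⟩
  rw [← Ordinal.type_eq.2 ⟨I⟩, Ordinal.type_prod_lex]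
  congr 1
  · exact hT 0
  · exact Ordinal.type_nat_lt
end Pool.Agent.H560R3.SO
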