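import Pool.Agent.H560R3.SO.Stm

/-! Labels: every ordinal in `[1, mu)` infinitely often. -/

set_option autoImplicit false

namespace Pool.Agent.H560R3.SO

open Ordinal

theorem LAB.countable_Iio (μ : Ordinal.{0}) (h : μ.card ≤ Cardinal.aleph0) :
    (Set.Iio μ).Countable := by
  rw [← Set.countable_coe_iff, ← Cardinal.mk_le_aleph0_iff, Cardinal.mk_Iio_ordinal]
  have := Cardinal.lift_le.{1}.mpr h
  simpa using this

theorem t_LAB : S_LAB := by
  intro μ hμ
  have hc : ({γ : Ordinal.{0} | 1 ≤ γ ∧ γ < μ}).Countable :=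
    (LAB.countable_Iio μ hμ).mono (fun x hx => hx.2)
  rcases Set.eq_empty_or_nonempty {γ : Ordinal.{0} | 1 ≤ γ ∧ γ < μ} with he | hne
  · refine ⟨fun _ => 1, fun _ => le_rfl, ?_⟩
    intro γ h1 h2
    exfalso
    have : γ ∈ ({γ : Ordinal.{0} | 1 ≤ γ ∧ γ < μ} : Set Ordinal.{0}) := ⟨h1, h2⟩
    rw [he] at this
    exact this
  · obtain ⟨q, hq⟩ := hc.exists_eq_range hne
    refine ⟨fun v => q (Nat.unpair v).1, ?_, ?_⟩
    · intro v
      have : q (Nat.unpair v).1 ∈ ({γ : Ordinal.{0} | 1 ≤ γ ∧ γ < μ} : Set Ordinal.{0}) := by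
        rw [hq]; exact ⟨_, rfl⟩
      exact this.1
    · intro γ h1 h2 N
      have : γ ∈ Set.range q := by
        rw [← hq]; exact ⟨h1, h2⟩
      obtain ⟨n, hn⟩ := this
      refine ⟨Nat.pair n N, Nat.right_le_pair n N, ?_⟩
      simp only [Nat.unpair_pair]
      exact hn

end Pool.Agent.H560R3.SO
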