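import Pool.Agent.H560R3.SO.Stm

/-!
Comparison of a low and a high normal form.
-/

set_option autoImplicit false

namespace Pool.Agent.H560R3.SO

open Ordinal

namespace LH

theorem pos_w (μ : Ordinal.{0}) : (0 : Ordinal.{0}) < ω ^ μ := opow_pos μ omega0_pos

theorem pw_succ (μ : Ordinal.{0}) : ω ^ μ * ω = ω ^ (μ + 1) := by rw [← opow_succ]; rfl

theorem small (μ : Ordinal.{0}) (N : ℕ) (x : Ordinal.{0}) (hx : x < ω ^ μ) :
    ω ^ μ * (N : Ordinal.{0}) + x < ω ^ μ * ((N + 1 : ℕ) : Ordinal.{0}) := by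
  calc ω ^ μ * (N : Ordinal.{0}) + x < ω ^ μ * (N : Ordinal.{0}) + ω ^ μ := by gcongr
    _ = ω ^ μ * ((N + 1 : ℕ) : Ordinal.{0}) := by push_cast; rw [mul_add, mul_one]

theorem small' (μ : Ordinal.{0}) (N : ℕ) (x : Ordinal.{0}) (hx : x < ω ^ μ) :
    ω ^ μ * (N : Ordinal.{0}) + x < ω ^ (μ + 1) := by
  refine (small μ N x hx).trans ?_
  rw [← pw_succ]
  exact mul_lt_mul_of_pos_left (natCast_lt_omega0 (N + 1)) (pos_w μ)

theorem mul_le (a : Ordinal.{0}) {m n : ℕ} (h : m ≤ n) :
    a * (m : Ordinal.{0}) ≤ a * (n : Ordinal.{0}) := by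
  gcongr

theorem w_le (μ : Ordinal.{0}) {n : ℕ} (h : 1 ≤ n) :
    ω ^ μ ≤ ω ^ μ * (n : Ordinal.{0}) := by
  have := mul_le (ω ^ μ) h
  simpa using this

theorem w_lt (μ : Ordinal.{0}) : ω ^ μ < ω ^ (μ + 1) := by
  have := small' μ 1 0 (pos_w μ)
  simpa using this

/-- the low rank below `z < p` -/
theorem flow_lt (μ : Ordinal.{0}) (f : ℕ → Ordinal.{0}) (p C : ℕ) (c : ℕ → ℕ) (z j i : ℕ)
    (hf : ∀ i, f i < ω ^ μ) (hz : z < p) :
    Flow μ f p C c z j i < ω ^ (μ + 1) * ((p - z : ℕ) : Ordinal.{0}) := by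
  unfold Flow
  rw [if_neg hz.ne]
  have h1 := small' μ (j * (C + 1) + c i) (f (i + 1)) (hf _)
  have h2 : p - z = (p - 1 - z) + 1 := by omega
  calc ω ^ (μ + 1) * ((p - 1 - z : ℕ) : Ordinal.{0}) +
      (ω ^ μ * ((j * (C + 1) + c i : ℕ) : Ordinal.{0}) + f (i + 1))
      < ω ^ (μ + 1) * ((p - 1 - z : ℕ) : Ordinal.{0}) + ω ^ (μ + 1) := by gcongr
    _ = ω ^ (μ + 1) * ((p - z : ℕ) : Ordinal.{0}) := by
        rw [h2]; push_cast; rw [mul_add, mul_one]

theorem flow_ge (μ : Ordinal.{0}) (f : ℕ → Ordinal.{0}) (p C : ℕ) (c : ℕ → ℕ) (z j i : ℕ)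
    (hz : z < p) :
    ω ^ (μ + 1) * ((p - 1 - z : ℕ) : Ordinal.{0}) ≤ Flow μ f p C c z j i := by
  unfold Flow
  rw [if_neg hz.ne]
  exact le_add_right le_rfl

theorem fhigh_ge (μ : Ordinal.{0}) (f : ℕ → Ordinal.{0}) (p : ℕ) (γ : List Ordinal.{0})
    (X : ℕ → Ordinal.{0}) (z q i : ℕ) :
    ω ^ (μ + 1) * ((p - z : ℕ) : Ordinal.{0}) ≤ Fhigh μ f p γ X z q i := by
  unfold Fhigh
  split_ifs with h
  · subst h
    exact le_add_right le_rfl
  · exact le_add_right le_rfl

theorem fhigh_lt (μ : Ordinal.{0}) (f : ℕ → Ordinal.{0}) (p : ℕ) (γ : List Ordinal.{0})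
    (X : ℕ → Ordinal.{0}) (z q i : ℕ) (hf : ∀ i, f i < ω ^ μ) (hz : 1 ≤ z) :
    Fhigh μ f p γ X z q i < ω ^ (μ + 1) * ((p - z + 1 : ℕ) : Ordinal.{0}) := by
  unfold Fhigh
  rw [if_neg (by omega)]
  have h1 := small' μ q (f (i + 1)) (hf _)
  calc ω ^ (μ + 1) * ((p - z : ℕ) : Ordinal.{0}) + (ω ^ μ * (q : Ordinal.{0}) + f (i + 1))
      < ω ^ (μ + 1) * ((p - z : ℕ) : Ordinal.{0}) + ω ^ (μ + 1) := by gcongr
    _ = ω ^ (μ + 1) * ((p - z + 1 : ℕ) : Ordinal.{0}) := by
        push_cast; rw [mul_add, mul_one]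

/-- the letters of a word at a position -/
theorem occ_get {b : ℕ → Bool} {n : ℕ} {w : List Bool} (h : Occ b n w) (o : ℕ) (x : Bool)
    (hx : w[o]? = some x) : b (n + o) = x := by
  obtain ⟨h1, h2⟩ := List.getElem?_eq_some_iff.mp hx
  rw [h o h1, h2]

theorem up_succ (p j : ℕ) : up p (j + 1) = uw p ++ up p j := by
  unfold up
  rw [List.replicate_succ, List.flatten_cons]

/-- letters of the low form -/
theorem low_bits {p : ℕ} {k c : ℕ → ℕ} {b : ℕ → Bool} {pos : ℕ → ℕ} {n z j i : ℕ}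
    (hp : 2 ≤ p) (h : Low p k c b pos n z j i) :
    (∀ l < z, b (n + l) = false) ∧ b (n + z) = true ∧ b (n + (z + 1)) = false := by
  obtain ⟨hj, -, -, -, ho, -⟩ := h
  obtain ⟨j', rfl⟩ := Nat.exists_eq_add_of_le' hj
  obtain ⟨p', rfl⟩ := Nat.exists_eq_add_of_le' hp
  rw [up_succ] at ho
  unfold uw at ho
  have e : p' + 2 - 1 = p' + 1 := by omega
  rw [e, List.replicate_succ] at ho
  refine ⟨?_, ?_, ?_⟩
  · intro l hl
    apply occ_get ho
    rw [List.append_assoc, List.getElem?_append_left (by simpa using hl)]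
    rw [List.getElem?_replicate, if_pos hl]
  · apply occ_get ho
    rw [List.append_assoc, List.getElem?_append_right (by simp)]
    simp
  · apply occ_get ho
    rw [List.append_assoc, List.getElem?_append_right (by simp)]
    simp

/-- a block starts with `true` -/
theorem blk_true {p : ℕ} {k c : ℕ → ℕ} {b : ℕ → Bool} {pos : ℕ → ℕ} (hb : Bin p k c b pos)
    (i : ℕ) : b (pos i) = true := by
  have h := hb.ho i
  obtain ⟨k', hk'⟩ := Nat.exists_eq_add_of_le' (hb.hk i)
  unfold blk at h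
  rw [hk', up_succ] at h
  unfold uw at h
  have := occ_get h 0 true (by simp)
  simpa using this

/-- letters of the high form -/
theorem high_bits {p : ℕ} {k c : ℕ → ℕ} {b : ℕ → Bool} {pos : ℕ → ℕ} {n z q i : ℕ}
    (hb : Bin p k c b pos) (h : High p c b pos n z q i) :
    (∀ l < z, b (n + l) = false) ∧ b (n + z) = true ∧ b (n + (z + 1)) = true := by
  obtain ⟨hq, -, -, ho, hpos⟩ := h
  refine ⟨?_, ?_, ?_⟩
  · intro l hl
    apply occ_get ho
    rw [List.getElem?_append_left (by simpa using hl), List.getElem?_replicate, if_pos hl]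
  · apply occ_get ho
    rw [List.getElem?_append_right (by simp), List.getElem?_replicate]
    simp only [List.length_replicate, Nat.sub_self]
    rw [if_pos (by omega)]
  · by_cases h2 : 2 ≤ q
    · apply occ_get ho
      rw [List.getElem?_append_right (by simp), List.getElem?_replicate]
      simp only [List.length_replicate, Nat.add_sub_cancel_left]
      rw [if_pos (by omega)]
    · have hq1 : q = 1 := by omega
      subst hq1
      have := blk_true hb (i + 1)
      rw [← hpos] at this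
      rw [← this]
      congr 1

end LH

open LH in
theorem t_LH : S_LH := by
  intro μ p k c b pos f γ X hc n z j i n' z' q i' hL hH
  have hL' := hL
  have hH' := hH
  obtain ⟨hj, hjk, hzp, hzpk, -, -⟩ := hL'
  obtain ⟨hq, hqc, hz'p, -, -⟩ := hH'
  have hCi := hc.hC i'
  have hC1 : 1 ≤ γ.length := by omega
  have hp2 : 2 ≤ p := by
    have h1 := hc.hb.hp
    by_contra hcon
    have h2 : p = 1 := by omega
    have h3 := hc.h1 h2
    rw [h3] at hC1
    simp at hC1
  obtain ⟨l0, l1, l2⟩ := low_bits hp2 hL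
  obtain ⟨g0, g1, g2⟩ := high_bits hc.hb hH
  rcases lt_trichotomy z z' with h | h | h
  · -- z < z'
    right
    refine ⟨⟨z, ?_, ?_⟩, ?_⟩
    · intro l hl
      rw [g0 l (by omega), l0 l hl]
    · rw [g0 z h, l1]
      exact Bool.false_lt_true
    · have hzp' : z < p := by omega
      by_cases h1 : z' = z + 1
      · unfold Fhigh Flow
        rw [if_neg (by omega), if_neg hzp'.ne]
        have e1 : p - z' = p - 1 - z := by omega
        rw [e1]
        have e2 : ω ^ μ * (q : Ordinal.{0}) + f (i' + 1) <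
            ω ^ μ * ((j * (γ.length + 1) + c i : ℕ) : Ordinal.{0}) + f (i + 1) := by
          refine (small μ q (f (i' + 1)) (hc.hf _)).trans_le ?_
          refine le_trans (mul_le (ω ^ μ) ?_) (le_add_right le_rfl)
          calc q + 1 ≤ γ.length + 1 := by omega
            _ = 1 * (γ.length + 1) := (one_mul _).symm
            _ ≤ j * (γ.length + 1) := Nat.mul_le_mul_right _ hj
            _ ≤ j * (γ.length + 1) + c i := Nat.le_add_right _ _
        gcongr
      · refine (fhigh_lt μ f p γ X z' q i' hc.hf (by omega)).trans_le ?_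
        exact (mul_le _ (by omega)).trans (flow_ge μ f p γ.length c z j i hzp')
  · -- z = z'
    subst h
    left
    refine ⟨⟨z + 1, ?_, ?_⟩, ?_⟩
    · intro l hl
      rcases Nat.lt_succ_iff_lt_or_eq.mp hl with h | h
      · rw [g0 l h, l0 l h]
      · rw [h, g1, l1]
    · rw [l2, g2]
      exact Bool.false_lt_true
    · by_cases h1 : z = p
      · unfold Flow Fhigh
        rw [if_pos h1, if_neg (by omega)]
        refine (hc.hf i).trans_le ?_
        have e1 : p - z = 0 := by omega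
        rw [e1]
        simp only [Nat.cast_zero, mul_zero, zero_add]
        exact (w_le μ hq).trans (le_add_right le_rfl)
      · exact (flow_lt μ f p γ.length c z j i hc.hf (by omega)).trans_le
          (fhigh_ge μ f p γ X z q i')
  · -- z' < z
    left
    refine ⟨⟨z', ?_, ?_⟩, ?_⟩
    · intro l hl
      rw [g0 l hl, l0 l (by omega)]
    · rw [l0 z' h, g1]
      exact Bool.false_lt_true
    · by_cases h1 : z = p
      · have e0 : Flow μ f p γ.length c z j i = f i := by
          unfold Flow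
          rw [if_pos h1]
        rw [e0]
        refine (hc.hf i).trans ((w_lt μ).trans_le ?_)
        refine le_trans ?_ (fhigh_ge μ f p γ X z' q i')
        have := mul_le (ω ^ (μ + 1)) (show 1 ≤ p - z' by omega)
        simpa using this
      · refine (flow_lt μ f p γ.length c z j i hc.hf (by omega)).trans_le ?_
        exact (mul_le _ (by omega)).trans (fhigh_ge μ f p γ X z' q i')

end Pool.Agent.H560R3.SO
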