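import Pool.Agent.H560R3.SO.Stm

set_option autoImplicit false

namespace Pool.Agent.H560R3.SO

open Ordinal

namespace LL

theorem occ_append {X : Type} (g : ℕ → X) (n : ℕ) (u v : List X) :
    Occ g n (u ++ v) ↔ Occ g n u ∧ Occ g (n + u.length) v := by
  constructor
  · intro h
    refine ⟨fun o ho => ?_, fun o ho => ?_⟩
    · have := h o (by rw [List.length_append]; omega)
      rw [this, List.getElem_append_left ho]
    · have := h (u.length + o) (by rw [List.length_append]; omega)
      rw [add_assoc, this, List.getElem_append_right (by omega)]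
      congr 1
      omega
  · rintro ⟨h1, h2⟩ o ho
    by_cases h : o < u.length
    · rw [h1 o h, List.getElem_append_left h]
    · rw [List.length_append] at ho
      have := h2 (o - u.length) (by omega)
      rw [List.getElem_append_right (by omega), ← this]
      congr 1
      omega

theorem occ_cons {X : Type} (g : ℕ → X) (n : ℕ) (x : X) (v : List X) :
    Occ g n (x :: v) ↔ g n = x ∧ Occ g (n + 1) v := by
  have := occ_append g n [x] v
  simp only [List.singleton_append, List.length_singleton] at this
  rw [this]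
  constructor
  · rintro ⟨h1, h2⟩
    exact ⟨by simpa using h1 0 (by simp), h2⟩
  · rintro ⟨h1, h2⟩
    refine ⟨fun o ho => ?_, h2⟩
    have : o = 0 := by simpa using ho
    subst this
    simpa using h1

theorem occ_rep {X : Type} (g : ℕ → X) (n m : ℕ) (x : X) (h : Occ g n (List.replicate m x)) :
    ∀ l < m, g (n + l) = x := by
  intro l hl
  have := h l (by simpa using hl)
  simpa using this

theorem uw_length (p : ℕ) (hp : 1 ≤ p) : (uw p).length = p := by
  unfold uw
  simp
  omega

theorem up_length (p : ℕ) (hp : 1 ≤ p) (j : ℕ) : (up p j).length = p * j := by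
  unfold up
  rw [List.length_flatten]
  simp [uw_length p hp, mul_comm]

theorem up_succ (p j : ℕ) : up p (j + 1) = uw p ++ up p j := by
  unfold up
  rw [List.replicate_succ, List.flatten_cons]

theorem occ_uw (g : ℕ → Bool) (n p : ℕ) (hp : 1 ≤ p) (h : Occ g n (uw p)) :
    ∀ l < p, g (n + l) = decide (l % p = 0) := by
  intro l hl
  unfold uw at h
  rw [occ_cons] at h
  rw [Nat.mod_eq_of_lt hl]
  by_cases h0 : l = 0
  · subst h0
    simpa using h.1
  · have := occ_rep g (n + 1) (p - 1) false h.2 (l - 1) (by omega)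
    have e : n + 1 + (l - 1) = n + l := by omega
    rw [e] at this
    rw [this]
    simp [h0]

theorem occ_up (g : ℕ → Bool) (p : ℕ) (hp : 1 ≤ p) (j : ℕ) : ∀ n, Occ g n (up p j) →
    ∀ l < p * j, g (n + l) = decide (l % p = 0) := by
  induction j with
  | zero => intro n _ l hl; simp at hl
  | succ j ih =>
    intro n h l hl
    rw [up_succ, occ_append, uw_length p hp] at h
    by_cases hlp : l < p
    · exact occ_uw g n p hp h.1 l hlp
    · have := ih (n + p) h.2 (l - p) (by rw [Nat.mul_succ] at hl; omega)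
      have e : n + p + (l - p) = n + l := by omega
      rw [e] at this
      rw [this]
      congr 1
      have : (l - p) % p = l % p := by
        conv_rhs => rw [show l = (l - p) + p by omega]
        rw [Nat.add_mod_right]
      rw [this]

/-- letter number `l` of the normal form -/
def Wd (z p j l : ℕ) : Bool :=
  if l < z then false else if l < z + p * j then decide ((l - z) % p = 0)
  else if l = z + p * j then false else true

theorem low_wd {p : ℕ} {k c : ℕ → ℕ} {b : ℕ → Bool} {pos : ℕ → ℕ} (hp : 1 ≤ p)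
    {n z j i : ℕ} (h : Low p k c b pos n z j i) :
    ∀ l < z + p * j + 1 + c i, b (n + l) = Wd z p j l := by
  obtain ⟨-, -, -, -, ho, -⟩ := h
  rw [occ_append, occ_append, occ_cons] at ho
  simp only [List.length_append, List.length_replicate, up_length p hp] at ho
  obtain ⟨⟨h1, h2⟩, h3, h4⟩ := ho
  intro l hl
  unfold Wd
  split_ifs with a1 a2 a3
  · exact occ_rep b n z false h1 l a1
  · have := occ_up b p hp j (n + z) h2 (l - z) (by omega)
    have e : n + z + (l - z) = n + l := by omega
    rw [e] at this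
    exact this
  · subst a3
    exact h3
  · have := occ_rep b _ (c i) true h4 (l - (z + p * j + 1)) (by omega)
    have e : n + (z + p * j) + 1 + (l - (z + p * j + 1)) = n + l := by omega
    rw [e] at this
    exact this

theorem bin_start {p : ℕ} {k c : ℕ → ℕ} {b : ℕ → Bool} {pos : ℕ → ℕ} (hb : Bin p k c b pos)
    (i : ℕ) : b (pos i) = true ∧ (2 ≤ p → b (pos i + 1) = false) := by
  have ho := hb.ho i
  have hk := hb.hk i
  have hp := hb.hp
  unfold blk at ho
  rw [occ_append] at ho
  have h := occ_up b p hp (k i) (pos i) ho.1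
  have hpk : p ≤ p * k i := Nat.le_mul_of_pos_right p hk
  constructor
  · have := h 0 (by omega)
    simpa using this
  · intro h2
    have := h 1 (by omega)
    rw [this]
    have : 1 % p = 1 := Nat.mod_eq_of_lt (by omega)
    simp [this]

theorem lts_ext {b : ℕ → Bool} {n n' M : ℕ} (h : ∀ l < M, b (n + l) = b (n' + l))
    (h2 : LTs b (n + M) (n' + M)) : LTs b n n' := by
  obtain ⟨m, h3, h4⟩ := h2
  refine ⟨M + m, fun l hl => ?_, ?_⟩
  · by_cases hlM : l < M
    · exact h l hlM
    · have := h3 (l - M) (by omega)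
      have e1 : n + M + (l - M) = n + l := by omega
      have e2 : n' + M + (l - M) = n' + l := by omega
      rw [e1, e2] at this
      exact this
  · rw [← add_assoc, ← add_assoc]
    exact h4

theorem ord1 (μ x y : Ordinal.{0}) (B B' : ℕ) (h : B < B') (hx : x < ω ^ μ) :
    ω ^ μ * (B : Ordinal.{0}) + x < ω ^ μ * (B' : Ordinal.{0}) + y := by
  calc ω ^ μ * (B : Ordinal.{0}) + x < ω ^ μ * (B : Ordinal.{0}) + ω ^ μ :=
        (add_lt_add_iff_left _).2 hx
    _ = ω ^ μ * ((B + 1 : ℕ) : Ordinal.{0}) := by
        rw [Nat.cast_add, Nat.cast_one, mul_add, mul_one]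
    _ ≤ ω ^ μ * (B' : Ordinal.{0}) := mul_le_mul_right (by exact_mod_cast h) _
    _ ≤ _ := le_self_add

theorem ord2 (μ x : Ordinal.{0}) (B : ℕ) (hx : x < ω ^ μ) :
    ω ^ μ * (B : Ordinal.{0}) + x < ω ^ (μ + 1) := by
  have h1 : ω ^ μ * (B : Ordinal.{0}) + x < ω ^ μ * ((B + 1 : ℕ) : Ordinal.{0}) + 0 :=
    ord1 μ x 0 B (B + 1) (by omega) hx
  rw [add_zero] at h1
  refine h1.trans ?_
  rw [opow_add, opow_one]
  exact (mul_lt_mul_iff_right₀ (opow_pos μ omega0_pos)).2 (natCast_lt_omega0 _)

/-- the ordered cases -/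
theorem key (μ : Ordinal.{0}) (p : ℕ) (k c : ℕ → ℕ) (b : ℕ → Bool) (pos : ℕ → ℕ)
    (f : ℕ → Ordinal.{0}) (γ : List Ordinal.{0}) (X : ℕ → Ordinal.{0})
    (ctx : Ctx μ p k c b pos f γ X) (n z j i n' z' j' i' : ℕ)
    (h : Low p k c b pos n z j i) (h' : Low p k c b pos n' z' j' i')
    (hord : z' < z ∨ (z = z' ∧ z < p ∧ j < j') ∨ (z = z' ∧ z < p ∧ j = j' ∧ c i < c i')) :
    LTs b n n' ∧ Flow μ f p γ.length c z j i < Flow μ f p γ.length c z' j' i' := by
  have hp := ctx.hb.hp
  have w := low_wd hp h
  have w' := low_wd hp h'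
  obtain ⟨hj1, hjk, hzp, hzk, -, hpos⟩ := h
  obtain ⟨hj1', hjk', hzp', hzk', -, hpos'⟩ := h'
  have hpj : p ≤ p * j := Nat.le_mul_of_pos_right p hj1
  have hpj' : p ≤ p * j' := Nat.le_mul_of_pos_right p hj1'
  rcases hord with hz | ⟨hz, hzp1, hjj⟩ | ⟨hz, hzp1, hjj, hcc⟩
  · constructor
    · refine ⟨z', fun l hl => ?_, ?_⟩
      · rw [w l (by omega), w' l (by omega)]
        unfold Wd
        rw [if_pos (by omega), if_pos hl]
      · rw [w z' (by omega), w' z' (by omega)]
        unfold Wd
        rw [if_pos hz, if_neg (by omega), if_pos (by omega)]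
        simp
    · unfold Flow
      rw [if_neg (show ¬ z' = p by omega)]
      by_cases hzz : z = p
      · rw [if_pos hzz]
        have h1 : 1 ≤ j' * (γ.length + 1) + c i' := by
          have : 1 * 1 ≤ j' * (γ.length + 1) := Nat.mul_le_mul hj1' (by omega)
          omega
        calc f i = ω ^ μ * ((0 : ℕ) : Ordinal.{0}) + f i := by simp
          _ < ω ^ μ * ((j' * (γ.length + 1) + c i' : ℕ) : Ordinal.{0}) + f (i' + 1) :=
              ord1 μ (f i) (f (i' + 1)) 0 _ h1 (ctx.hf i)
          _ ≤ _ := le_add_self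
      · rw [if_neg hzz]
        exact ord1 (μ + 1) _ _ _ _ (by omega) (ord2 μ _ _ (ctx.hf _))
  · subst hz
    constructor
    · have hlt : p * j < p * j' := Nat.mul_lt_mul_of_pos_left hjj (by omega)
      refine ⟨z + p * j, fun l hl => ?_, ?_⟩
      · rw [w l (by omega), w' l (by omega)]
        unfold Wd
        by_cases hlz : l < z
        · rw [if_pos hlz, if_pos hlz]
        · rw [if_neg hlz, if_neg hlz, if_pos hl, if_pos (by omega)]
      · rw [w (z + p * j) (by omega), w' (z + p * j) (by omega)]
        unfold Wd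
        rw [if_neg (by omega), if_neg (by omega), if_pos rfl, if_neg (by omega), if_pos (by omega)]
        have : z + p * j - z = p * j := by omega
        rw [this, Nat.mul_mod_right]
        simp
    · unfold Flow
      rw [if_neg (show ¬ z = p by omega), if_neg (show ¬ z = p by omega)]
      rw [add_lt_add_iff_left]
      refine ord1 μ _ _ _ _ ?_ (ctx.hf _)
      have h1 := ctx.hC i
      have h2 : (j + 1) * (γ.length + 1) ≤ j' * (γ.length + 1) := Nat.mul_le_mul_right _ hjj
      rw [add_mul, one_mul] at h2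
      omega
  · subst hz
    subst hjj
    constructor
    · have hp2 : 2 ≤ p := by
        by_contra hcon
        have hp1 : p = 1 := by omega
        have := ctx.h1 hp1
        have h2 := ctx.hC i'
        rw [this] at h2
        simp at h2
        omega
      have e1 : n + (z + p * j + 1 + c i) = pos (i + 1) := by omega
      obtain ⟨s1, s2⟩ := bin_start ctx.hb (i + 1)
      obtain ⟨s1', s2'⟩ := bin_start ctx.hb (i' + 1)
      have hcom : ∀ l < z + p * j + 1 + c i, b (n + l) = b (n' + l) := by
        intro l hl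
        rw [w l hl, w' l (by omega)]
      have ht1 : ∀ l, z + p * j + 1 ≤ l → l < z + p * j + 1 + c i' → b (n' + l) = true := by
        intro l h1 h2
        rw [w' l h2]
        unfold Wd
        rw [if_neg (by omega), if_neg (by omega), if_neg (by omega)]
      refine lts_ext hcom ?_
      rw [e1]
      refine ⟨1, fun l hl => ?_, ?_⟩
      · have : l = 0 := by omega
        subst this
        rw [add_zero, add_zero, s1, ht1 _ (by omega) (by omega)]
      · rw [s2 hp2]
        have : b (n' + (z + p * j + 1 + c i) + 1) = true := by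
          by_cases hc2 : c i + 1 < c i'
          · have := ht1 (z + p * j + 1 + c i + 1) (by omega) (by omega)
            rw [← this]
            congr 1
          · have e2 : n' + (z + p * j + 1 + c i) + 1 = pos (i' + 1) := by omega
            rw [e2, s1']
        rw [this]
        simp
    · unfold Flow
      rw [if_neg (show ¬ z = p by omega), if_neg (show ¬ z = p by omega)]
      rw [add_lt_add_iff_left]
      exact ord1 μ _ _ _ _ (by omega) (ctx.hf _)

theorem key2 (μ : Ordinal.{0}) (p : ℕ) (k c : ℕ → ℕ) (b : ℕ → Bool) (pos : ℕ → ℕ)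
    (f : ℕ → Ordinal.{0}) (γ : List Ordinal.{0}) (X : ℕ → Ordinal.{0})
    (ctx : Ctx μ p k c b pos f γ X) (n j i n' j' i' : ℕ)
    (h : Low p k c b pos n p j i) (h' : Low p k c b pos n' p j' i') (hnn : n ≠ n') :
    (LTs b n n' ∧ Flow μ f p γ.length c p j i < Flow μ f p γ.length c p j' i') ∨
    (LTs b n' n ∧ Flow μ f p γ.length c p j' i' < Flow μ f p γ.length c p j i) := by
  have hp := ctx.hb.hp
  have w := low_wd hp h
  have w' := low_wd hp h'
  obtain ⟨hj1, hjk, hzp, hzk, -, hpos⟩ := h
  obtain ⟨hj1', hjk', hzp', hzk', -, hpos'⟩ := h'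
  have a1 := hzk rfl
  have a2 := hzk' rfl
  subst a1
  subst a2
  have hs := ctx.hb.hs i
  have hs' := ctx.hb.hs i'
  have e : n + p = pos i := by omega
  have e' : n' + p = pos i' := by omega
  have hii : i ≠ i' := by
    rintro rfl
    exact hnn (by omega)
  have hcom : ∀ l < p, b (n + l) = b (n' + l) := by
    intro l hl
    rw [w l (by omega), w' l (by omega)]
    unfold Wd
    rw [if_pos hl, if_pos hl]
  unfold Flow
  rw [if_pos rfl, if_pos rfl]
  rcases ctx.ht i i' hii with ⟨g1, g2⟩ | ⟨g1, g2⟩
  · left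
    exact ⟨lts_ext hcom (by rw [e, e']; exact g1), g2⟩
  · right
    exact ⟨lts_ext (fun l hl => (hcom l hl).symm) (by rw [e, e']; exact g1), g2⟩

theorem key3 (μ : Ordinal.{0}) (p : ℕ) (k c : ℕ → ℕ) (b : ℕ → Bool) (pos : ℕ → ℕ)
    (f : ℕ → Ordinal.{0}) (γ : List Ordinal.{0}) (X : ℕ → Ordinal.{0})
    (ctx : Ctx μ p k c b pos f γ X) (n z j i n' i' : ℕ) (hz : z < p)
    (h : Low p k c b pos n z j i) (h' : Low p k c b pos n' z j i') (hcc : c i = c i')
    (hnn : n ≠ n') :
    (LTs b n n' ∧ Flow μ f p γ.length c z j i < Flow μ f p γ.length c z j i') ∨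
    (LTs b n' n ∧ Flow μ f p γ.length c z j i' < Flow μ f p γ.length c z j i) := by
  have hp := ctx.hb.hp
  have w := low_wd hp h
  have w' := low_wd hp h'
  obtain ⟨hj1, hjk, hzp, hzk, -, hpos⟩ := h
  obtain ⟨hj1', hjk', hzp', hzk', -, hpos'⟩ := h'
  have e : n + (z + p * j + 1 + c i) = pos (i + 1) := by omega
  have e' : n' + (z + p * j + 1 + c i) = pos (i' + 1) := by omega
  have hii : i + 1 ≠ i' + 1 := by
    intro h0
    have h1 : i = i' := by omega
    subst h1
    exact hnn (by omega)
  have hcom : ∀ l < z + p * j + 1 + c i, b (n + l) = b (n' + l) := by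
    intro l hl
    rw [w l (by omega), w' l (by omega)]
  unfold Flow
  rw [if_neg (by omega), if_neg (by omega), ← hcc]
  rcases ctx.ht (i + 1) (i' + 1) hii with ⟨g1, g2⟩ | ⟨g1, g2⟩
  · left
    refine ⟨lts_ext hcom (by rw [e, e']; exact g1), ?_⟩
    rw [add_lt_add_iff_left, add_lt_add_iff_left]
    exact g2
  · right
    refine ⟨lts_ext (fun l hl => (hcom l hl).symm) (by rw [e, e']; exact g1), ?_⟩
    rw [add_lt_add_iff_left, add_lt_add_iff_left]
    exact g2

end LL

theorem t_LL : S_LL := by
  intro μ p k c b pos f γ X ctx n z j i n' z' j' i' h h' hnn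
  rcases lt_trichotomy z z' with hz | hz | hz
  · right
    exact LL.key μ p k c b pos f γ X ctx n' z' j' i' n z j i h' h (Or.inl hz)
  · subst hz
    by_cases hzp : z = p
    · subst hzp
      exact LL.key2 μ z k c b pos f γ X ctx n j i n' j' i' h h' hnn
    · have hz' : z < p := lt_of_le_of_ne h.2.2.1 hzp
      rcases lt_trichotomy j j' with hj | hj | hj
      · left
        exact LL.key μ p k c b pos f γ X ctx n z j i n' z j' i' h h'
          (Or.inr (Or.inl ⟨rfl, hz', hj⟩))
      · subst hj
        rcases lt_trichotomy (c i) (c i') with hc | hc | hc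
        · left
          exact LL.key μ p k c b pos f γ X ctx n z j i n' z j i' h h'
            (Or.inr (Or.inr ⟨rfl, hz', rfl, hc⟩))
        · exact LL.key3 μ p k c b pos f γ X ctx n z j i n' i' hz' h h' hc hnn
        · right
          exact LL.key μ p k c b pos f γ X ctx n' z j i' n z j i h' h
            (Or.inr (Or.inr ⟨rfl, hz', rfl, hc⟩))
      · right
        exact LL.key μ p k c b pos f γ X ctx n' z j' i' n z j i h' h
          (Or.inr (Or.inl ⟨rfl, hz', hj⟩))
  · left
    exact LL.key μ p k c b pos f γ X ctx n z j i n' z' j' i' h h' (Or.inl hz)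

end Pool.Agent.H560R3.SO
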