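import Pool.Agent.H560R3.SO.Stm

/-!
Infinite orbits are injective orbits of the doubling map (task NA of helper560, by helper632).
-/

set_option autoImplicit false

namespace Pool.Agent.H560R3.SO

namespace NA

noncomputable def dg (b : ℕ → Bool) (i : ℕ) : ℝ := if b i = true then (1 : ℝ) else 0

theorem dg_nonneg (b : ℕ → Bool) (i : ℕ) : 0 ≤ dg b i := by
  unfold dg; split_ifs <;> norm_num

theorem dg_le (b : ℕ → Bool) (i : ℕ) : dg b i ≤ 1 := by
  unfold dg; split_ifs <;> norm_num

theorem dg_cases (b : ℕ → Bool) (i : ℕ) : dg b i = 0 ∨ dg b i = 1 := by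
  unfold dg; split_ifs <;> simp

theorem geo_eq (n : ℕ) : (1 : ℝ) / 2 ^ (n + 1) = (1 / 2 : ℝ) * (1 / 2) ^ n := by
  rw [one_div_pow, pow_succ]; ring

theorem summable_geo : Summable (fun n : ℕ => (1 : ℝ) / 2 ^ (n + 1)) := by
  simp_rw [geo_eq]
  exact (summable_geometric_of_lt_one (by norm_num) (by norm_num)).mul_left _

theorem tsum_geo : ∑' n : ℕ, (1 : ℝ) / 2 ^ (n + 1) = 1 := by
  simp_rw [geo_eq]
  rw [tsum_mul_left, tsum_geometric_of_lt_one (by norm_num) (by norm_num)]
  norm_num

theorem sv_eq (b : ℕ → Bool) (i : ℕ) : sv b i = ∑' n : ℕ, dg b (i + n) / 2 ^ (n + 1) := rfl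

theorem summ (b : ℕ → Bool) (i : ℕ) : Summable (fun n : ℕ => dg b (i + n) / 2 ^ (n + 1)) := by
  refine Summable.of_nonneg_of_le (fun n => ?_) (fun n => ?_) summable_geo
  · exact div_nonneg (dg_nonneg b _) (by positivity)
  · gcongr; exact dg_le b _

theorem sv_nonneg (b : ℕ → Bool) (i : ℕ) : 0 ≤ sv b i := by
  rw [sv_eq]; exact tsum_nonneg fun n => div_nonneg (dg_nonneg b _) (by positivity)

theorem sv_le (b : ℕ → Bool) (i : ℕ) : sv b i ≤ 1 := by
  rw [sv_eq, ← tsum_geo]
  refine (summ b i).tsum_le_tsum (fun n => ?_) summable_geo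
  gcongr; exact dg_le b _

theorem sv_succ (b : ℕ → Bool) (i : ℕ) : sv b (i + 1) = 2 * sv b i - dg b i := by
  have h : sv b i = dg b i / 2 + ∑' n : ℕ, dg b (i + (n + 1)) / 2 ^ (n + 1 + 1) := by
    rw [sv_eq, (summ b i).tsum_eq_zero_add]
    simp
  have h2 : ∑' n : ℕ, dg b (i + (n + 1)) / 2 ^ (n + 1 + 1) = sv b (i + 1) / 2 := by
    rw [sv_eq, ← tsum_div_const]
    congr 1
    ext n
    rw [show i + 1 + n = i + (n + 1) by ring, pow_succ (2 : ℝ) (n + 1)]
    field_simp
  rw [h2] at h
  linarith

theorem fin_of (b : ℕ → Bool) (N : ℕ) (h : ∀ m, N ≤ m → ∃ m' < m, sv b m' = sv b m) :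
    (shiftSet b).Finite := by
  have key : ∀ m, sv b m ∈ sv b '' {m | m < N} := by
    intro m
    induction m using Nat.strong_induction_on with
    | _ m ih =>
      by_cases hm : m < N
      · exact ⟨m, hm, rfl⟩
      · obtain ⟨m', h1, h2⟩ := h m (by omega)
        rw [← h2]
        exact ih m' h1
  refine ((Set.finite_lt_nat N).image (sv b)).subset ?_
  rintro _ ⟨m, rfl⟩
  exact key m

end NA

theorem t_NA : S_NA := by
  intro b hinf
  have ne0 : ∀ i, sv b i ≠ 0 := by
    intro i hi
    have hz : ∀ n, sv b (i + n) = 0 := by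
      intro n
      induction n with
      | zero => simpa using hi
      | succ n ih =>
        have h1 := NA.sv_succ b (i + n)
        have h2 := NA.sv_nonneg b (i + n + 1)
        have h3 := NA.dg_nonneg b (i + n)
        rw [← add_assoc]
        linarith
    refine hinf (NA.fin_of b (i + 1) fun m hm => ⟨i, by omega, ?_⟩)
    rw [hi, show m = i + (m - i) by omega, hz]
  have ne1 : ∀ i, sv b i ≠ 1 := by
    intro i hi
    have hz : ∀ n, sv b (i + n) = 1 := by
      intro n
      induction n with
      | zero => simpa using hi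
      | succ n ih =>
        have h1 := NA.sv_succ b (i + n)
        have h2 := NA.sv_le b (i + n + 1)
        have h3 := NA.dg_le b (i + n)
        rw [← add_assoc]
        linarith
    refine hinf (NA.fin_of b (i + 1) fun m hm => ⟨i, by omega, ?_⟩)
    rw [hi, show m = i + (m - i) by omega, hz]
  have pos : ∀ i, 0 < sv b i := fun i => lt_of_le_of_ne (NA.sv_nonneg b i) (ne0 i).symm
  have lt1 : ∀ i, sv b i < 1 := fun i => lt_of_le_of_ne (NA.sv_le b i) (ne1 i)
  have hs : ∀ i, sv b (i + 1) = dbl (sv b i) := by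
    intro i
    have h1 := NA.sv_succ b i
    have h2 := pos (i + 1)
    have h3 := lt1 (i + 1)
    unfold dbl
    rcases NA.dg_cases b i with h | h
    · rw [if_pos (by linarith)]; linarith
    · rw [if_neg (by linarith)]; linarith
  refine ⟨pos, lt1, ?_, hs, ?_⟩
  · intro i hi
    have h1 := NA.sv_succ b i
    have h2 := pos (i + 1)
    have h3 := lt1 (i + 1)
    rcases NA.dg_cases b i with h | h <;> linarith
  · intro i j hij
    by_contra hne
    wlog hlt : i < j generalizing i j
    · exact this hij.symm (fun h => hne h.symm) (by omega)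
    have hper : ∀ n, sv b (i + n) = sv b (j + n) := by
      intro n
      induction n with
      | zero => simpa using hij
      | succ n ih => rw [← add_assoc, ← add_assoc, hs, hs, ih]
    refine hinf (NA.fin_of b j fun m hm => ⟨i + (m - j), by omega, ?_⟩)
    rw [hper, show j + (m - j) = m by omega]

end Pool.Agent.H560R3.SO
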