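import Pool.Agent.H560R3.SO.Stm

/-! Task NB (author helper171): leading coefficient one forces the type `ω ^ β`. -/

set_option autoImplicit false

namespace Pool.Agent.H560R3.SO

open Ordinal

namespace NB

theorem uniq (s : Set ℝ) (α β : Ordinal.{0}) (h1 : HasType s α) (h2 : HasType s β) : α = β := by
  obtain ⟨_, rfl⟩ := h1
  obtain ⟨_, rfl⟩ := h2
  rfl

theorem ne_zero (s : Set ℝ) (α : Ordinal.{0}) (h : HasType s α) (hs : s.Nonempty) : α ≠ 0 := by
  obtain ⟨hw, rfl⟩ := h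
  intro h0
  rw [Ordinal.type_eq_zero_iff_isEmpty] at h0
  obtain ⟨x, hx⟩ := hs
  exact h0.false ⟨x, hx⟩

theorem nonempty (s : Set ℝ) (α : Ordinal.{0}) (h : HasType s α) (h0 : α ≠ 0) : s.Nonempty := by
  by_contra hs
  rw [Set.not_nonempty_iff_eq_empty] at hs
  subst hs
  obtain ⟨hw, rfl⟩ := h
  apply h0
  rw [Ordinal.type_eq_zero_iff_isEmpty]
  infer_instance

theorem split (h : S_HTsplit) (s : Set ℝ) (c : ℝ) (β : Ordinal.{0}) (hs : HasType s (ω ^ β))
    (hne : (s ∩ Set.Ici c).Nonempty) :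
    HasType (s ∩ Set.Ici c) (ω ^ β) ∧ ∃ b < ω ^ β, HasType (s ∩ Set.Iio c) b := by
  obtain ⟨b, g, hb, hg, heq⟩ := h s c (ω ^ β) hs
  have hg0 : g ≠ 0 := ne_zero _ _ hg hne
  have hblt : b < ω ^ β := by
    rw [heq]
    exact lt_add_of_pos_right b (pos_iff_ne_zero.2 hg0)
  have hgle : g ≤ ω ^ β := by
    rw [heq]
    exact le_add_self
  have hge : g = ω ^ β := by
    rcases hgle.lt_or_eq with hlt | hge
    · have h9 : b + g < ω ^ β := Ordinal.isPrincipal_add_omega0_opow β hblt hlt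
      rw [← heq] at h9
      exact absurd h9 (lt_irrefl _)
    · exact hge
  exact ⟨hge ▸ hg, b, hblt, hb⟩

end NB

open NB in
theorem t_NB (_h0 : S_HTsub) (h1 : S_HTmap) (h2 : S_HTsplit) (h3 : S_HTinit) : S_NB := by
  intro a ha β ρ hβ hρ hA
  by_contra hρ0
  obtain ⟨x, ⟨i0, hi0⟩, hx⟩ := h3 (Set.range a) (ω ^ β + ρ) (ω ^ β) hA
    (lt_add_of_pos_right _ (pos_iff_ne_zero.2 hρ0))
  have hx1 : x < 1 := by rw [← hi0]; exact ha.h1 i0
  set A := Set.range a with hAdef
  set B := A ∩ Set.Iio x with hB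
  have hω0 : (ω ^ β : Ordinal.{0}) ≠ 0 := (Ordinal.opow_pos β Ordinal.omega0_pos).ne'
  have hω1 : (1 : Ordinal.{0}) < ω ^ β := by
    have h4 : (ω : Ordinal.{0}) ≤ ω ^ β := by
      calc (ω : Ordinal.{0}) = ω ^ (1 : Ordinal.{0}) := (Ordinal.opow_one _).symm
        _ ≤ ω ^ β := Ordinal.opow_le_opow_right Ordinal.omega0_pos hβ
    exact lt_of_lt_of_le Ordinal.one_lt_omega0 h4
  have hBne : B.Nonempty := nonempty B _ hx hω0
  have hBbdd : BddAbove B := ⟨x, fun y hy => le_of_lt hy.2⟩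
  set p := sSup B with hp
  have hpx : p ≤ x := csSup_le hBne fun y hy => le_of_lt hy.2
  have hp1 : p < 1 := lt_of_le_of_lt hpx hx1
  have hp0 : 0 < p := by
    obtain ⟨y, hy⟩ := hBne
    have h4 : y ≤ p := le_csSup hBbdd hy
    obtain ⟨i, hi⟩ := hy.1
    have := ha.h0 i
    rw [hi] at this
    linarith
  -- p is not in B
  have hpB : p ∉ B := by
    intro hmem
    have h4 : B ∩ Set.Ici p = {p} := by
      ext y
      constructor
      · rintro ⟨hy1, hy2⟩
        exact le_antisymm (le_csSup hBbdd hy1) hy2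
      · rintro rfl
        exact ⟨hmem, Set.mem_Ici.2 le_rfl⟩
    obtain ⟨h5, -⟩ := split h2 B p β hx ⟨p, hmem, Set.mem_Ici.2 le_rfl⟩
    rw [h4] at h5
    obtain ⟨x', hx', h6⟩ := h3 {p} (ω ^ β) 1 h5 hω1
    have h7 := nonempty _ _ h6 one_ne_zero
    obtain ⟨y, hy1, hy2⟩ := h7
    rw [Set.mem_singleton_iff] at hx' hy1
    rw [hx', hy1, Set.mem_Iio] at hy2
    exact absurd hy2 (lt_irrefl _)
  have hBp : B = A ∩ Set.Iio p := by
    ext y
    constructor
    · intro hy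
      refine ⟨hy.1, ?_⟩
      have h4 : y ≤ p := le_csSup hBbdd hy
      rcases h4.lt_or_eq with h5 | h5
      · exact h5
      · exact absurd (h5 ▸ hy) hpB
    · rintro ⟨hy1, hy2⟩
      exact ⟨hy1, lt_of_lt_of_le hy2 hpx⟩
  have hBt : HasType (A ∩ Set.Iio p) (ω ^ β) := hBp ▸ hx
  have hex : ∀ t < p, ∃ y ∈ B, t < y := fun t ht => exists_lt_of_lt_csSup hBne ht
  have htail : ∀ t < p, HasType (A ∩ Set.Ico t p) (ω ^ β) := by
    intro t ht
    obtain ⟨y, hy, hty⟩ := hex t ht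
    obtain ⟨h5, -⟩ := split h2 B t β hx ⟨y, hy, hty.le⟩
    have h6 : B ∩ Set.Ici t = A ∩ Set.Ico t p := by
      rw [hBp]
      ext z
      simp only [Set.mem_inter_iff, Set.mem_Iio, Set.mem_Ici, Set.mem_Ico]
      tauto
    rwa [h6] at h5
  have hdA : ∀ y ∈ A, dbl y ∈ A := by
    rintro y ⟨i, rfl⟩
    exact ⟨i + 1, ha.hs i⟩
  rcases le_or_gt p (1 / 2) with hph | hph
  · -- p ≤ 1/2
    obtain ⟨b, g, hb, hg, heq⟩ := h2 A p (ω ^ β + ρ) hA
    have hbe : b = ω ^ β := uniq _ _ _ hb hBt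
    have h5 := htail (p / 2) (by linarith)
    have h6 : ω ^ β ≤ g := by
      refine h1 (A ∩ Set.Ico (p / 2) p) (A ∩ Set.Ici p) (ω ^ β) g dbl h5 hg ?_ ?_
      · intro y hy z hz hyz
        have e1 : dbl y = 2 * y := by
          unfold dbl; rw [if_pos]; linarith [hy.2.2]
        have e2 : dbl z = 2 * z := by
          unfold dbl; rw [if_pos]; linarith [hz.2.2]
        rw [e1, e2]; linarith
      · intro y hy
        refine ⟨hdA y hy.1, ?_⟩
        have e1 : dbl y = 2 * y := by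
          unfold dbl; rw [if_pos]; linarith [hy.2.2]
        rw [Set.mem_Ici, e1]
        linarith [hy.2.1]
    rw [hbe] at heq
    have h7 : ρ = g := by
      exact (add_left_cancel heq)
    rw [h7] at hρ
    exact absurd (lt_of_lt_of_le hρ h6) (lt_irrefl _)
  · have h5 := htail ((1 / 2 + p) / 2) (by linarith)
    obtain ⟨y0, hy0, hty0⟩ := hex (2 * p - 1) (by linarith)
    obtain ⟨-, b, hblt, hb⟩ := split h2 B (2 * p - 1) β hx ⟨y0, hy0, hty0.le⟩
    have h6 : ω ^ β ≤ b := by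
      refine h1 (A ∩ Set.Ico ((1 / 2 + p) / 2) p) (B ∩ Set.Iio (2 * p - 1)) (ω ^ β) b dbl h5 hb ?_ ?_
      · intro y hy z hz hyz
        have e1 : dbl y = 2 * y - 1 := by
          unfold dbl; rw [if_neg]; linarith [hy.2.1]
        have e2 : dbl z = 2 * z - 1 := by
          unfold dbl; rw [if_neg]; linarith [hz.2.1]
        rw [e1, e2]; linarith
      · intro y hy
        have e1 : dbl y = 2 * y - 1 := by
          unfold dbl; rw [if_neg]; linarith [hy.2.1]
        have h8 : dbl y < 2 * p - 1 := by rw [e1]; linarith [hy.2.2]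
        refine ⟨?_, h8⟩
        rw [hBp]
        refine ⟨hdA y hy.1, ?_⟩
        rw [Set.mem_Iio]
        linarith
    exact absurd (lt_of_lt_of_le hblt h6) (lt_irrefl _)

end Pool.Agent.H560R3.SO
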