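import Pool.Agent.H560R3.SO.Stm

/-!
A periodic point of top rank (MP_c20855_lc, Q1).
-/

set_option autoImplicit false

namespace Pool.Agent.H560R3.SO

open Ordinal

namespace NC

theorem uniq {s : Set ℝ} {α β : Ordinal.{0}} (h1 : HasType s α) (h2 : HasType s β) : α = β := by
  obtain ⟨w1, e1⟩ := h1
  obtain ⟨w2, e2⟩ := h2
  rw [← e1, ← e2]

open Classical in
/-- the order type of a set, `0` if it is not well-ordered -/
noncomputable def ty (s : Set ℝ) : Ordinal.{0} :=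
  if h : ∃ α, HasType s α then h.choose else 0

theorem ty_eq {s : Set ℝ} {α : Ordinal.{0}} (h : HasType s α) : ty s = α := by
  have h' : ∃ α, HasType s α := ⟨α, h⟩
  unfold ty
  rw [dif_pos h']
  exact uniq h'.choose_spec h

theorem ty_spec (h1 : S_HTsub) {A : Set ℝ} {α : Ordinal.{0}} (hA : HasType A α) {s : Set ℝ}
    (hs : s ⊆ A) : HasType s (ty s) := by
  obtain ⟨β, _, hβ⟩ := h1 A s α hs hA
  rw [ty_eq hβ]
  exact hβ

theorem ty_mono (h1 : S_HTsub) {A : Set ℝ} {α : Ordinal.{0}} (hA : HasType A α) {s t : Set ℝ}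
    (hst : s ⊆ t) (ht : t ⊆ A) : ty s ≤ ty t := by
  obtain ⟨β, hβ, h⟩ := h1 t s (ty t) hst (ty_spec h1 hA ht)
  rw [ty_eq h]
  exact hβ

theorem ty_split (h1 : S_HTsub) (h3 : S_HTsplit) {A : Set ℝ} {α : Ordinal.{0}} (hA : HasType A α)
    {s : Set ℝ} (hs : s ⊆ A) (c : ℝ) :
    ty s = ty (s ∩ Set.Iio c) + ty (s ∩ Set.Ici c) := by
  obtain ⟨β, γ, hβ, hγ, e⟩ := h3 s c (ty s) (ty_spec h1 hA hs)
  rw [ty_eq hβ, ty_eq hγ]
  exact e

theorem ty_map (h1 : S_HTsub) (h2 : S_HTmap) {A : Set ℝ} {α : Ordinal.{0}} (hA : HasType A α)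
    {s t : Set ℝ} (hs : s ⊆ A) (ht : t ⊆ A) (g : ℝ → ℝ) (hg : StrictMonoOn g s)
    (hm : Set.MapsTo g s t) : ty s ≤ ty t :=
  h2 s t _ _ g (ty_spec h1 hA hs) (ty_spec h1 hA ht) hg hm

/-- heavy points -/
def Hv (A : Set ℝ) (β : Ordinal.{0}) : Set ℝ :=
  {x | 0 < x ∧ x ≤ 1 ∧ ∀ t < x, ω ^ β ≤ ty (A ∩ Set.Ico t x)}

theorem split2 (h1 : S_HTsub) (h3 : S_HTsplit) {A : Set ℝ} {α : Ordinal.{0}} (hA : HasType A α)
    (t x : ℝ) (htx : t ≤ x) :
    ty (A ∩ Set.Iio x) = ty (A ∩ Set.Iio t) + ty (A ∩ Set.Ico t x) := by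
  rw [ty_split h1 h3 hA (s := A ∩ Set.Iio x) Set.inter_subset_left t]
  have e1 : A ∩ Set.Iio x ∩ Set.Iio t = A ∩ Set.Iio t := by
    ext y
    constructor
    · rintro ⟨⟨hy, _⟩, h⟩
      exact ⟨hy, h⟩
    · rintro ⟨hy, h⟩
      exact ⟨⟨hy, lt_of_lt_of_le h htx⟩, h⟩
  have e2 : A ∩ Set.Iio x ∩ Set.Ici t = A ∩ Set.Ico t x := by
    ext y
    constructor
    · rintro ⟨⟨hy, h⟩, h'⟩
      exact ⟨hy, h', h⟩
    · rintro ⟨hy, h, h'⟩
      exact ⟨⟨hy, h'⟩, h⟩
  rw [e1, e2]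

theorem count (h1 : S_HTsub) (h3 : S_HTsplit) {A : Set ℝ} {α : Ordinal.{0}} (hA : HasType A α)
    (β : Ordinal.{0}) (F : Finset ℝ) : (∀ x ∈ F, x ∈ Hv A β) → ∀ c, (∀ x ∈ F, x < c) →
      ∃ t < c, ω ^ β * (F.card : Ordinal.{0}) ≤ ty (A ∩ Set.Iio t) := by
  induction F using Finset.induction_on_max with
  | empty =>
    intro _ c _
    refine ⟨c - 1, by linarith, ?_⟩
    simp
  | insert a F hF ih =>
    intro hH c hc
    obtain ⟨t, hta, ht⟩ := ih (fun x hx => hH x (Finset.mem_insert_of_mem hx)) a hF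
    refine ⟨a, hc a (Finset.mem_insert_self _ _), ?_⟩
    have ha := hH a (Finset.mem_insert_self _ _)
    rw [Finset.card_insert_of_notMem (fun h => lt_irrefl _ (hF a h))]
    rw [split2 h1 h3 hA t a hta.le]
    rw [Nat.cast_add, Nat.cast_one, mul_add, mul_one]
    exact add_le_add ht (ha.2.2 t hta)

theorem lt_mul (β : Ordinal.{0}) (n : ℕ) (ρ : Ordinal.{0}) (hρ : ρ < ω ^ β) :
    ω ^ β * (n : Ordinal.{0}) + ρ < ω ^ β * ((n + 1 : ℕ) : Ordinal.{0}) := by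
  rw [Nat.cast_add, Nat.cast_one, mul_add, mul_one]
  exact (add_lt_add_iff_left _).2 hρ

theorem fin (h1 : S_HTsub) (h3 : S_HTsplit) {A : Set ℝ} (β : Ordinal.{0}) (n : ℕ)
    (ρ : Ordinal.{0}) (hρ : ρ < ω ^ β) (hA : HasType A (ω ^ β * (n : Ordinal.{0}) + ρ)) :
    (Hv A β).Finite := by
  by_contra hinf
  obtain ⟨F, hF, hc⟩ := Set.Infinite.exists_subset_card_eq hinf (n + 1)
  obtain ⟨t, -, ht⟩ := count h1 h3 hA β F (fun x hx => hF hx) 2
    (fun x hx => by have := (hF hx).2.1; linarith)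
  rw [hc] at ht
  have h4 := ty_mono h1 hA (s := A ∩ Set.Iio t) (t := A) Set.inter_subset_left subset_rfl
  rw [ty_eq hA] at h4
  exact absurd (lt_of_le_of_lt (ht.trans h4) (lt_mul β n ρ hρ)) (lt_irrefl _)

theorem dblmap (h1 : S_HTsub) (h2 : S_HTmap) (a : ℕ → ℝ) (ha : Orb a) {α : Ordinal.{0}}
    (hA : HasType (Set.range a) α) (β : Ordinal.{0}) (x : ℝ) (hx : x ∈ Hv (Set.range a) β) :
    dbl x ∈ Hv (Set.range a) β := by
  obtain ⟨hx0, hx1, hx⟩ := hx
  by_cases h : x ≤ 1 / 2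
  · have e : dbl x = 2 * x := by unfold dbl; rw [if_pos h]
    rw [e]
    refine ⟨by linarith, by linarith, fun t ht => ?_⟩
    refine (hx (t / 2) (by linarith)).trans ?_
    refine ty_map h1 h2 hA Set.inter_subset_left Set.inter_subset_left dbl ?_ ?_
    · rintro y ⟨_, hy, hy'⟩ z ⟨_, hz, hz'⟩ hyz
      unfold dbl
      rw [if_pos (by linarith), if_pos (by linarith)]
      linarith
    · rintro y ⟨⟨i, rfl⟩, hy, hy'⟩
      refine ⟨⟨i + 1, ha.hs i⟩, ?_⟩
      have e : dbl (a i) = 2 * a i := by unfold dbl; rw [if_pos (by linarith)]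
      rw [e]
      exact ⟨by linarith, by linarith⟩
  · have e : dbl x = 2 * x - 1 := by unfold dbl; rw [if_neg h]
    rw [e]
    push Not at h
    refine ⟨by linarith, by linarith, fun t ht => ?_⟩
    refine (hx (max ((t + 1) / 2) (1 / 2)) (max_lt (by linarith) h)).trans ?_
    have key : ∀ y ∈ Set.range a, max ((t + 1) / 2) (1 / 2) ≤ y → dbl y = 2 * y - 1 := by
      rintro y ⟨i, rfl⟩ hy
      have h5 : 1 / 2 ≤ a i := (le_max_right _ _).trans hy
      have h6 : ¬ (a i ≤ 1 / 2) := fun h7 => ha.h2 i (le_antisymm h7 h5)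
      unfold dbl
      rw [if_neg h6]
    refine ty_map h1 h2 hA Set.inter_subset_left Set.inter_subset_left dbl ?_ ?_
    · rintro y ⟨hyr, hy, hy'⟩ z ⟨hzr, hz, hz'⟩ hyz
      rw [key y hyr hy, key z hzr hz]
      linarith
    · rintro y ⟨hyr, hy, hy'⟩
      have h8 := key y hyr hy
      have h9 : (t + 1) / 2 ≤ y := (le_max_left _ _).trans hy
      refine ⟨?_, ?_⟩
      · obtain ⟨i, rfl⟩ := hyr
        exact ⟨i + 1, ha.hs i⟩
      · rw [h8]
        exact ⟨by linarith, by linarith⟩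

theorem opow_pos' (β : Ordinal.{0}) : 0 < ω ^ β := opow_pos _ omega0_pos

theorem tail_eq (β x y : Ordinal.{0}) (h : ω ^ β = x + y) (hy : y ≠ 0) : y = ω ^ β := by
  have hx : x < ω ^ β := by
    rw [h]
    have : x + 0 < x + y := (add_lt_add_iff_left x).2 (pos_iff_ne_zero.2 hy)
    rwa [add_zero] at this
  have hy' : y ≤ ω ^ β := by
    rw [h]
    exact le_add_self
  rcases hy'.lt_or_eq with h' | h'
  · exfalso
    have h6 : x + y < ω ^ β := isPrincipal_add_omega0_opow β hx h'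
    rw [← h] at h6
    exact lt_irrefl _ h6
  · exact h'

theorem exist (h1 : S_HTsub) (h3 : S_HTsplit) (h4 : S_HTinit) (a : ℕ → ℝ) (ha : Orb a)
    (β : Ordinal.{0}) (hβ : 1 ≤ β) (n : ℕ) (hn : 1 ≤ n) (ρ : Ordinal.{0})
    (hA : HasType (Set.range a) (ω ^ β * (n : Ordinal.{0}) + ρ)) :
    (Hv (Set.range a) β).Nonempty := by
  set A := Set.range a with hAd
  have hle : ω ^ β ≤ ω ^ β * (n : Ordinal.{0}) + ρ := by
    have h5 : ω ^ β * ((1 : ℕ) : Ordinal.{0}) ≤ ω ^ β * (n : Ordinal.{0}) :=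
      mul_le_mul_right (by exact_mod_cast hn) _
    rw [Nat.cast_one, mul_one] at h5
    exact h5.trans le_self_add
  have hx : ∃ x ≤ (1 : ℝ), HasType (A ∩ Set.Iio x) (ω ^ β) := by
    rcases hle.lt_or_eq with h | h
    · obtain ⟨x, ⟨i, hi⟩, hx⟩ := h4 A _ _ hA h
      refine ⟨x, ?_, hx⟩
      rw [← hi]
      exact (ha.h1 i).le
    · refine ⟨1, le_refl _, ?_⟩
      have e : A ∩ Set.Iio 1 = A := by
        apply Set.inter_eq_left.2
        rintro y ⟨i, rfl⟩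
        exact ha.h1 i
      rw [e, h]
      exact hA
  obtain ⟨x, hx1, hx⟩ := hx
  set B := A ∩ Set.Iio x with hB
  have hBA : B ⊆ A := Set.inter_subset_left
  have tyB : ty B = ω ^ β := ty_eq hx
  have hne : ∀ s : Set ℝ, s.Nonempty → s ⊆ A → ty s ≠ 0 := by
    intro s hs hsA h0
    have h5 := ty_spec h1 hA hsA
    rw [h0] at h5
    obtain ⟨w, e⟩ := h5
    rw [Ordinal.type_eq_zero_iff_isEmpty] at e
    obtain ⟨y, hy⟩ := hs
    exact e.false ⟨y, hy⟩
  have hBn : B.Nonempty := by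
    by_contra h
    rw [Set.not_nonempty_iff_eq_empty] at h
    rw [h] at hx
    obtain ⟨w, e⟩ := hx
    have h0 : (type (fun x y : (∅ : Set ℝ) => x < y)) = 0 := by
      rw [Ordinal.type_eq_zero_iff_isEmpty]
      infer_instance
    rw [h0] at e
    exact (opow_pos' β).ne e
  have hBb : BddAbove B := ⟨x, fun y hy => hy.2.le⟩
  have htail : ∀ y ∈ B, ty (B ∩ Set.Ici y) = ω ^ β := by
    intro y hy
    have h5 := ty_split h1 h3 hA hBA y
    rw [tyB] at h5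
    exact tail_eq β _ _ h5 (hne _ ⟨y, hy, Set.mem_Ici.2 le_rfl⟩ (Set.inter_subset_left.trans hBA))
  have hqB : sSup B ∉ B := by
    intro h
    have h5 := htail _ h
    have e : B ∩ Set.Ici (sSup B) = {sSup B} := by
      ext y
      constructor
      · rintro ⟨hy, hy'⟩
        exact le_antisymm (le_csSup hBb hy) hy'
      · intro hy
        rw [Set.mem_singleton_iff] at hy
        rw [hy]
        exact ⟨h, Set.mem_Ici.2 le_rfl⟩
    rw [e] at h5
    have h6 : HasType {sSup B} (ω ^ β) := by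
      rw [← h5]
      apply ty_spec h1 hA
      rw [Set.singleton_subset_iff]
      exact hBA h
    obtain ⟨w, e6⟩ := h6
    have h7 : (type (fun x y : ({sSup B} : Set ℝ) => x < y)) = 1 := by
      exact Ordinal.type_eq_one_of_unique _
    rw [h7] at e6
    have h8 : ω ^ (1 : Ordinal.{0}) ≤ ω ^ β := opow_le_opow_right omega0_pos hβ
    rw [← e6, opow_one] at h8
    exact absurd (lt_of_lt_of_le one_lt_omega0 h8) (lt_irrefl _)
  refine ⟨sSup B, ?_, ?_, ?_⟩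
  · obtain ⟨y, hy⟩ := hBn
    have h5 : y ≤ sSup B := le_csSup hBb hy
    obtain ⟨i, hi⟩ := hBA hy
    have := ha.h0 i
    rw [hi] at this
    linarith
  · exact (csSup_le hBn (fun y hy => hy.2.le)).trans hx1
  · intro t ht
    obtain ⟨y, hy, hty⟩ := exists_lt_of_lt_csSup hBn ht
    rw [← htail y hy]
    refine ty_mono h1 hA ?_ Set.inter_subset_left
    rintro z ⟨hz, hz'⟩
    refine ⟨hBA hz, hty.le.trans hz', lt_of_le_of_ne (le_csSup hBb hz) ?_⟩
    intro h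
    rw [h] at hz
    exact hqB hz

theorem top (h1 : S_HTsub) (h3 : S_HTsplit) (h4 : S_HTinit) {A : Set ℝ} (β : Ordinal.{0}) (n : ℕ)
    (ρ : Ordinal.{0}) (hρ : ρ < ω ^ β) (hA : HasType A (ω ^ β * (n : Ordinal.{0}) + ρ))
    (p : ℝ) (hp : p ∈ Hv A β) :
    ∃ t < p, ∀ t', t ≤ t' → t' < p → HasType (A ∩ Set.Ico t' p) (ω ^ β) := by
  obtain ⟨_, _, hp⟩ := hp
  -- minimal value
  obtain ⟨γ, ⟨t, ht, htγ⟩, hmin⟩ : ∃ γ, (∃ t < p, ty (A ∩ Set.Ico t p) = γ) ∧
      ∀ t' < p, γ ≤ ty (A ∩ Set.Ico t' p) := by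
    have hne : {γ | ∃ t < p, ty (A ∩ Set.Ico t p) = γ}.Nonempty :=
      ⟨_, p - 1, by linarith, rfl⟩
    refine ⟨sInf {γ | ∃ t < p, ty (A ∩ Set.Ico t p) = γ}, csInf_mem hne, fun t' ht' => ?_⟩
    exact csInf_le' ⟨t', ht', rfl⟩
  have hconst : ∀ t', t ≤ t' → t' < p → ty (A ∩ Set.Ico t' p) = γ := by
    intro t' h h'
    refine le_antisymm ?_ (hmin t' h')
    rw [← htγ]
    exact ty_mono h1 hA (Set.inter_subset_inter_right _ (Set.Ico_subset_Ico_left h))
      Set.inter_subset_left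
  have hγ : γ = ω ^ β := by
    by_contra hne
    have hlt : ω ^ β < γ := by
      refine lt_of_le_of_ne ?_ (Ne.symm hne)
      rw [← htγ]
      exact hp t ht
    have hS := ty_spec h1 hA (s := A ∩ Set.Ico t p) Set.inter_subset_left
    rw [htγ] at hS
    obtain ⟨x, ⟨hxA, hx1, hx2⟩, hx⟩ := h4 _ _ _ hS hlt
    have hsp := ty_split h1 h3 hA (s := A ∩ Set.Ico t p) Set.inter_subset_left x
    rw [htγ, ty_eq hx] at hsp
    have e : A ∩ Set.Ico t p ∩ Set.Ici x = A ∩ Set.Ico x p := by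
      ext y
      constructor
      · rintro ⟨⟨hy, h, h'⟩, h''⟩
        exact ⟨hy, h'', h'⟩
      · rintro ⟨hy, h, h'⟩
        exact ⟨⟨hy, hx1.trans h, h'⟩, h⟩
    rw [e, hconst x hx1 hx2] at hsp
    have hk : ∀ k : ℕ, ω ^ β * (k : Ordinal.{0}) ≤ γ := by
      intro k
      induction k with
      | zero => simp
      | succ k ih =>
        have h5 : ((k + 1 : ℕ) : Ordinal.{0}) = 1 + (k : Ordinal.{0}) := by
          rw [Nat.add_comm k 1, Nat.cast_add, Nat.cast_one]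
        rw [h5, mul_add, mul_one]
        calc ω ^ β + ω ^ β * (k : Ordinal.{0}) ≤ ω ^ β + γ := add_le_add le_rfl ih
          _ = γ := hsp.symm
    have h6 := hk (n + 1)
    have h7 : γ ≤ ω ^ β * (n : Ordinal.{0}) + ρ := by
      rw [← htγ, ← ty_eq hA]
      exact ty_mono h1 hA Set.inter_subset_left subset_rfl
    exact absurd (lt_of_le_of_lt (h6.trans h7) (lt_mul β n ρ hρ)) (lt_irrefl _)
  refine ⟨t, ht, fun t' h h' => ?_⟩
  rw [← hγ, ← hconst t' h h']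
  exact ty_spec h1 hA Set.inter_subset_left

end NC

theorem t_NC (h1 : S_HTsub) (h2 : S_HTmap) (h3 : S_HTsplit) (h4 : S_HTinit) : S_NC := by
  intro a ha β n ρ hβ hn hρ hA
  obtain ⟨x, hx⟩ := NC.exist h1 h3 h4 a ha β hβ n hn ρ hA
  have hfin := NC.fin h1 h3 β n ρ hρ hA
  have hit : ∀ k : ℕ, dbl^[k] x ∈ NC.Hv (Set.range a) β := by
    intro k
    induction k with
    | zero => exact hx
    | succ k ih =>
      rw [Function.iterate_succ_apply']
      exact NC.dblmap h1 h2 a ha hA β _ ih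
  obtain ⟨i, j, hij, e⟩ := hfin.exists_lt_map_eq_of_forall_mem hit
  obtain ⟨t, ht, htt⟩ := NC.top h1 h3 h4 β n ρ hρ hA _ (hit i)
  refine ⟨dbl^[i] x, j - i, (hit i).1, (hit i).2.1, by omega, ?_, t, ht, htt⟩
  rw [← Function.iterate_add_apply, Nat.sub_add_cancel hij.le]
  exact e.symm

end Pool.Agent.H560R3.SO
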