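import Pool.Agent.H560R3.SO.Stm

/-! Task ND: a periodic point of top rank forces `β = μ + 1` with `μ ≥ 1`. -/

set_option autoImplicit false

namespace Pool.Agent.H560R3.SO

open Ordinal

namespace ND

lemma HasType.unique {s : Set ℝ} {α β : Ordinal.{0}} (h : HasType s α) (h' : HasType s β) :
    α = β := by
  obtain ⟨_, h⟩ := h
  obtain ⟨_, h'⟩ := h'
  rw [← h, ← h']

/-- the iterates of `dbl` to the left of a point -/
lemma iter_left (m : ℕ) : ∀ p : ℝ, ∃ δ : ℝ, 0 < δ ∧ ∀ d, 0 ≤ d → d < δ →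
    dbl^[m] (p - d) = dbl^[m] p - 2 ^ m * d := by
  induction m with
  | zero => exact fun p => ⟨1, one_pos, fun d _ _ => by simp⟩
  | succ m ih =>
    intro p
    obtain ⟨δ, hδ, h⟩ := ih (dbl p)
    have h1 : ∃ δ' : ℝ, 0 < δ' ∧ ∀ d, 0 ≤ d → d < δ' → dbl (p - d) = dbl p - 2 * d := by
      by_cases hp : p ≤ 1 / 2
      · refine ⟨1, one_pos, fun d hd _ => ?_⟩
        have : p - d ≤ 1 / 2 := by linarith
        unfold dbl
        rw [if_pos this, if_pos hp]
        ring
      · refine ⟨p - 1 / 2, by rw [not_le] at hp; linarith, fun d hd hd' => ?_⟩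
        have : ¬ (p - d ≤ 1 / 2) := by
          rw [not_le] at hp ⊢
          linarith
        unfold dbl
        rw [if_neg this, if_neg hp]
        ring
    obtain ⟨δ', hδ', h'⟩ := h1
    refine ⟨min δ' (δ / 2), lt_min hδ' (by linarith), fun d hd hd' => ?_⟩
    have hd1 : d < δ' := lt_of_lt_of_le hd' (min_le_left _ _)
    have hd2 : d < δ / 2 := lt_of_lt_of_le hd' (min_le_right _ _)
    rw [Function.iterate_succ_apply, Function.iterate_succ_apply, h' d hd hd1,
      h (2 * d) (by linarith) (by linarith)]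
    ring

lemma iter_orb {a : ℕ → ℝ} (ha : Orb a) (m i : ℕ) : dbl^[m] (a i) = a (i + m) := by
  induction m with
  | zero => simp
  | succ m ih =>
    rw [Function.iterate_succ_apply', ih, ← ha.hs]
    rfl

lemma finite_of_type {s : Set ℝ} {n : ℕ} (h : HasType s (n : Ordinal.{0})) :
    s.Finite ∧ s.ncard = n := by
  obtain ⟨_, h⟩ := h
  have h1 : Cardinal.mk s = n := by
    have := congrArg Ordinal.card h
    simpa using this
  have h2 : s.Finite := by
    rw [← Set.finite_coe_iff, ← Cardinal.lt_aleph0_iff_finite, h1]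
    exact Cardinal.natCast_lt_aleph0
  refine ⟨h2, ?_⟩
  have : (s.ncard : Cardinal) = n := by
    rw [← h1, Set.cast_ncard h2]
  exact_mod_cast this

lemma mul_omega {τ : Ordinal.{0}} (hτ : τ ≠ 0) : τ * ω = ω ^ (log ω τ + 1) := by
  have h1 : ω ^ log ω τ ≤ τ := opow_log_le_self ω hτ
  have h2 : τ < ω ^ (log ω τ + 1) := by
    have := lt_opow_succ_log_self one_lt_omega0 τ
    simpa using this
  apply le_antisymm
  · have h3 : ω ^ (log ω τ + 1) = ω ^ (log ω τ) * ω := by
      rw [← Order.succ_eq_add_one, opow_succ]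
    rw [h3] at h2 ⊢
    obtain ⟨c, hc, hc'⟩ := (lt_mul_iff_of_isSuccLimit isSuccLimit_omega0).1 h2
    obtain ⟨n, rfl⟩ := lt_omega0.1 hc
    have hn : 0 < n := by
      rcases Nat.eq_zero_or_pos n with rfl | h
      · simp at hc'
      · exact h
    calc τ * ω ≤ (ω ^ log ω τ * (n : Ordinal.{0})) * ω := mul_le_mul_left hc'.le ω
      _ = ω ^ log ω τ * ω := by
        rw [mul_assoc, natCast_mul_omega0 hn]
  · rw [← Order.succ_eq_add_one, opow_succ]
    exact mul_le_mul_left h1 ω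

end ND

open ND in
theorem t_ND (h1 : S_HTsub) (h2 : S_HTmap) (_h3 : S_HTsplit) (h4 : S_HTsum) : S_ND := by
  intro a ha β p m t hβ hp0 hp1 hm hper ht hT
  obtain ⟨δ, hδ, hδ'⟩ := iter_left m p
  rw [hper] at hδ'
  set A := Set.range a with hA
  obtain ⟨ε, hε, hε1, hε2⟩ : ∃ ε : ℝ, 0 < ε ∧ ε < δ ∧ ε ≤ p - t :=
    ⟨min (δ / 2) (p - t), lt_min (by linarith) (by linarith),
      lt_of_le_of_lt (min_le_left _ _) (by linarith), min_le_right _ _⟩
  set M : ℝ := 2 ^ m with hM
  have hM2 : 2 ≤ M := by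
    calc (2 : ℝ) = 2 ^ 1 := by norm_num
      _ ≤ 2 ^ m := pow_le_pow_right₀ (by norm_num) hm
  have hM0 : 0 < M := by linarith
  set c : ℕ → ℝ := fun k => p - ε / M ^ k with hc
  have hcs : StrictMono c := by
    refine strictMono_nat_of_lt_succ fun k => ?_
    simp only [hc]
    have : ε / M ^ (k + 1) < ε / M ^ k := by
      apply div_lt_div_of_pos_left hε (pow_pos hM0 _)
      exact pow_lt_pow_right₀ (by linarith) (Nat.lt_succ_self k)
    linarith
  have hcp : ∀ k, c k < p := fun k => by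
    have : 0 < ε / M ^ k := div_pos hε (pow_pos hM0 _)
    simp only [hc]
    linarith
  have hct : ∀ k, t ≤ c k := fun k => by
    have : ε / M ^ k ≤ ε := div_le_self hε.le (one_le_pow₀ (by linarith))
    simp only [hc]
    linarith
  have hcl : ∀ x < p, ∃ n, x < c n := by
    intro x hx
    obtain ⟨n, hn⟩ := pow_unbounded_of_one_lt (ε / (p - x)) (by linarith : (1 : ℝ) < M)
    refine ⟨n, ?_⟩
    simp only [hc]
    have h0 : 0 < p - x := by linarith
    rw [div_lt_iff₀ h0] at hn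
    have : ε / M ^ n < p - x := by
      rw [div_lt_iff₀ (pow_pos hM0 _)]
      linarith
    linarith
  have hsub : ∀ k, ∃ τ : Ordinal.{0}, HasType (A ∩ Set.Ico (c k) (c (k + 1))) τ := by
    intro k
    obtain ⟨τ, _, hτ⟩ := h1 _ (A ∩ Set.Ico (c k) (c (k + 1))) _ (by
      intro x hx
      exact ⟨hx.1, hx.2.1, hx.2.2.trans (hcp _)⟩) (hT (c k) (hct k) (hcp k))
    exact ⟨τ, hτ⟩
  choose τ hτ using hsub
  have hmaps : ∀ k, Set.MapsTo (dbl^[m]) (A ∩ Set.Ico (c (k + 1)) (c (k + 2)))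
      (A ∩ Set.Ico (c k) (c (k + 1))) := by
    rintro k x ⟨⟨i, rfl⟩, hx1, hx2⟩
    refine ⟨⟨i + m, (iter_orb ha m i).symm⟩, ?_⟩
    have hx3 : a i = p - (p - a i) := by ring
    simp only [hc] at hx1 hx2
    have e1 : ε / M ^ k = M * (ε / M ^ (k + 1)) := by
      rw [pow_succ]
      field_simp
    have e2 : ε / M ^ (k + 1) = M * (ε / M ^ (k + 2)) := by
      rw [pow_succ M (k + 1)]
      field_simp
    have hle : ε / M ^ (k + 1) ≤ ε := div_le_self hε.le (one_le_pow₀ (by linarith))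
    have hd0 : 0 ≤ p - a i := by
      have : 0 < ε / M ^ (k + 2) := div_pos hε (pow_pos hM0 _)
      linarith
    have hd1 : p - a i < δ := by linarith
    have hx4 : dbl^[m] (a i) = p - M * (p - a i) := by
      conv_lhs => rw [hx3]
      exact hδ' _ hd0 hd1
    rw [hx4]
    constructor
    · simp only [hc]
      rw [e1]
      have := mul_le_mul_of_nonneg_left (show p - a i ≤ ε / M ^ (k + 1) by linarith) hM0.le
      linarith
    · simp only [hc]
      rw [e2]
      have := mul_lt_mul_of_pos_left (show ε / M ^ (k + 2) < p - a i by linarith) hM0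
      linarith
  have hmono : ∀ k, StrictMonoOn (dbl^[m]) (A ∩ Set.Ico (c k) (c (k + 1))) := by
    intro k x hx y hy hxy
    have key : ∀ x, x ∈ A ∩ Set.Ico (c k) (c (k + 1)) → dbl^[m] x = p - M * (p - x) := by
      intro x hx
      have h5 := hx.2.1
      have h6 := hx.2.2.trans (hcp _)
      simp only [hc] at h5
      have hle : ε / M ^ k ≤ ε := div_le_self hε.le (one_le_pow₀ (by linarith))
      have := hδ' (p - x) (by linarith) (by linarith)
      rwa [show p - (p - x) = x by ring] at this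
    rw [key x hx, key y hy]
    have := mul_lt_mul_of_pos_left hxy hM0
    linarith
  have hanti : ∀ k, τ (k + 1) ≤ τ k := fun k =>
    h2 _ _ _ _ (dbl^[m]) (hτ (k + 1)) (hτ k) (hmono (k + 1)) (hmaps k)
  have hanti' : Antitone τ := antitone_nat_of_succ_le hanti
  obtain ⟨K, hK⟩ : ∃ K, ∀ k ≥ K, τ k = τ K := by
    obtain ⟨_, ⟨K, rfl⟩, hmin⟩ := Ordinal.lt_wf.has_min (Set.range τ) ⟨τ 0, 0, rfl⟩
    exact ⟨K, fun k hk => le_antisymm (hanti' hk) (not_lt.1 (hmin _ ⟨k, rfl⟩))⟩
  have hsum : HasType (A ∩ Set.Ico (c K) p) (τ K * ω) := by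
    refine h4 _ (fun n => c (K + n)) p (τ K) (fun i j hij => hcs (by omega)) (fun n => hcp _)
      (fun x hx => ?_) (fun x hx => hx.2) (fun n => ?_)
    · obtain ⟨n, hn⟩ := hcl x hx
      exact ⟨n, hn.trans_le (hcs.monotone (by omega))⟩
    · have : A ∩ Set.Ico (c K) p ∩ Set.Ico (c (K + n)) (c (K + (n + 1))) =
          A ∩ Set.Ico (c (K + n)) (c (K + n + 1)) := by
        ext x
        constructor
        · exact fun hx => ⟨hx.1.1, hx.2⟩
        · exact fun hx => ⟨⟨hx.1, (hcs.monotone (by omega)).trans hx.2.1, hx.2.2.trans (hcp _)⟩,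
            hx.2⟩
      rw [this, ← hK (K + n) (by omega)]
      exact hτ (K + n)
  have heq : τ K * ω = ω ^ β := HasType.unique hsum (hT _ (hct K) (hcp K))
  have hτ0 : τ K ≠ 0 := by
    intro h
    rw [h, zero_mul] at heq
    exact (opow_pos β omega0_pos).ne heq
  rw [mul_omega hτ0] at heq
  have hβμ : β = log ω (τ K) + 1 := ((opow_right_inj one_lt_omega0).1 heq).symm
  refine ⟨log ω (τ K), ?_, hβμ⟩
  by_contra hμ
  have hμ0 : log ω (τ K) = 0 := Order.lt_one_iff.1 (not_le.1 hμ)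
  have hfin : τ K < ω := by
    have := lt_opow_succ_log_self one_lt_omega0 (τ K)
    rw [hμ0] at this
    simpa using this
  obtain ⟨n, hn⟩ := lt_omega0.1 hfin
  have hB : ∀ k ≥ K, (A ∩ Set.Ico (c k) (c (k + 1))).Finite ∧
      (A ∩ Set.Ico (c k) (c (k + 1))).ncard = n := by
    intro k hk
    apply finite_of_type
    rw [← hn, ← hK k hk]
    exact hτ k
  have hsurj : ∀ k ≥ K, ∀ x ∈ A ∩ Set.Ico (c k) (c (k + 1)),
      ∃ y ∈ A ∩ Set.Ico (c (k + 1)) (c (k + 2)), dbl^[m] y = x := by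
    intro k hk x hx
    have hinj := (hmono (k + 1)).injOn
    have himg : dbl^[m] '' (A ∩ Set.Ico (c (k + 1)) (c (k + 2))) =
        A ∩ Set.Ico (c k) (c (k + 1)) := by
      refine Set.eq_of_subset_of_ncard_le (Set.image_subset_iff.2 (hmaps k)) ?_ (hB k hk).1
      have e1 := (hB k hk).2
      have e2 := (hB (k + 1) (by omega)).2
      have e3 := hinj.ncard_image
      exact (e1.trans e2.symm).le.trans e3.symm.le
    rw [← himg] at hx
    exact hx
  have hn0 : n ≠ 0 := by
    rintro rfl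
    exact hτ0 (by simpa using hn)
  obtain ⟨x, hx⟩ : (A ∩ Set.Ico (c K) (c (K + 1))).Nonempty := by
    rw [← Set.ncard_pos (hB K le_rfl).1, (hB K le_rfl).2]
    omega
  have hiter : ∀ j : ℕ, ∃ y ∈ A ∩ Set.Ico (c (K + j)) (c (K + j + 1)), dbl^[m * j] y = x := by
    intro j
    induction j with
    | zero => exact ⟨x, hx, by simp⟩
    | succ j ih =>
      obtain ⟨y, hy, hyx⟩ := ih
      obtain ⟨z, hz, hzy⟩ := hsurj (K + j) (by omega) y hy
      refine ⟨z, hz, ?_⟩
      rw [Nat.mul_succ, Function.iterate_add_apply, hzy, hyx]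
  obtain ⟨i, hi⟩ := hx.1
  obtain ⟨y, ⟨⟨l, rfl⟩, _⟩, hy⟩ := hiter (i + 1)
  rw [iter_orb ha, ← hi] at hy
  have := ha.hi hy
  nlinarith

end Pool.Agent.H560R3.SO
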