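import Pool.Agent.H560R3.SO.Stm

set_option autoImplicit false

namespace Pool.Agent.H560R3.SO

open Ordinal

theorem t_NE : S_NE := by
  intro α hα
  have hα0 : α ≠ 0 := by
    rintro rfl
    exact absurd hα (not_le.mpr omega0_pos)
  have h1 : Ordinal.log ω α ≠ 0 := by
    have := Ordinal.log_pos one_lt_omega0 hα0 hα
    exact this.ne'
  have h2 : α / ω ^ Ordinal.log ω α < ω := Ordinal.div_opow_log_lt α one_lt_omega0
  obtain ⟨n, hn⟩ := lt_omega0.1 h2
  have h3 : 0 < α / ω ^ Ordinal.log ω α := Ordinal.div_opow_log_pos ω hα0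
  have hpos : (ω : Ordinal.{0}) ^ Ordinal.log ω α ≠ 0 := (opow_pos _ omega0_pos).ne'
  refine ⟨Ordinal.log ω α, n, α % ω ^ Ordinal.log ω α, Ordinal.one_le_iff_ne_zero.2 h1, ?_,
    Ordinal.mod_lt _ hpos, ?_⟩
  · rw [hn] at h3
    exact_mod_cast h3
  · rw [← hn, Ordinal.div_add_mod]

end Pool.Agent.H560R3.SO
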