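import Pool.Agent.H560R3.SO.Stm

set_option autoImplicit false

namespace Pool.Agent.H560R3.SO

open Ordinal

theorem t_NEC (hNA : S_NA) (hNB : S_NB) (hNC : S_NC) (hND : S_ND) (hNE : S_NE)
    (hHT : S_HTcount) : S_NEC := by
  intro b α hα
  have hα0 := hα
  obtain ⟨hw, hty⟩ := hα
  have hcard : α.card = Cardinal.mk (shiftSet b) := by
    rw [← hty, card_type]
  by_cases hfin : (shiftSet b).Finite
  · left
    have hlt : α < ω := by
      rw [← card_lt_aleph0, hcard]
      exact Cardinal.lt_aleph0_iff_set_finite.2 hfin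
    obtain ⟨n, hn⟩ := lt_omega0.1 hlt
    refine ⟨n, ?_, hn⟩
    rcases Nat.eq_zero_or_pos n with h0 | h0
    · exfalso
      rw [h0] at hn
      have h1 : Cardinal.mk (shiftSet b) = 0 := by
        rw [← hcard, hn]; simp
      have h2 : Nonempty (shiftSet b) := ⟨⟨sv b 0, ⟨0, rfl⟩⟩⟩
      exact (Cardinal.mk_ne_zero_iff.2 h2) h1
    · exact h0
  · right
    have hinf : (shiftSet b).Infinite := hfin
    have hOrb := hNA b hinf
    have hge : ω ≤ α := by
      by_contra hcon
      push Not at hcon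
      rw [← card_lt_aleph0, hcard] at hcon
      exact hfin (Cardinal.lt_aleph0_iff_set_finite.1 hcon)
    obtain ⟨β, n, ρ, hβ, hn, hρ, he⟩ := hNE α hge
    have hT : HasType (Set.range (sv b)) (ω ^ β * (n : Ordinal.{0}) + ρ) := by
      rw [← he]; exact hα0
    obtain ⟨p, m, hp0, hp1, hm, hpm, t, ht, htt⟩ := hNC (sv b) hOrb β n ρ hβ hn hρ hT
    obtain ⟨μ, hμ, hβμ⟩ := hND (sv b) hOrb β p m t hβ hp0 hp1 hm hpm ht htt
    subst hβμ
    refine ⟨μ, n, ρ, hμ, ?_, hn, hρ, ?_, he⟩
    · have h1 : α.card ≤ Cardinal.aleph0 :=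
        hHT (shiftSet b) α (Set.countable_range _) hα0
      have h2 : μ ≤ α := by
        have h3 : μ + 1 ≤ ω ^ (μ + 1) := right_le_opow _ one_lt_omega0
        have h4 : ω ^ (μ + 1) ≤ ω ^ (μ + 1) * (n : Ordinal.{0}) := by
          have : (ω ^ (μ + 1) : Ordinal.{0}) * ((1 : ℕ) : Ordinal.{0}) ≤
              ω ^ (μ + 1) * (n : Ordinal.{0}) := by
            apply mul_le_mul_right
            exact_mod_cast hn
          simpa using this
        have h5 : μ ≤ μ + 1 := le_self_add
        rw [he]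
        exact h5.trans (h3.trans (h4.trans le_self_add))
      exact (card_le_card h2).trans h1
    · intro h1
      subst h1
      refine hNB (sv b) hOrb (μ + 1) ρ hβ hρ ?_
      simpa using hT

end Pool.Agent.H560R3.SO
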