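import Pool.Agent.H560R3.SO.TL

set_option autoImplicit false

namespace Pool.Agent.H560R3.SO

namespace NF

open TL

theorem find_block {p : ℕ} {k c : ℕ → ℕ} {b : ℕ → Bool} {pos : ℕ → ℕ} (hB : Bin p k c b pos)
    (n : ℕ) : ∃ i, pos i ≤ n ∧ n < pos (i + 1) := by
  have h0 := hB.h0
  induction n with
  | zero => exact ⟨0, by omega, by have := hB.hs 0; omega⟩
  | succ n ih =>
    obtain ⟨j, h1, h2⟩ := ih
    by_cases h : n + 1 < pos (j + 1)
    · exact ⟨j, by omega, h⟩
    · exact ⟨j + 1, by omega, by have := hB.hs (j + 1); omega⟩

theorem fin {p : ℕ} {k c : ℕ → ℕ} {b : ℕ → Bool} {pos : ℕ → ℕ} (hB : Bin p k c b pos)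
    (n z i : ℕ) (hz : z + 1 ≤ p)
    (ho : Occ b n (List.replicate z false ++ (false :: List.replicate (c i) true)))
    (he : n + z + 1 + c i = pos (i + 1)) :
    (∃ z j i, Low p k c b pos n z j i) ∨ (∃ z q i, High p c b pos n z q i) := by
  have hw : List.replicate z false ++ (false :: List.replicate (c i) true) =
      List.replicate (z + 1) false ++ List.replicate (c i) true := by
    rw [List.replicate_succ', List.append_assoc]
    rfl
  rw [hw] at ho
  rcases Nat.eq_zero_or_pos (c i) with h | h
  · left
    refine ⟨z + 1, k (i + 1), i + 1, hB.hk _, le_rfl, hz, fun _ => rfl, ?_, ?_⟩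
    · have h1 := occ_left ho
      have h2 := hB.ho (i + 1)
      unfold blk at h2
      rw [List.append_assoc]
      refine occ_append h1 ?_
      rw [List.length_replicate, show n + (z + 1) = pos (i + 1) by omega]
      exact h2
    · have := hB.hs (i + 1)
      omega
  · right
    exact ⟨z + 1, c i, i, h, le_rfl, hz, ho, by omega⟩

end NF

open TL NF

theorem t_NF : S_NF := by
  intro p k c b pos hB n
  have hp := hB.hp
  obtain ⟨i, hi1, hi2⟩ := find_block hB n
  obtain ⟨o, rfl⟩ := Nat.exists_eq_add_of_le hi1
  have hs := hB.hs i
  have hocc := hB.ho i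
  unfold blk at hocc
  rcases Nat.lt_or_ge o (p * k i) with h | h
  · -- inside the first part of the block
    obtain ⟨r, q, hor, hmod, hr⟩ : ∃ r q, o = p * r + q ∧ q < p ∧ r < k i :=
      ⟨o / p, o % p, (Nat.div_add_mod o p).symm, Nat.mod_lt o hp,
        (Nat.div_lt_iff_lt_mul hp).2 (by rwa [mul_comm])⟩
    clear h
    obtain ⟨s, hs2⟩ := Nat.exists_eq_add_of_lt hr
    -- k i = r + s + 1
    have hk : k i = r + (s + 1) := by omega
    rw [hk, up_add, List.append_assoc] at hocc
    have h1 := occ_right hocc
    rw [up_length p hp] at h1
    have hpk : p * k i = p * r + p * s + p := by rw [hk]; ring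
    rcases Nat.eq_zero_or_pos q with hq | hq
    · left
      refine ⟨0, s + 1, i, by omega, by omega, by omega, fun h => by omega, ?_, ?_⟩
      · rw [List.replicate_zero, List.nil_append, show pos i + o = pos i + p * r by omega]
        exact h1
      · have : p * (s + 1) = p * s + p := by ring
        omega
    · rw [up_succ, List.append_assoc] at h1
      have hu : uw p = (true :: List.replicate (q - 1) false) ++ List.replicate (p - q) false := by
        unfold uw
        rw [List.cons_append, List.replicate_append_replicate]
        congr 2
        omega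
      rw [hu, List.append_assoc] at h1
      have h2 := occ_right h1
      rw [List.length_cons, List.length_replicate,
        show pos i + p * r + (q - 1 + 1) = pos i + o by omega] at h2
      rcases Nat.eq_zero_or_pos s with hs0 | hs0
      · rw [hs0, up_zero, List.nil_append] at h2
        refine fin hB _ (p - q) i (by omega) h2 ?_
        rw [hs0] at hpk
        omega
      · left
        refine ⟨p - q, s, i, hs0, by omega, by omega, fun h => by omega, ?_, ?_⟩
        · rw [List.append_assoc]; exact h2
        · omega
  · rcases Nat.eq_or_lt_of_le h with h' | h'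
    · have h1 := occ_right hocc
      rw [up_length p hp, h'] at h1
      exact fin hB _ 0 i (by omega) h1 (by omega)
    · right
      have h1 := occ_tail (occ_right hocc)
      rw [up_length p hp] at h1
      obtain ⟨d, hd⟩ := Nat.exists_eq_add_of_lt h'
      have hc : List.replicate (c i) true = List.replicate d true ++ List.replicate (c i - d) true := by
        rw [List.replicate_append_replicate]
        congr 1
        omega
      rw [hc] at h1
      have h2 := occ_right h1
      rw [List.length_replicate, show pos i + p * k i + 1 + d = pos i + o by omega] at h2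
      refine ⟨0, c i - d, i, by omega, by omega, by omega, ?_, by omega⟩
      rw [List.replicate_zero, List.nil_append]
      exact h2

end Pool.Agent.H560R3.SO
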