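import Pool.Agent.H560R3.SO.Stm

/-!
Rank function of the positions of the sequence `k` (task RK of helper560, by helper632).
-/

set_option autoImplicit false

namespace Pool.Agent.H560R3.SO

open Ordinal

namespace RK

noncomputable def wt (e : ℕ → Ordinal.{0}) (E : Ordinal.{0}) (x : ℕ) : Ordinal.{0} :=
  if x % 2 = 1 then 1 else if x = 0 ∨ ¬ (e (x / 2 - 1) < E) then 0 else ω ^ e (x / 2 - 1)

noncomputable def bt (e : ℕ → Ordinal.{0}) (E : Ordinal.{0}) : ℕ → Ordinal.{0}
  | 0 => 0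
  | x + 1 => bt e E x + wt e E x

noncomputable def fr (e : ℕ → Ordinal.{0}) : List ℕ → Ordinal.{0} → ℕ → Ordinal.{0}
  | [], E, J => bt e E (2 * J + 1)
  | v :: σ, E, J => bt e E (2 * v + 2) + fr e σ (e v) J

theorem bt_mono (e : ℕ → Ordinal.{0}) (E : Ordinal.{0}) {x y : ℕ} (h : x ≤ y) :
    bt e E x ≤ bt e E y := by
  induction y, h using Nat.le_induction with
  | base => exact le_rfl
  | succ n _ ih => exact ih.trans (by rw [bt]; exact le_self_add)

theorem wt_lt (e : ℕ → Ordinal.{0}) (E : Ordinal.{0}) (hE : 1 ≤ E) (x : ℕ) :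
    wt e E x < ω ^ E := by
  unfold wt
  split_ifs with h1 h2
  · calc (1 : Ordinal.{0}) < ω := Ordinal.one_lt_omega0
      _ = ω ^ (1 : Ordinal.{0}) := (Ordinal.opow_one _).symm
      _ ≤ ω ^ E := Ordinal.opow_le_opow_right Ordinal.omega0_pos hE
  · exact Ordinal.opow_pos _ Ordinal.omega0_pos
  · push Not at h2
    exact (Ordinal.opow_lt_opow_iff_right Ordinal.one_lt_omega0).2 h2.2

theorem bt_lt (e : ℕ → Ordinal.{0}) (E : Ordinal.{0}) (hE : 1 ≤ E) (x : ℕ) :
    bt e E x < ω ^ E := by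
  induction x with
  | zero => rw [bt]; exact Ordinal.opow_pos _ Ordinal.omega0_pos
  | succ n ih => rw [bt]; exact Ordinal.isPrincipal_add_omega0_opow E ih (wt_lt e E hE n)

theorem pth_tail {μ : Ordinal.{0}} {e : ℕ → Ordinal.{0}} {v : ℕ} {σ : List ℕ}
    (h : Pth μ e (v :: σ)) : Pth (e v) e σ := by
  obtain ⟨_, h2⟩ := h
  rw [List.pairwise_cons] at h2
  exact ⟨h2.1, h2.2⟩

theorem pth_drop {μ : Ordinal.{0}} {e : ℕ → Ordinal.{0}} {σ : List ℕ} (o : ℕ)
    (h : Pth μ e σ) : Pth μ e (σ.drop o) :=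
  ⟨fun v hv => h.1 v (List.mem_of_mem_drop hv), h.2.sublist (List.drop_sublist o σ)⟩

theorem fr_lt (e : ℕ → Ordinal.{0}) (he : ∀ v, 1 ≤ e v) (J : ℕ) : ∀ (σ : List ℕ) (E : Ordinal.{0}),
    1 ≤ E → Pth E e σ → fr e σ E J < ω ^ E
  | [], E, hE, _ => by rw [fr]; exact bt_lt e E hE _
  | v :: σ, E, hE, h => by
      rw [fr]
      refine Ordinal.isPrincipal_add_omega0_opow E (bt_lt e E hE _) ?_
      refine (fr_lt e he J σ (e v) (he v) (pth_tail h)).trans_le ?_
      exact Ordinal.opow_le_opow_right Ordinal.omega0_pos (h.1 v (by simp)).le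

/-- head symbol -/
def hd : List ℕ → ℕ → ℕ
  | [], J => 2 * J + 1
  | v :: _, _ => 2 * v + 2

theorem wt_even (e : ℕ → Ordinal.{0}) (E : Ordinal.{0}) (v : ℕ) (h : e v < E) :
    wt e E (2 * v + 2) = ω ^ e v := by
  unfold wt
  have h1 : (2 * v + 2) / 2 - 1 = v := by omega
  rw [h1, if_neg (by omega), if_neg]
  push Not
  exact ⟨by omega, h⟩

theorem hd_le (e : ℕ → Ordinal.{0}) (σ : List ℕ) (E : Ordinal.{0}) (J : ℕ) :
    bt e E (hd σ J) ≤ fr e σ E J := by
  cases σ with
  | nil => rw [fr, hd]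
  | cons v σ => rw [fr, hd]; exact le_self_add

theorem lt_hd (e : ℕ → Ordinal.{0}) (he : ∀ v, 1 ≤ e v) (σ : List ℕ) (E : Ordinal.{0})
    (h : Pth E e σ) (J : ℕ) : fr e σ E J < bt e E (hd σ J + 1) := by
  cases σ with
  | nil =>
    rw [fr, hd]
    have h1 : bt e E (2 * J + 1 + 1) = bt e E (2 * J + 1) + wt e E (2 * J + 1) := rfl
    have h2 : wt e E (2 * J + 1) = 1 := by unfold wt; rw [if_pos (by omega)]
    rw [h1, h2, ← Order.succ_eq_add_one]
    exact Order.lt_succ _
  | cons v σ =>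
    rw [fr, hd]
    have h1 : bt e E (2 * v + 2 + 1) = bt e E (2 * v + 2) + wt e E (2 * v + 2) := rfl
    rw [h1, wt_even e E v (h.1 v (by simp))]
    have h2 := fr_lt e he J σ (e v) (he v) (pth_tail h)
    gcongr

/-- lexicographic comparison of words at a common place -/
def Lx (w w' : List ℕ) : Prop :=
  ∃ m, m < w.length ∧ m < w'.length ∧ (∀ l < m, w.getD l 0 = w'.getD l 0) ∧
    w.getD m 0 < w'.getD m 0

theorem Lx.head {x x' : ℕ} (h : x < x') (w w' : List ℕ) : Lx (x :: w) (x' :: w') :=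
  ⟨0, by simp, by simp, fun l hl => absurd hl (Nat.not_lt_zero l), by simpa using h⟩

theorem Lx.cons {w w' : List ℕ} (h : Lx w w') (x : ℕ) : Lx (x :: w) (x :: w') := by
  obtain ⟨m, h1, h2, h3, h4⟩ := h
  refine ⟨m + 1, by simpa using h1, by simpa using h2, ?_, by simpa using h4⟩
  intro l hl
  cases l with
  | zero => simp
  | succ l => simpa using h3 l (by omega)

theorem enc_eq (σ : List ℕ) (J : ℕ) : ∃ w, enc σ J = hd σ J :: w := by
  cases σ with
  | nil => exact ⟨[], rfl⟩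
  | cons v σ => exact ⟨enc σ J, rfl⟩

theorem cmp_hd (e : ℕ → Ordinal.{0}) (he : ∀ v, 1 ≤ e v) (σ σ' : List ℕ) (E : Ordinal.{0})
    (h : Pth E e σ) (J J' : ℕ) (hlt : hd σ J < hd σ' J') :
    Lx (enc σ J) (enc σ' J') ∧ fr e σ E J < fr e σ' E J' := by
  obtain ⟨w, hw⟩ := enc_eq σ J
  obtain ⟨w', hw'⟩ := enc_eq σ' J'
  refine ⟨by rw [hw, hw']; exact Lx.head hlt w w', ?_⟩
  exact (lt_hd e he σ E h J).trans_le ((bt_mono e E (by omega)).trans (hd_le e σ' E J'))

theorem cmp (e : ℕ → Ordinal.{0}) (he : ∀ v, 1 ≤ e v) (J J' : ℕ) :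
    ∀ (σ σ' : List ℕ) (E : Ordinal.{0}), Pth E e σ → Pth E e σ' → (J ≠ J' ∨ σ ≠ σ') →
    (Lx (enc σ J) (enc σ' J') ∧ fr e σ E J < fr e σ' E J') ∨
    (Lx (enc σ' J') (enc σ J) ∧ fr e σ' E J' < fr e σ E J) := by
  intro σ
  induction σ with
  | nil =>
    intro σ' E h h' hne
    have hh : hd [] J ≠ hd σ' J' := by
      cases σ' with
      | nil =>
        have : J ≠ J' := by
          rcases hne with h1 | h1
          · exact h1
          · exact absurd rfl h1
        simp only [hd]; omega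
      | cons v σ' => simp only [hd]; omega
    rcases lt_or_gt_of_ne hh with h1 | h1
    · exact Or.inl (cmp_hd e he _ _ E h J J' h1)
    · exact Or.inr (cmp_hd e he _ _ E h' J' J h1)
  | cons v σ ih =>
    intro σ' E h h' hne
    by_cases hh : hd (v :: σ) J = hd σ' J'
    · cases σ' with
      | nil => simp only [hd] at hh; omega
      | cons v' σ' =>
        simp only [hd] at hh
        have hv : v = v' := by omega
        subst hv
        have hne' : J ≠ J' ∨ σ ≠ σ' := by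
          rcases hne with h1 | h1
          · exact Or.inl h1
          · exact Or.inr fun h2 => h1 (by rw [h2])
        have e1 : enc (v :: σ) J = (2 * v + 2) :: enc σ J := rfl
        have e2 : enc (v :: σ') J' = (2 * v + 2) :: enc σ' J' := rfl
        rcases ih σ' (e v) (pth_tail h) (pth_tail h') hne' with ⟨h1, h2⟩ | ⟨h1, h2⟩
        · left
          rw [e1, e2, fr, fr]
          exact ⟨h1.cons _, by gcongr⟩
        · right
          rw [e1, e2, fr, fr]
          exact ⟨h1.cons _, by gcongr⟩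
    · rcases lt_or_gt_of_ne hh with h1 | h1
      · exact Or.inl (cmp_hd e he _ _ E h J J' h1)
      · exact Or.inr (cmp_hd e he _ _ E h' J' J h1)

theorem occ_getD {k : ℕ → ℕ} {i : ℕ} {w : List ℕ} (h : Occ k i w) (o : ℕ) (ho : o < w.length) :
    k (i + o) = w.getD o 0 := by
  rw [h o ho, List.getD_eq_getElem _ _ ho]

theorem lts_of_lx {k : ℕ → ℕ} {i i' : ℕ} {w w' : List ℕ} (h : Occ k i w) (h' : Occ k i' w')
    (hl : Lx w w') : LTs k i i' := by
  obtain ⟨m, h1, h2, h3, h4⟩ := hl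
  refine ⟨m, fun l hl => ?_, ?_⟩
  · rw [occ_getD h l (by omega), occ_getD h' l (by omega)]
    exact h3 l hl
  · rw [occ_getD h m h1, occ_getD h' m h2]
    exact h4

theorem occ_drop {k : ℕ → ℕ} {i : ℕ} {w : List ℕ} (h : Occ k i w) (o : ℕ) :
    Occ k (i + o) (w.drop o) := by
  intro l hl
  rw [List.length_drop] at hl
  rw [add_assoc, h (o + l) (by omega), List.getElem_drop]

theorem enc_drop (σ : List ℕ) (J o : ℕ) (ho : o ≤ σ.length) :
    (enc σ J).drop o = enc (σ.drop o) J := by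
  unfold enc
  rw [List.drop_append_of_le_length (by simpa using ho), List.map_drop]

end RK

theorem t_RK : S_RK := by
  intro μ e s k pos hμ hS
  have hex : ∀ i, ∃ J o, o ≤ (s J).length ∧ i = pos J + o := by
    intro i
    induction i with
    | zero => exact ⟨0, 0, Nat.zero_le _, by rw [hS.h0]⟩
    | succ i ih =>
      obtain ⟨J, o, ho, hi⟩ := ih
      rcases lt_or_eq_of_le ho with h | h
      · exact ⟨J, o + 1, h, by omega⟩
      · exact ⟨J + 1, 0, Nat.zero_le _, by rw [hS.h1]; omega⟩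
  choose J o ho hi using hex
  refine ⟨fun i => RK.fr e ((s (J i)).drop (o i)) μ (J i), fun i =>
    RK.fr_lt e hS.he _ _ μ hμ (RK.pth_drop _ (hS.hp _)), ?_⟩
  intro i i' hne
  have hocc : ∀ i, Occ k i (enc ((s (J i)).drop (o i)) (J i)) := by
    intro i
    have h := RK.occ_drop (hS.ho (J i)) (o i)
    rw [RK.enc_drop _ _ _ (ho i), ← hi i] at h
    exact h
  have hd : J i ≠ J i' ∨ (s (J i)).drop (o i) ≠ (s (J i')).drop (o i') := by
    by_contra hc
    push Not at hc
    obtain ⟨h1, h2⟩ := hc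
    have h3 := congrArg List.length h2
    rw [List.length_drop, List.length_drop] at h3
    have a1 := ho i
    have a2 := ho i'
    have a3 := hi i
    have a4 := hi i'
    rw [h1] at a1 a3 h3
    apply hne
    omega
  rcases RK.cmp e hS.he (J i) (J i') _ _ μ (RK.pth_drop _ (hS.hp _)) (RK.pth_drop _ (hS.hp _)) hd
    with ⟨h1, h2⟩ | ⟨h1, h2⟩
  · exact Or.inl ⟨RK.lts_of_lx (hocc i) (hocc i') h1, h2⟩
  · exact Or.inr ⟨RK.lts_of_lx (hocc i') (hocc i) h1, h2⟩

end Pool.Agent.H560R3.SO
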