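import Pool.Agent.H560R3.SO.Stm

/-! Task SUF: the existence direction. -/

set_option autoImplicit false

namespace Pool.Agent.H560R3.SO

open Ordinal

theorem t_SUF (hCORE : S_CORE) (hBIN : S_BIN) (hCNF : S_CNF) (hVAL : S_VAL) (hTYPE : S_TYPE) :
    S_SUF := by
  intro μ p ρ hμ hcard hp hρ hp1
  obtain ⟨k, D0, D1, f, hcore⟩ := hCORE μ hμ hcard
  obtain ⟨γ, g1, g2, g3, g4⟩ : ∃ γ : List Ordinal.{0}, γ.Pairwise (fun x y => y ≤ x) ∧
      (∀ g ∈ γ, g ≤ μ) ∧ psum γ = ρ ∧ (p = 1 → γ = []) := by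
    by_cases h : p = 1
    · refine ⟨[], List.Pairwise.nil, fun g hg => absurd hg (List.not_mem_nil), ?_, fun _ => rfl⟩
      rw [hp1 h]
      simp [psum]
    · obtain ⟨γ, g1, g2, g3⟩ := hCNF ρ μ hρ
      exact ⟨γ, g1, g2, g3, fun h' => absurd h' h⟩
  obtain ⟨b, hb, F, hF, htri, G, hG⟩ := hBIN μ k D0 D1 f hμ hcore p γ hp g1 g2 g4
  refine ⟨b, ?_⟩
  have hv := hVAL b hb
  have hiff : ∀ n n', sv b n < sv b n' ↔ F n < F n' := by
    intro n n'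
    by_cases hn : n = n'
    · subst hn
      exact ⟨fun h => absurd h (lt_irrefl _), fun h => absurd h (lt_irrefl _)⟩
    · rcases htri n n' hn with ⟨h1, h2⟩ | ⟨h1, h2⟩
      · exact ⟨fun _ => h2, fun _ => hv _ _ h1⟩
      · exact ⟨fun h => absurd h (lt_asymm (hv _ _ h1)), fun h => absurd h (lt_asymm h2)⟩
  rw [← g3]
  exact hTYPE (sv b) F _ G hiff hF (fun ξ η h1 h2 => (hiff _ _).1 (hv _ _ (hG ξ η h1 h2)))

end Pool.Agent.H560R3.SO
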