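import Pool.Agent.H560R3.SO.Defs

/-!
Statements of the parts (MP_c20855_lc, Q1).
-/

set_option autoImplicit false

namespace Pool.Agent.H560R3.SO

open Ordinal

/-! ### Order types of sets of reals -/

def S_HTsub : Prop := ∀ (s t : Set ℝ) (α : Ordinal.{0}), t ⊆ s → HasType s α →
  ∃ β ≤ α, HasType t β

def S_HTmap : Prop := ∀ (s t : Set ℝ) (α β : Ordinal.{0}) (g : ℝ → ℝ), HasType s α → HasType t β →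
  StrictMonoOn g s → Set.MapsTo g s t → α ≤ β

def S_HTsplit : Prop := ∀ (s : Set ℝ) (c : ℝ) (α : Ordinal.{0}), HasType s α →
  ∃ β γ : Ordinal.{0}, HasType (s ∩ Set.Iio c) β ∧ HasType (s ∩ Set.Ici c) γ ∧ α = β + γ

def S_HTinit : Prop := ∀ (s : Set ℝ) (α β : Ordinal.{0}), HasType s α → β < α →
  ∃ x ∈ s, HasType (s ∩ Set.Iio x) β

def S_HTsum : Prop := ∀ (s : Set ℝ) (c : ℕ → ℝ) (p : ℝ) (τ : Ordinal.{0}), StrictMono c →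
  (∀ n, c n < p) → (∀ x < p, ∃ n, x < c n) → s ⊆ Set.Ico (c 0) p →
  (∀ n, HasType (s ∩ Set.Ico (c n) (c (n + 1))) τ) → HasType s (τ * ω)

def S_HTcount : Prop := ∀ (s : Set ℝ) (α : Ordinal.{0}), s.Countable → HasType s α →
  α.card ≤ Cardinal.aleph0

def S_TYPE : Prop := ∀ (a : ℕ → ℝ) (F : ℕ → Ordinal.{0}) (α : Ordinal.{0}) (G : Ordinal.{0} → ℕ),
  (∀ n n', a n < a n' ↔ F n < F n') → (∀ n, F n < α) →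
  (∀ ξ η, ξ < η → η < α → F (G ξ) < F (G η)) → HasType (Set.range a) α

/-! ### The necessary direction -/

def S_NA : Prop := ∀ b : ℕ → Bool, (shiftSet b).Infinite → Orb (sv b)

def S_NB : Prop := ∀ a : ℕ → ℝ, Orb a → ∀ β ρ : Ordinal.{0}, 1 ≤ β → ρ < ω ^ β →
  HasType (Set.range a) (ω ^ β + ρ) → ρ = 0

def S_NC : Prop := ∀ a : ℕ → ℝ, Orb a → ∀ (β : Ordinal.{0}) (n : ℕ) (ρ : Ordinal.{0}), 1 ≤ β →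
  1 ≤ n → ρ < ω ^ β → HasType (Set.range a) (ω ^ β * (n : Ordinal.{0}) + ρ) →
  ∃ (p : ℝ) (m : ℕ), 0 < p ∧ p ≤ 1 ∧ 1 ≤ m ∧ dbl^[m] p = p ∧
    ∃ t < p, ∀ t', t ≤ t' → t' < p → HasType (Set.range a ∩ Set.Ico t' p) (ω ^ β)

def S_ND : Prop := ∀ a : ℕ → ℝ, Orb a → ∀ (β : Ordinal.{0}) (p : ℝ) (m : ℕ) (t : ℝ), 1 ≤ β →
  0 < p → p ≤ 1 → 1 ≤ m → dbl^[m] p = p → t < p →
  (∀ t', t ≤ t' → t' < p → HasType (Set.range a ∩ Set.Ico t' p) (ω ^ β)) →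
  ∃ μ : Ordinal.{0}, 1 ≤ μ ∧ β = μ + 1

def S_NE : Prop := ∀ α : Ordinal.{0}, ω ≤ α → ∃ (β : Ordinal.{0}) (n : ℕ) (ρ : Ordinal.{0}),
  1 ≤ β ∧ 1 ≤ n ∧ ρ < ω ^ β ∧ α = ω ^ β * (n : Ordinal.{0}) + ρ

/-! ### The sufficient direction: generalities -/

def S_FINB : Prop := ∀ n : ℕ, 1 ≤ n → ∃ b : ℕ → Bool, HasType (shiftSet b) (n : Ordinal.{0})

def S_VAL : Prop := ∀ b : ℕ → Bool, (∀ N, ∃ n ≥ N, b n = false) → ∀ i j, LTs b i j →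
  sv b i < sv b j

def S_CAT : Prop := ∀ (X : Type) (y : ℕ → List X), (∀ j, y j ≠ []) →
  ∃ (g : ℕ → X) (pos : ℕ → ℕ), pos 0 = 0 ∧ (∀ j, pos (j + 1) = pos j + (y j).length) ∧
    ∀ j, Occ g (pos j) (y j)

def S_CNF : Prop := ∀ ρ μ : Ordinal.{0}, ρ < ω ^ (μ + 1) → ∃ γ : List Ordinal.{0},
  γ.Pairwise (fun x y => y ≤ x) ∧ (∀ g ∈ γ, g ≤ μ) ∧ psum γ = ρ

/-! ### The core -/

def S_LAB : Prop := ∀ μ : Ordinal.{0}, μ.card ≤ Cardinal.aleph0 → ∃ e : ℕ → Ordinal.{0},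
  (∀ v, 1 ≤ e v) ∧ ∀ γ, 1 ≤ γ → γ < μ → ∀ N, ∃ v ≥ N, e v = γ

/-- paths: lists of labels with decreasing exponents below `μ` -/
def Pth (μ : Ordinal.{0}) (e : ℕ → Ordinal.{0}) (l : List ℕ) : Prop :=
  (∀ v ∈ l, e v < μ) ∧ l.Pairwise (fun v w => e w < e v)

def S_ENU : Prop := ∀ (μ : Ordinal.{0}) (e : ℕ → Ordinal.{0}), ∃ s : ℕ → List ℕ,
  (∀ J, Pth μ e (s J)) ∧ ∀ π, Pth μ e π → ∀ J0 d, d < 2 → ∃ J ≥ J0, J % 2 = d ∧ s J = π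

/-- path symbols are even, the terminator number `J` is `2 J + 1` -/
def enc (l : List ℕ) (J : ℕ) : List ℕ := l.map (fun v => 2 * v + 2) ++ [2 * J + 1]

/-- the sequence of naturals listing all paths with terminators -/
structure Sq (μ : Ordinal.{0}) (e : ℕ → Ordinal.{0}) (s : ℕ → List ℕ) (k : ℕ → ℕ)
    (pos : ℕ → ℕ) : Prop where
  he : ∀ v, 1 ≤ e v
  hl : ∀ γ, 1 ≤ γ → γ < μ → ∀ N, ∃ v ≥ N, e v = γ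
  hp : ∀ J, Pth μ e (s J)
  hs : ∀ π, Pth μ e π → ∀ J0 d, d < 2 → ∃ J ≥ J0, J % 2 = d ∧ s J = π
  h0 : pos 0 = 0
  h1 : ∀ J, pos (J + 1) = pos J + ((s J).length + 1)
  ho : ∀ J, Occ k (pos J) (enc (s J) J)

def S_RK : Prop := ∀ (μ : Ordinal.{0}) (e : ℕ → Ordinal.{0}) (s : ℕ → List ℕ) (k pos : ℕ → ℕ),
  1 ≤ μ → Sq μ e s k pos → ∃ f : ℕ → Ordinal.{0}, (∀ i, f i < ω ^ μ) ∧
    ∀ i i', i ≠ i' → (LTs k i i' ∧ f i < f i') ∨ (LTs k i' i ∧ f i' < f i)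

def S_EMB : Prop := ∀ (μ : Ordinal.{0}) (e : ℕ → Ordinal.{0}) (s : ℕ → List ℕ) (k pos : ℕ → ℕ),
  1 ≤ μ → Sq μ e s k pos → ∀ d J0 : ℕ, d < 2 → ∃ g : Ordinal.{0} → ℕ,
    (∀ ξ < ω ^ μ, J0 ≤ g ξ ∧ g ξ % 2 = d) ∧
    ∀ ξ η, ξ < η → η < ω ^ μ → LTs k (pos (g ξ)) (pos (g η))

def S_CORE : Prop := ∀ μ : Ordinal.{0}, 1 ≤ μ → μ.card ≤ Cardinal.aleph0 →
  ∃ (k : ℕ → ℕ) (D0 D1 : Set ℕ) (f : ℕ → Ordinal.{0}), IsCore μ k D0 D1 f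

/-! ### The binary sequence -/

def S_BIN0 : Prop := ∀ (p : ℕ) (k c : ℕ → ℕ), 1 ≤ p → (∀ i, 1 ≤ k i) →
  ∃ (b : ℕ → Bool) (pos : ℕ → ℕ), Bin p k c b pos

def S_TL : Prop := ∀ (p : ℕ) (k c : ℕ → ℕ) (b : ℕ → Bool) (pos : ℕ → ℕ) (D1 : Set ℕ),
  Bin p k c b pos → (∀ i ∈ D1, ∀ i', k i' = k i → i' = i) → (∀ i, c i ≠ 0 → i ∈ D1) →
  ∀ i i', LTs k i i' → LTs b (pos i) (pos i')

def S_NF : Prop := ∀ (p : ℕ) (k c : ℕ → ℕ) (b : ℕ → Bool) (pos : ℕ → ℕ), Bin p k c b pos →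
  ∀ n, (∃ z j i, Low p k c b pos n z j i) ∨ (∃ z q i, High p c b pos n z q i)

def S_BC : Prop := ∀ (μ : Ordinal.{0}) (D1 : Set ℕ) (G : Ordinal.{0} → ℕ) (γ : List Ordinal.{0}),
  (∀ ξ < ω ^ μ, G ξ ∈ D1) → (∀ ξ < ω ^ μ, ∀ η < ω ^ μ, G ξ = G η → ξ = η) →
  γ.Pairwise (fun x y => y ≤ x) → (∀ g ∈ γ, g ≤ μ) →
  ∃ (c : ℕ → ℕ) (X : ℕ → Ordinal.{0}), IsC μ D1 G γ c X ∧ ∀ i, c i ≤ γ.length

/-- the situation in which positions are compared -/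
structure Ctx (μ : Ordinal.{0}) (p : ℕ) (k c : ℕ → ℕ) (b : ℕ → Bool) (pos : ℕ → ℕ)
    (f : ℕ → Ordinal.{0}) (γ : List Ordinal.{0}) (X : ℕ → Ordinal.{0}) : Prop where
  hμ : 1 ≤ μ
  hb : Bin p k c b pos
  hf : ∀ i, f i < ω ^ μ
  ht : ∀ i i', i ≠ i' → (LTs b (pos i) (pos i') ∧ f i < f i') ∨
    (LTs b (pos i') (pos i) ∧ f i' < f i)
  hC : ∀ i, c i ≤ γ.length
  h1 : p = 1 → γ = []
  hg : ∀ g ∈ γ, g ≤ μ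
  hX : ∀ i q, q < c i → ∃ h : q < γ.length, X i < ω ^ γ[q]
  hXm : ∀ i i', c i ≠ 0 → c i' ≠ 0 → f (i + 1) < f (i' + 1) → X i < X i'

def S_LL : Prop := ∀ (μ : Ordinal.{0}) (p : ℕ) (k c : ℕ → ℕ) (b : ℕ → Bool) (pos : ℕ → ℕ)
  (f : ℕ → Ordinal.{0}) (γ : List Ordinal.{0}) (X : ℕ → Ordinal.{0}), Ctx μ p k c b pos f γ X →
  ∀ n z j i n' z' j' i', Low p k c b pos n z j i → Low p k c b pos n' z' j' i' → n ≠ n' →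
    (LTs b n n' ∧ Flow μ f p γ.length c z j i < Flow μ f p γ.length c z' j' i') ∨
    (LTs b n' n ∧ Flow μ f p γ.length c z' j' i' < Flow μ f p γ.length c z j i)

def S_LH : Prop := ∀ (μ : Ordinal.{0}) (p : ℕ) (k c : ℕ → ℕ) (b : ℕ → Bool) (pos : ℕ → ℕ)
  (f : ℕ → Ordinal.{0}) (γ : List Ordinal.{0}) (X : ℕ → Ordinal.{0}), Ctx μ p k c b pos f γ X →
  ∀ n z j i n' z' q i', Low p k c b pos n z j i → High p c b pos n' z' q i' →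
    (LTs b n n' ∧ Flow μ f p γ.length c z j i < Fhigh μ f p γ X z' q i') ∨
    (LTs b n' n ∧ Fhigh μ f p γ X z' q i' < Flow μ f p γ.length c z j i)

def S_HH : Prop := ∀ (μ : Ordinal.{0}) (p : ℕ) (k c : ℕ → ℕ) (b : ℕ → Bool) (pos : ℕ → ℕ)
  (f : ℕ → Ordinal.{0}) (γ : List Ordinal.{0}) (X : ℕ → Ordinal.{0}), Ctx μ p k c b pos f γ X →
  ∀ n z q i n' z' q' i', High p c b pos n z q i → High p c b pos n' z' q' i' → n ≠ n' →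
    (LTs b n n' ∧ Fhigh μ f p γ X z q i < Fhigh μ f p γ X z' q' i') ∨
    (LTs b n' n ∧ Fhigh μ f p γ X z' q' i' < Fhigh μ f p γ X z q i)

def S_BD : Prop := ∀ (μ : Ordinal.{0}) (p : ℕ) (k c : ℕ → ℕ) (b : ℕ → Bool) (pos : ℕ → ℕ)
  (f : ℕ → Ordinal.{0}) (γ : List Ordinal.{0}) (X : ℕ → Ordinal.{0}), Ctx μ p k c b pos f γ X →
  ∀ n z j i, (Low p k c b pos n z j i →
      Flow μ f p γ.length c z j i < ω ^ (μ + 1) * (p : Ordinal.{0}) + psum γ) ∧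
    (High p c b pos n z j i →
      Fhigh μ f p γ X z j i < ω ^ (μ + 1) * (p : Ordinal.{0}) + psum γ)

/-- the lower embedding -/
def S_BG : Prop := ∀ (μ : Ordinal.{0}) (p : ℕ) (k c : ℕ → ℕ) (b : ℕ → Bool) (pos : ℕ → ℕ)
  (f : ℕ → Ordinal.{0}) (γ : List Ordinal.{0}) (X : ℕ → Ordinal.{0}) (D0 D1 : Set ℕ)
  (G1 : Ordinal.{0} → ℕ), Ctx μ p k c b pos f γ X →
  (∀ i ∈ D0, c i = 0) →
  (∀ j : ℕ, ∃ G : Ordinal.{0} → ℕ, (∀ ξ < ω ^ μ, G ξ ∈ D0 ∧ j < k (G ξ)) ∧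
    ∀ ξ η, ξ < η → η < ω ^ μ → f (G ξ + 1) < f (G η + 1)) →
  (∀ ξ η, ξ < η → η < ω ^ μ → f (G1 ξ + 1) < f (G1 η + 1)) →
  IsC μ D1 G1 γ c X →
  ∃ G : Ordinal.{0} → ℕ, ∀ ξ η, ξ < η → η < ω ^ (μ + 1) * (p : Ordinal.{0}) + psum γ →
    LTs b (G ξ) (G η)

def S_BIN : Prop := ∀ (μ : Ordinal.{0}) (k : ℕ → ℕ) (D0 D1 : Set ℕ) (f : ℕ → Ordinal.{0}),
  1 ≤ μ → IsCore μ k D0 D1 f → ∀ (p : ℕ) (γ : List Ordinal.{0}), 1 ≤ p →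
  γ.Pairwise (fun x y => y ≤ x) → (∀ g ∈ γ, g ≤ μ) → (p = 1 → γ = []) →
  ∃ b : ℕ → Bool, (∀ N, ∃ n ≥ N, b n = false) ∧ ∃ F : ℕ → Ordinal.{0},
    (∀ n, F n < ω ^ (μ + 1) * (p : Ordinal.{0}) + psum γ) ∧
    (∀ n n', n ≠ n' → (LTs b n n' ∧ F n < F n') ∨ (LTs b n' n ∧ F n' < F n)) ∧
    ∃ G : Ordinal.{0} → ℕ, ∀ ξ η, ξ < η → η < ω ^ (μ + 1) * (p : Ordinal.{0}) + psum γ →
      LTs b (G ξ) (G η)

/-- the existence direction -/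
def S_SUF : Prop := ∀ (μ : Ordinal.{0}) (p : ℕ) (ρ : Ordinal.{0}), 1 ≤ μ →
  μ.card ≤ Cardinal.aleph0 → 1 ≤ p → ρ < ω ^ (μ + 1) → (p = 1 → ρ = 0) →
  ∃ b : ℕ → Bool, HasType (shiftSet b) (ω ^ (μ + 1) * (p : Ordinal.{0}) + ρ)

/-- the necessary direction -/
def S_NEC : Prop := ∀ (b : ℕ → Bool) (α : Ordinal.{0}), HasType (shiftSet b) α →
  (∃ n : ℕ, 1 ≤ n ∧ α = (n : Ordinal.{0})) ∨
  ∃ (μ : Ordinal.{0}) (p : ℕ) (ρ : Ordinal.{0}), 1 ≤ μ ∧ μ.card ≤ Cardinal.aleph0 ∧ 1 ≤ p ∧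
    ρ < ω ^ (μ + 1) ∧ (p = 1 → ρ = 0) ∧ α = ω ^ (μ + 1) * (p : Ordinal.{0}) + ρ

end Pool.Agent.H560R3.SO
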