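import Pool.Agent.H560R3.SO.Stm

set_option autoImplicit false

namespace Pool.Agent.H560R3.SO

namespace TL

theorem occ_left {X : Type} {g : ℕ → X} {n : ℕ} {w1 w2 : List X} (h : Occ g n (w1 ++ w2)) :
    Occ g n w1 := by
  intro o ho
  rw [h o (by rw [List.length_append]; omega), List.getElem_append_left ho]

theorem occ_right {X : Type} {g : ℕ → X} {n : ℕ} {w1 w2 : List X} (h : Occ g n (w1 ++ w2)) :
    Occ g (n + w1.length) w2 := by
  intro o ho
  have := h (w1.length + o) (by rw [List.length_append]; omega)
  rw [List.getElem_append_right (by omega)] at this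
  rw [Nat.add_assoc, this]
  congr 1
  omega

theorem occ_append {X : Type} {g : ℕ → X} {n : ℕ} {w1 w2 : List X} (h1 : Occ g n w1)
    (h2 : Occ g (n + w1.length) w2) : Occ g n (w1 ++ w2) := by
  intro o ho
  rcases Nat.lt_or_ge o w1.length with h | h
  · rw [List.getElem_append_left h]; exact h1 o h
  · rw [List.getElem_append_right h]
    have := h2 (o - w1.length) (by rw [List.length_append] at ho; omega)
    rw [← this]
    congr 1
    omega

theorem occ_head {X : Type} {g : ℕ → X} {n : ℕ} {x : X} {w : List X} (h : Occ g n (x :: w)) :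
    g n = x := by
  have := h 0 (by simp)
  simpa using this

theorem occ_tail {X : Type} {g : ℕ → X} {n : ℕ} {x : X} {w : List X} (h : Occ g n (x :: w)) :
    Occ g (n + 1) w := by
  have := occ_right (w1 := [x]) (w2 := w) h
  simpa using this

theorem uw_length (p : ℕ) (hp : 1 ≤ p) : (uw p).length = p := by
  unfold uw
  rw [List.length_cons, List.length_replicate]
  omega

theorem up_succ (p k : ℕ) : up p (k + 1) = uw p ++ up p k := by
  unfold up
  rw [List.replicate_succ, List.flatten_cons]

theorem up_zero (p : ℕ) : up p 0 = [] := by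
  unfold up
  simp

theorem up_add (p a b : ℕ) : up p (a + b) = up p a ++ up p b := by
  unfold up
  rw [← List.replicate_append_replicate, List.flatten_append]

theorem up_length (p : ℕ) (hp : 1 ≤ p) (k : ℕ) : (up p k).length = p * k := by
  induction k with
  | zero => rw [up_zero]; simp
  | succ k ih => rw [up_succ, List.length_append, ih, uw_length p hp]; ring

theorem blk_length (p k c : ℕ) (hp : 1 ≤ p) : (blk p k c).length = p * k + 1 + c := by
  unfold blk
  rw [List.length_append, up_length p hp, List.length_cons, List.length_replicate]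
  ring

end TL

open TL

theorem t_TL : S_TL := by
  intro p k c b pos D1 hB hu hcD i i' hlt
  obtain ⟨m, hm1, hm2⟩ := hlt
  have hp := hB.hp
  have hne : i ≠ i' := by
    rintro rfl
    exact absurd hm2 (lt_irrefl _)
  have hc1 : ∀ l < m, c (i + l) = 0 := by
    intro l hl
    by_contra h
    have := hu _ (hcD _ h) (i' + l) (hm1 l hl).symm
    omega
  have hc2 : ∀ l < m, c (i' + l) = 0 := by
    intro l hl
    by_contra h
    have := hu _ (hcD _ h) (i + l) (hm1 l hl)
    omega
  have key : ∀ l ≤ m, ∃ L, pos (i + l) = pos i + L ∧ pos (i' + l) = pos i' + L ∧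
      ∀ o < L, b (pos i + o) = b (pos i' + o) := by
    intro l
    induction l with
    | zero => intro _; exact ⟨0, by simp, by simp, fun o ho => absurd ho (by omega)⟩
    | succ l ih =>
      intro hl
      obtain ⟨L, h1, h2, h3⟩ := ih (by omega)
      have e1 := hB.hs (i + l)
      have e2 := hB.hs (i' + l)
      have o1 := hB.ho (i + l)
      have o2 := hB.ho (i' + l)
      rw [hc1 l (by omega)] at e1 o1
      rw [hc2 l (by omega)] at e2 o2
      rw [← hm1 l (by omega)] at e2 o2
      refine ⟨L + (p * k (i + l) + 1), ?_, ?_, ?_⟩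
      · rw [show i + (l + 1) = i + l + 1 by omega, e1, h1]; ring
      · rw [show i' + (l + 1) = i' + l + 1 by omega, e2, h2]; ring
      · intro o ho
        rcases Nat.lt_or_ge o L with h | h
        · exact h3 o h
        · obtain ⟨d, rfl⟩ := Nat.exists_eq_add_of_le h
          have hd : d < (blk p (k (i + l)) 0).length := by rw [blk_length p _ _ hp]; omega
          have a1 := o1 d hd
          have a2 := o2 d hd
          rw [h1, Nat.add_assoc] at a1
          rw [h2, Nat.add_assoc] at a2
          rw [a1, a2]
  obtain ⟨L, h1, h2, h3⟩ := key m le_rfl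
  obtain ⟨r, hr⟩ := Nat.exists_eq_add_of_lt hm2
  have o1 := hB.ho (i + m)
  have o2 := hB.ho (i' + m)
  unfold blk at o1 o2
  have a1 := occ_left o1
  have a2 := occ_head (occ_right o1)
  have a3 := occ_left o2
  rw [show k (i' + m) = k (i + m) + (r + 1) by omega, up_add, up_succ] at a3
  have a4 := occ_left a3
  have a5 := occ_right a3
  have a6 := occ_left a5
  have a7 : b (pos (i' + m) + (up p (k (i + m))).length) = true := by
    unfold uw at a6
    exact occ_head a6
  rw [up_length p hp] at a2 a7
  refine ⟨L + p * k (i + m), ?_, ?_⟩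
  · intro o ho
    rcases Nat.lt_or_ge o L with h | h
    · exact h3 o h
    · obtain ⟨d, rfl⟩ := Nat.exists_eq_add_of_le h
      have hd : d < (up p (k (i + m))).length := by rw [up_length p hp]; omega
      have b1 := a1 d hd
      have b2 := a4 d hd
      rw [h1, Nat.add_assoc] at b1
      rw [h2, Nat.add_assoc] at b2
      rw [b1, b2]
  · rw [h1, Nat.add_assoc] at a2
    rw [h2, Nat.add_assoc] at a7
    rw [a2, a7]
    decide

end Pool.Agent.H560R3.SO
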