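import Pool.Agent.H560R3.SO.Stm

/-! The order type from an upper and a lower embedding. -/

set_option autoImplicit false

namespace Pool.Agent.H560R3.SO

open Ordinal

theorem t_TYPE : S_TYPE := by
  intro a F α G h1 h2 h3
  have hch : ∀ x : Set.range a, ∃ n, a n = x := fun x => x.2
  choose N hN using hch
  have hφ : ∀ x y : Set.range a, x < y →
      (ToType.mk (⟨F (N x), h2 _⟩ : Set.Iio α) : α.ToType) < ToType.mk ⟨F (N y), h2 _⟩ := by
    intro x y hxy
    refine ToType.mk.lt_iff_lt.2 ?_
    refine Subtype.mk_lt_mk.2 ((h1 _ _).1 ?_)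
    rw [hN, hN]
    exact hxy
  let e : (fun x y : Set.range a => x < y) ↪r (fun x y : α.ToType => x < y) :=
    RelEmbedding.ofMonotone (fun x : Set.range a => ToType.mk (⟨F (N x), h2 _⟩ : Set.Iio α)) hφ
  have hw : IsWellOrder (Set.range a) (fun x y => x < y) := e.isWellOrder
  let e' : (fun x y : α.ToType => x < y) ↪r (fun x y : Set.range a => x < y) :=
    RelEmbedding.ofMonotone
      (fun t : α.ToType => (⟨a (G (ToType.mk.symm t).1), Set.mem_range_self _⟩ : Set.range a)) <| by
        intro s t hst
        refine Subtype.mk_lt_mk.2 ((h1 _ _).2 (h3 _ _ ?_ (ToType.mk.symm t).2))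
        exact ToType.mk.symm.lt_iff_lt.2 hst
  refine ⟨hw, le_antisymm ?_ ?_⟩
  · have := e.ordinal_type_le
    rwa [type_toType] at this
  · have := e'.ordinal_type_le
    rwa [type_toType] at this

end Pool.Agent.H560R3.SO
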