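import Pool.Agent.H560R3.SO.Stm

set_option autoImplicit false

namespace Pool.Agent.H560R3.SO

namespace VAL

theorem summ (b : ℕ → Bool) (i : ℕ) :
    Summable (fun n : ℕ => (if b (i + n) = true then (1 : ℝ) else 0) / 2 ^ (n + 1)) := by
  refine Summable.of_nonneg_of_le (fun n => ?_) (fun n => ?_)
    (summable_geometric_two.mul_left (1 / 2 : ℝ))
  · split_ifs <;> positivity
  · rw [one_div, ← one_div, one_div_pow, pow_succ]
    split_ifs
    · exact le_of_eq (by field_simp)
    · rw [zero_div]; positivity

theorem nonneg (b : ℕ → Bool) (i : ℕ) : 0 ≤ sv b i := by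
  unfold sv
  exact tsum_nonneg fun n => by split_ifs <;> positivity

theorem le_one (b : ℕ → Bool) (i : ℕ) : sv b i ≤ 1 := by
  have h1 : sv b i ≤ ∑' n : ℕ, (1 / 2 : ℝ) * (1 / 2 : ℝ) ^ n := by
    unfold sv
    refine (summ b i).tsum_le_tsum (fun n => ?_) (summable_geometric_two.mul_left (1 / 2 : ℝ))
    rw [one_div_pow, pow_succ]
    split_ifs
    · exact le_of_eq (by field_simp)
    · rw [zero_div]; positivity
  rw [tsum_mul_left, tsum_geometric_two] at h1
  linarith

theorem step (b : ℕ → Bool) (i : ℕ) :
    sv b i = (if b i = true then (1 : ℝ) else 0) / 2 + sv b (i + 1) / 2 := by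
  unfold sv
  rw [(summ b i).tsum_eq_zero_add]
  congr 1
  · simp
  · rw [← tsum_div_const]
    refine tsum_congr fun n => ?_
    rw [show i + (n + 1) = i + 1 + n by omega, pow_succ 2 (n + 1)]
    field_simp

theorem lt_one (b : ℕ → Bool) : ∀ (d i : ℕ), b (i + d) = false → sv b i < 1 := by
  intro d
  induction d with
  | zero =>
    intro i h
    rw [step]
    rw [add_zero] at h
    rw [h]
    have := le_one b (i + 1)
    simp
    linarith
  | succ d ih =>
    intro i h
    have h1 := ih (i + 1) (by rw [← h]; congr 1; omega)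
    rw [step]
    split_ifs <;> linarith

theorem main (b : ℕ → Bool) (hb : ∀ N, ∃ n ≥ N, b n = false) :
    ∀ (m i j : ℕ), (∀ l < m, b (i + l) = b (j + l)) → b (i + m) < b (j + m) → sv b i < sv b j := by
  intro m
  induction m with
  | zero =>
    intro i j _ h
    rw [add_zero, add_zero, Bool.lt_iff] at h
    obtain ⟨n, hn, hn2⟩ := hb (i + 1)
    have h1 := lt_one b (n - (i + 1)) (i + 1) (by rw [← hn2]; congr 1; omega)
    have h2 := nonneg b (j + 1)
    rw [step b i, step b j, h.1, h.2]
    simp
    linarith
  | succ m ih =>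
    intro i j h1 h2
    have h3 := ih (i + 1) (j + 1) (fun l hl => by
      have := h1 (l + 1) (by omega)
      rw [show i + 1 + l = i + (l + 1) by omega, show j + 1 + l = j + (l + 1) by omega]
      exact this) (by
      rw [show i + 1 + m = i + (m + 1) by omega, show j + 1 + m = j + (m + 1) by omega]
      exact h2)
    have h4 := h1 0 (by omega)
    rw [add_zero, add_zero] at h4
    rw [step b i, step b j, h4]
    linarith

end VAL

theorem t_VAL : S_VAL := by
  intro b hb i j h
  obtain ⟨m, h1, h2⟩ := h
  exact VAL.main b hb m i j h1 h2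

end Pool.Agent.H560R3.SO
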